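import Pool.Agent.Lib.SubBisB.ParBPoly
import Pool.Agent.Lib.Pa7c826.AlgoPoly

/-!
The number of independent sets of a graph with a small vertex cover, by trying all subsets of the
cover.
-/

set_option autoImplicit false

namespace Pool.Agent.Lib.SubBisC

open Finset Pool.Agent.Lib.PolyTime Pool.Agent.Lib.Pa7c826 Pool.Agent.Lib.P8e91ed.PT

/-- all subsets of the cover `C` are tried -/
def bru (n : ℕ) (adj : ℕ → ℕ → Bool) (C : Finset ℕ) : ℕ :=
  ∑ τ ∈ range (2 ^ C.card), if indB n adj (sel C τ) then
    2 ^ (freeS n adj ((range n).filter fun v => (!decide (v ∈ C)) = true) (sel C τ)).card else 0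

theorem bru_eq {n : ℕ} {adj : ℕ → ℕ → Bool} {C : Finset ℕ} (hs : ∀ u v, adj u v = adj v u)
    (hC : C ⊆ range n) (hcov : ∀ u v, adj u v = true → u ∈ C ∨ v ∈ C) :
    bru n adj C = ind adj (range n) := by
  have h1 := sum_sel C fun T => if indB n adj T then
    2 ^ (freeS n adj ((range n).filter fun v => (!decide (v ∈ C)) = true) T).card else 0
  have h3 : ∀ v, v ∈ (range n).filter (fun v => (!decide (v ∈ C)) = true) ↔
      v ∈ range n ∧ v ∉ C := by
    intro v
    rw [mem_filter, Bool.not_eq_true', decide_eq_false_iff_not]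
  have h2 := ind_cover (n := n) (adj := adj) (S := range n) (W := C)
    (R := (range n).filter fun v => (!decide (v ∈ C)) = true) hs subset_rfl
    (by
      ext v
      rw [mem_union, h3]
      constructor
      · rintro (h | h)
        · exact hC h
        · exact h.1
      · intro h
        by_cases h4 : v ∈ C
        · exact Or.inl h4
        · exact Or.inr ⟨h, h4⟩)
    (by
      rw [disjoint_left]
      intro v hv h
      exact ((h3 v).1 h).2 hv)
    (by
      intro u hu v hv
      by_contra h
      rw [Bool.not_eq_false] at h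
      rcases hcov u v h with h4 | h4
      · exact ((h3 u).1 hu).2 h4
      · exact ((h3 v).1 hv).2 h4)
  unfold bru
  rw [h1, h2]

section poly

variable {α : Type} {D : α → Prop} {ctx : List (α → List Bool)} {w : α → List Bool}
  {C : α → Finset ℕ} {N : α → ℕ}

theorem poly_bru (hw : PolyC D ctx w) (hC : PolyS D ctx (fun x => nOf (w x)) C)
    (hN : PolyN D ctx N) (hb : ∀ x, D x → 2 ^ (C x).card ≤ N x) :
    PolyBin D ctx (fun x => bru (nOf (w x)) (adjOf (w x)) (C x)) := by
  have hn := poly_nOf hw
  have hc := PolyS.card hn hC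
  have h2 : PolyN D ctx (fun x => 2 ^ (C x).card) :=
    n_pow (PolyN.const 2) hc ((Bdd.ofN hN).le hb)
  have W := up (n := fun x => 2 ^ (C x).card) hw
  have CC := hC.up (m := fun x => 2 ^ (C x).card)
  have T := last (D := D) (ctx := ctx) (n := fun x => 2 ^ (C x).card)
  have SE := poly_sel W CC T
  have hR : PolyS (fun p : α × ℕ => D p.1 ∧ p.2 < 2 ^ (C p.1).card)
      (PolyTime.lift ctx ++ [fun p => un p.2]) (fun p => nOf (w p.1))
      (fun p => (range (nOf (w p.1))).filter fun v => (!decide (v ∈ C p.1)) = true) := by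
    refine PolyS.filter (φ := fun q : (α × ℕ) × ℕ => !decide (q.2 ∈ C q.1.1)) (poly_nOf W)
      (PolyS.range (poly_nOf W)) (PolyB.not ?_)
    have CC2 := CC.up (m := fun p : α × ℕ => nOf (w p.1))
    have L := last (D := fun p : α × ℕ => D p.1 ∧ p.2 < 2 ^ (C p.1).card)
      (ctx := PolyTime.lift ctx ++ [fun p => un p.2]) (n := fun p : α × ℕ => nOf (w p.1))
    exact CC2.mem L
  unfold bru
  refine PolyBin.sum_range (f := fun p : α × ℕ => if indB (nOf (w p.1)) (adjOf (w p.1))
    (sel (C p.1) p.2) then 2 ^ (freeS (nOf (w p.1)) (adjOf (w p.1))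
      ((range (nOf (w p.1))).filter fun v => (!decide (v ∈ C p.1)) = true)
        (sel (C p.1) p.2)).card else 0) h2 ?_
  have P := PolyBin.pow2 (PolyS.card (poly_nOf W) (poly_freeS W hR SE))
  exact PolyBin.ite (poly_indB W SE) (P.mono fun _ h => h.1) PolyBin.zero

end poly

end Pool.Agent.Lib.SubBisC
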