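import Pool.Agent.Lib.SubBisX.Node
import Pool.Agent.Lib.SubBisX.Bounds

/-!
# The sites of a vertex cover of a bipartite graph

The vertices of the bipartite graph `adj` are the numbers `< n`, the left vertices are the numbers
`< a`; the numbers `≥ n` are isolated vertices. `C ⊆ range n` is a vertex cover. The sites are the
vertices of `C`, numbered by their rank. A set `X` of numbers of sites selects the left vertices of
`C` with number in `X` and the right vertices of `C` with number not in `X`. The set function of the
induced subgraph `W` is the maximum number of edges of `W` between selected vertices of `C`, or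
between a selected vertex of `C` and a vertex outside `C`, such that every vertex of `C` is in at most
`κ` of them and every other vertex is in at most one. This is a matching number in the graph with
`κ` copies of every vertex.
-/

set_option autoImplicit false

namespace Pool.Agent.Lib.SubBisC

open Finset Pool.Agent.Lib.Pa7c826 Pool.Agent.Lib.Pa7c826t Pool.Agent.Lib.SubBisX
open Pool.Agent.Lib.SubBisX.Node

/-- the number of the site `v` -/
def rk (C : Finset ℕ) (v : ℕ) : ℕ := (C.filter fun u => u < v).card

/-- the site number `i` -/
def cs (n : ℕ) (C : Finset ℕ) (i : ℕ) : ℕ :=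
  ((range n).filter fun v => (C.filter fun u => u ≤ v).card ≤ i).card

/-- the vertex of the original graph, in the graph with `κ` copies of all vertices -/
def og (n a κ y : ℕ) : ℕ := if y < κ * a then y % a else a + (y - κ * a) % (n - a)

/-- the number of the copy -/
def nc (n a κ y : ℕ) : ℕ := if y < κ * a then y / a else (y - κ * a) / (n - a)

/-- the adjacency of the graph with `κ` copies of all vertices -/
def adjK (n a κ : ℕ) (adj : ℕ → ℕ → Bool) (u v : ℕ) : Bool := adj (og n a κ u) (og n a κ v)

/-- the vertices of the graph with copies: all copies of the selected sites in `W` and one copy of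
the other vertices in `W` -/
def SC (n a κ : ℕ) (C W X : Finset ℕ) : Finset ℕ :=
  (range (κ * n)).filter fun y => og n a κ y ∈ W ∧
    if og n a κ y ∈ C then (if y < κ * a then rk C (og n a κ y) ∈ X else rk C (og n a κ y) ∉ X)
    else nc n a κ y = 0

/-- the matching number -/
def cnC (n a : ℕ) (adj : ℕ → ℕ → Bool) (κ : ℕ) (C W X : Finset ℕ) : ℕ :=
  nu (κ * n) (κ * a) (adjK n a κ adj) (SC n a κ C W X)

/-- the set function of the sites of `C` -/
def FC (n a : ℕ) (adj : ℕ → ℕ → Bool) (κ : ℕ) (C W : Finset ℕ) (X : Finset (Fin C.card)) : ℤ :=
  (cnC n a adj κ C W (toN X) : ℤ)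

/-- the estimate: exact if `W` has no vertex of `C`; `tot / den` is the mean of the random values -/
def eC (C W : Finset ℕ) (tot : ℤ) (den : ℕ) : ℕ :=
  if W ∩ C = ∅ then W.card else ((W.card : ℤ) - C.card + tot / den).toNat

/-- The nodes are pairs of a level and a set of numbers `< n + n`; the number `n + v` is the dummy of
the vertex `v`. At the level `i` the site number `i` is decided: it is removed, alone or with its
neighbours. If it is not there (it was removed as a neighbour) its dummy is removed. -/
def chC (n : ℕ) (C : Finset ℕ) (adj : ℕ → ℕ → Bool) (X : ℕ × Finset ℕ) (b : Bool) :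
    ℕ × Finset ℕ :=
  (X.1 + 1, X.2.filter fun u => if cs n C X.1 ∈ X.2 then
    u ≠ cs n C X.1 ∧ (b = true → adj (cs n C X.1) u = false) else u ≠ n + cs n C X.1)

/-- the hypotheses on the graph and the cover -/
structure Cov (n a : ℕ) (adj : ℕ → ℕ → Bool) (C : Finset ℕ) : Prop where
  han : a ≤ n
  symm : ∀ u v, adj u v = adj v u
  bip : ∀ u v, adj u v = true → (u < a ↔ ¬ v < a)
  lt : ∀ u v, adj u v = true → u < n
  sub : C ⊆ range n
  cov : ∀ u v, adj u v = true → u ∈ C ∨ v ∈ C

end Pool.Agent.Lib.SubBisC
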