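import Pool.Agent.Lib.SubBisX.PadTime
import Pool.Agent.Lib.Pa7c826.Decode
import Mathlib.Combinatorics.SimpleGraph.VertexCover

/-!
Randomised approximation of the number of independent sets of bipartite graphs, with error bounds
and run times that depend on the graph, for instance on its vertex cover number.
-/

set_option autoImplicit false

namespace Pool.Agent.Lib.SubBisC

open Pool.Agent.Lib.Pa7c826 Pool.Agent.Lib.PolyTime Pool.Agent.Lib.SubBisX

/-- The vertex cover number of a bipartite graph, which is its matching number (Kőnig). -/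
noncomputable def coverNum (G : BGraph) : ℕ := G.graph.vertexCoverNum.toNat

/-- Randomised approximation of the number of independent sets of all bipartite graphs up to a
factor `2 ^ (e G t)`: there are a polynomial `m` and a machine that on input `(G, 1^t)` with `t ≥ 1`,
followed by a string of `m(length)` random bits, runs in polynomial time and outputs, for at least
three quarters of these strings, a number correct up to a factor `2 ^ (e G t)`. -/
def RSchemeG (e : BGraph → ℕ → ℝ) : Prop :=
  ∃ (m : Polynomial ℕ) (f : BGraph → ℕ → List Bool → List Bool),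
    Nonempty (Turing.TM2ComputableInPolyTime
      (α := {x : BGraph × ℕ × List Bool //
        1 ≤ x.2.1 ∧ x.2.2.length = m.eval (inCode x.1 x.2.1).length})
      (αΓ := Bool) (βΓ := Bool) (fun x => inCode x.1.1 x.1.2.1 ++ x.1.2.2) id
      (fun x => f x.1.1 x.1.2.1 x.1.2.2)) ∧
    ∀ G t, 1 ≤ t →
      3 * 2 ^ m.eval (inCode G t).length ≤
        4 * Nat.card {r : Fin (m.eval (inCode G t).length) → Bool //
          LogGood G (e G t) (f G t (List.ofFn r))}

/-- Randomised approximation of the number of independent sets of all bipartite graphs `G` in time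
polynomial in `τ(G)`, the size of `G` and `t`: there are a polynomial `m` and a machine that on input
`1^s 0`, `(G, 1^t)` with `s ≥ τ(G)` and `t ≥ 1`, followed by `m(length)` random bits, runs in
polynomial time and outputs, for at least three quarters of the strings of random bits, a number
within a factor `1 ± 1 / t` of the number of independent sets of `G`. -/
def HasRTimeG (τ : BGraph → ℝ) : Prop :=
  ∃ (m : Polynomial ℕ) (f : BGraph → ℕ → ℕ → List Bool → List Bool),
    Nonempty (Turing.TM2ComputableInPolyTime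
      (α := {x : BGraph × ℕ × ℕ × List Bool //
        τ x.1 ≤ x.2.1 ∧ 1 ≤ x.2.2.1 ∧
          x.2.2.2.length = m.eval (padCode x.1 x.2.1 x.2.2.1).length})
      (αΓ := Bool) (βΓ := Bool) (fun x => padCode x.1.1 x.1.2.1 x.1.2.2.1 ++ x.1.2.2.2) id
      (fun x => f x.1.1 x.1.2.1 x.1.2.2.1 x.1.2.2.2)) ∧
    ∀ G (s t : ℕ), τ G ≤ s → 1 ≤ t →
      3 * 2 ^ m.eval (padCode G s t).length ≤
        4 * Nat.card {r : Fin (m.eval (padCode G s t).length) → Bool //
          Good G t (f G s t (List.ofFn r))}

theorem hasRTime_iff (τ : ℕ → ℝ) : HasRTime τ ↔ HasRTimeG fun G => τ (G.a + G.b) := Iff.rfl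

theorem rScheme_iff (e : ℕ → ℕ → ℝ) : RScheme e ↔ RSchemeG fun G t => e (G.a + G.b) t := Iff.rfl

theorem hasRTimeG_of {τ : BGraph → ℝ}
    (h : Pa7c826m.HasRApx fun G t => τ G ≤ t) : HasRTimeG τ := by
  obtain ⟨m, f, hf, hgood⟩ := h
  let M : BGraph → ℕ → ℕ → ℕ := fun G s t => m.eval (inCode G (max s t)).length
  have hM : ∀ G s t, M G s t ≤ m.eval (padCode G s t).length := by
    intro G s t
    refine eval_mono _ ?_
    rw [padCode_length, inCode_length, inCode_length]
    omega
  have hτ : ∀ (G : BGraph) (s t : ℕ), τ G ≤ s → τ G ≤ (max s t : ℕ) := by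
    intro G s t hs
    refine hs.trans ?_
    exact_mod_cast le_max_left s t
  refine ⟨m, fun G s t r => f G (max s t) (r.take (M G s t)), ?_, ?_⟩
  · -- the machine
    let D : BGraph × ℕ × ℕ × List Bool → Prop := fun x =>
      τ x.1 ≤ x.2.1 ∧ 1 ≤ x.2.2.1 ∧
        x.2.2.2.length = m.eval (padCode x.1 x.2.1 x.2.2.1).length
    let enc : BGraph × ℕ × ℕ × List Bool → List Bool := fun x =>
      padCode x.1 x.2.1 x.2.2.1 ++ x.2.2.2
    have hw : PolyC D [enc] enc := PolyC.var (by simp)
    have henc : ∀ x, enc x = un x.2.1 ++ false :: (inCode x.1 x.2.2.1 ++ x.2.2.2) := by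
      intro x
      show padCode x.1 x.2.1 x.2.2.1 ++ x.2.2.2 = _
      rw [padCode_eq, List.append_assoc, List.cons_append]
    have hs : PolyN D [enc] (fun x => x.2.1) :=
      (poly_tOf hw).congr (fun x _ => by rw [henc, tOf, takeWhile_un, un_length])
    have hv : PolyC D [enc] (fun x => inCode x.1 x.2.2.1 ++ x.2.2.2) :=
      hw.afterTrue.congr (fun x _ => by rw [henc, afterTrue_un])
    have ht : PolyN D [enc] (fun x => x.2.2.1) :=
      (poly_tOf hv).congr (fun x _ => tOf_append x.1 x.2.2.1 x.2.2.2)
    have hlen : PolyN D [enc] (fun x => (inCode x.1 x.2.2.1).length) :=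
      (((poly_tOf hv).add ((poly_aOf hv).add ((poly_bOf hv).add
        ((poly_aOf hv).mul (poly_bOf hv))))).add (PolyN.const 3)).congr (fun x _ =>
          lenOf_append x.1 x.2.2.1 x.2.2.2)
    have hpre : PolyC D [enc] (fun x => inCode x.1 x.2.2.1) :=
      (PolyC.take hv hlen).congr (fun x _ => List.take_left)
    have hsuf : PolyC D [enc] (fun x => x.2.2.2) :=
      (PolyC.drop hv hlen).congr (fun x _ => List.drop_left)
    have hcode : PolyC D [enc] (fun x => inCode x.1 (max x.2.1 x.2.2.1)) :=
      (PolyC.append (hs.add (PolyN.sub ht hs)) (PolyC.cons false hpre.afterTrue)).congr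
        (fun x _ => (inCode_max x.1 x.2.1 x.2.2.1).symm)
    have hM' : PolyN D [enc] (fun x => M x.1 x.2.1 x.2.2.1) :=
      PolyN.polyEval (PolyN.length hcode) m
    have hin : PolyC D [enc] (fun x => inCode x.1 (max x.2.1 x.2.2.1) ++
        x.2.2.2.take (M x.1 x.2.1 x.2.2.1)) := hcode.append (PolyC.take hsuf hM')
    have hcall : PolyC D [enc] (fun x => f x.1 (max x.2.1 x.2.2.1)
        (x.2.2.2.take (M x.1 x.2.1 x.2.2.1))) := by
      refine PolyC.applyTM2 hf _ _ hin ?_
      rintro ⟨G, s, t, r⟩ ⟨h1, h2, h3⟩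
      refine ⟨⟨(G, max s t, r.take (M G s t)), hτ G s t h1, ?_, ?_⟩, rfl, rfl⟩
      · have h2' : 1 ≤ t := h2
        show 1 ≤ max s t
        omega
      · show (r.take (M G s t)).length = M G s t
        have h3' : r.length = m.eval (padCode G s t).length := h3
        rw [List.length_take, h3', min_eq_left (hM G s t)]
    exact PolyC.toTM2 enc (fun x => f x.1 (max x.2.1 x.2.2.1)
      (x.2.2.2.take (M x.1 x.2.1 x.2.2.1))) id hcall
  · intro G s t hs ht
    obtain ⟨j, hj⟩ := Nat.exists_eq_add_of_le (hM G s t)
    rw [hj]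
    have h3 := hgood G (max s t) (hτ G s t hs) (le_max_of_le_right ht)
    have h4 : Nat.card {r : Fin (M G s t + j) → Bool //
        Good G (max s t) (f G (max s t) ((List.ofFn r).take (M G s t)))} ≤
        Nat.card {r : Fin (M G s t + j) → Bool //
          Good G t (f G (max s t) ((List.ofFn r).take (M G s t)))} := by
      refine Nat.card_le_card_of_injective (fun r => ⟨r.1, ?_⟩) ?_
      · exact Good.mono ht (le_max_right s t) r.2
      · intro r r' hrr
        simp only [Subtype.mk.injEq] at hrr
        exact Subtype.ext hrr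
    rw [card_prefix (M G s t) j (fun l => Good G (max s t) (f G (max s t) l))] at h4
    have h5 : 3 * 2 ^ M G s t ≤ 4 * Nat.card {r : Fin (M G s t) → Bool //
        Good G (max s t) (f G (max s t) (List.ofFn r))} := h3
    calc 3 * 2 ^ (M G s t + j) = (3 * 2 ^ M G s t) * 2 ^ j := by rw [pow_add]; ring
      _ ≤ (4 * Nat.card {r : Fin (M G s t) → Bool //
        Good G (max s t) (f G (max s t) (List.ofFn r))}) * 2 ^ j :=
          Nat.mul_le_mul_right _ h5
      _ = 4 * (Nat.card {r : Fin (M G s t) → Bool //
        Good G (max s t) (f G (max s t) (List.ofFn r))} * 2 ^ j) := by ring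
      _ ≤ _ := Nat.mul_le_mul_left _ h4

/-! ### Vertex covers -/

/-- A minimum vertex cover, in the numbering of the machine. -/
theorem exists_cover (G : BGraph) (t : ℕ) : ∃ K : Finset ℕ, K ⊆ Finset.range (G.a + G.b) ∧
    (∀ u v, adjOf (inCode G t) u v = true → u ∈ K ∨ v ∈ K) ∧ K.card = coverNum G := by
  classical
  obtain ⟨S, hS, hcov⟩ := SimpleGraph.vertexCoverNum_exists G.graph
  refine ⟨(Finset.univ.filter fun x => x ∈ S).image (num G), ?_, ?_, ?_⟩
  · intro u hu
    rw [Finset.mem_image] at hu
    obtain ⟨x, -, rfl⟩ := hu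
    exact Finset.mem_range.2 ((num_range G _).2 ⟨x, rfl⟩)
  · intro u v huv
    have h1 := huv
    have hu : u < G.a + G.b ∧ v < G.a + G.b := by
      unfold adjOf at h1
      rw [aOf_inCode, bOf_inCode] at h1
      simp only [Bool.or_eq_true, Bool.and_eq_true, decide_eq_true_eq] at h1
      omega
    obtain ⟨x, rfl⟩ := (num_range G u).1 hu.1
    obtain ⟨y, rfl⟩ := (num_range G v).1 hu.2
    rw [adjOf_num] at huv
    rcases hcov huv with h | h
    · exact Or.inl (Finset.mem_image.2 ⟨x, by simpa using h, rfl⟩)
    · exact Or.inr (Finset.mem_image.2 ⟨y, by simpa using h, rfl⟩)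
  · rw [Finset.card_image_of_injective _ (num_injective G)]
    unfold coverNum
    rw [← hS, Set.encard_eq_coe_toFinset_card, ENat.toNat_natCast]
    congr 1
    ext x
    simp

end Pool.Agent.Lib.SubBisC
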