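import Pool.Agent.Lib.SubBisB.ParBNum
import Pool.Agent.Lib.P7sG.FinalS

/-!
The parameters of the approximation scheme in terms of the size `k` of a vertex cover.
-/

set_option autoImplicit false

namespace Pool.Agent.Lib.SubBisC

open Finset Pool.Agent.Lib.SubBisX Pool.Agent.Lib.P7sG
open Pool.Agent.Lib.SubBisB.ParB (qB tbB tbB_qB)

/-- `x / log x` grows -/
theorem mul_log_le {x y : ℝ} (hx : 4 ≤ x) (hxy : x ≤ y) :
    x * Real.logb 2 y ≤ y * Real.logb 2 x := by
  have he : Real.exp 1 ≤ x := by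
    have := Real.exp_one_lt_d9
    linarith
  have h := Real.log_div_self_antitoneOn (a := x) (b := y) he (he.trans hxy) hxy
  simp only at h
  have hx0 : 0 < x := by linarith
  have hy0 : 0 < y := by linarith
  rw [div_le_div_iff₀ hy0 hx0] at h
  unfold Real.logb
  rw [← mul_div_assoc, ← mul_div_assoc]
  refine div_le_div_of_nonneg_right ?_ (Real.log_pos (by norm_num)).le
  linarith

theorem logb_two_pow (m : ℕ) : Real.logb 2 ((2 : ℝ) ^ m) = m := by
  rw [Real.logb_pow, Real.logb_self_eq_one (by norm_num), mul_one]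

/-- the constant in the exponent -/
def cE : ℝ := 2 ^ 24

theorem par_S {k t : ℕ} (hk : 1 ≤ k) (ht : 1 ≤ t)
    (h : (2 : ℝ) ^ (cE * Real.sqrt k * Real.logb 2 ((k : ℝ) + 1)) ≤ t) :
    1 ≤ qB t ∧ tbB (qB t) ≤ t ∧ (400 : ℝ) * k ≤ qB t * Real.logb 2 t ∧
      (400 : ℝ) ≤ Real.logb 2 t ∧ (k : ℝ) ≤ t := by
  have hk1 : (1 : ℝ) ≤ k := by exact_mod_cast hk
  have ht0 : (0 : ℝ) < t := by exact_mod_cast ht
  set s := Real.sqrt k with hs
  set u := Real.logb 2 ((k : ℝ) + 1) with hu
  have hs1 : 1 ≤ s := by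
    rw [hs]
    exact Real.one_le_sqrt.2 hk1
  have hss : s * s = k := Real.mul_self_sqrt (by linarith)
  have hu1 : 1 ≤ u := by
    rw [hu, Real.le_logb_iff_rpow_le one_lt_two (by linarith), Real.rpow_one]
    linarith
  have hL : cE * s * u ≤ Real.logb 2 t := by
    rw [Real.le_logb_iff_rpow_le one_lt_two ht0]
    exact h
  set L := Real.logb 2 (t : ℝ) with hLd
  have hc0 : (0 : ℝ) < cE := by
    unfold cE
    norm_num
  set x0 := cE * s * u with hx0
  have hsu : 1 ≤ s * u := by nlinarith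
  have hx0c : cE ≤ x0 := by
    rw [hx0, mul_assoc]
    nlinarith
  have hcv : cE = 2 ^ 24 := rfl
  have hx0p : (16777216 : ℝ) ≤ x0 := by
    refine le_trans ?_ hx0c
    rw [hcv]
    norm_num
  obtain ⟨hL2, hl1, hmain⟩ := Pool.Agent.Lib.SubBisB.ParB.main t ht
  set L' := Real.logb 2 ((t : ℝ) + 4) with hL'
  set l := Real.logb 2 L' with hl
  set q := (qB t : ℝ) with hq
  have hLL' : L ≤ L' := Real.logb_le_logb_of_le one_lt_two ht0 (by linarith)
  have hL'3 : L' ≤ L + 3 := by
    have h6 : L' ≤ Real.logb 2 ((t : ℝ) * 2 ^ 3) := by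
      rw [hL']
      have ht1 : (1 : ℝ) ≤ t := by exact_mod_cast ht
      exact Real.logb_le_logb_of_le one_lt_two (by positivity) (by linarith)
    rw [Real.logb_mul (by positivity) (by norm_num), Real.logb_pow,
      Real.logb_self_eq_one one_lt_two] at h6
    norm_num at h6
    exact h6
  have hL'x : x0 ≤ L' := hL.trans hLL'
  -- `l ≤ 24 L' / 2 ^ 24`
  have hl24 : 16777216 * l ≤ 24 * L' := by
    have h1 := mul_log_le (x := (2 : ℝ) ^ 24) (y := L') (by norm_num) (by
      refine le_trans ?_ hL'x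
      refine le_trans (le_of_eq ?_) hx0p
      norm_num)
    rw [logb_two_pow] at h1
    push_cast at h1
    norm_num at h1
    linarith
  -- `l ^ 2` is small
  have hlsq : 12966 * l ^ 2 ≤ L' := by
    -- with `y = √L'`
    have hL'0 : 0 < L' := by linarith
    set y := Real.sqrt L' with hy
    have hyy : y * y = L' := Real.mul_self_sqrt hL'0.le
    have hy4 : (4096 : ℝ) ≤ y := by
      rw [hy, Real.le_sqrt (by norm_num) hL'0.le]
      norm_num
      linarith
    have h1 := mul_log_le (x := (2 : ℝ) ^ 12) (y := y) (by norm_num) (by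
      refine le_trans (le_of_eq ?_) hy4
      norm_num)
    rw [logb_two_pow] at h1
    have h2 : l = 2 * Real.logb 2 y := by
      rw [hl, ← hyy, Real.logb_mul (by positivity) (by positivity)]
      ring
    have h3 : Real.logb 2 y = l / 2 := by rw [h2]; ring
    rw [h3] at h1
    norm_num at h1
    -- `2048 l ≤ 12 y`
    have h4 : 2048 * l ≤ 12 * y := by linarith
    have hl0 : 0 ≤ l := by linarith
    have h5 : (2048 * l) ^ 2 ≤ (12 * y) ^ 2 := pow_le_pow_left₀ (by positivity) h4 2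
    have h6 : (12 * y) ^ 2 = 144 * L' := by
      rw [mul_pow, sq y, hyy]
      norm_num
    rw [h6] at h5
    nlinarith
  have hl0 : (0 : ℝ) < l := by linarith
  have hL'0 : (0 : ℝ) < L' := by linarith
  have hq1 : 1 ≤ qB t := by
    by_contra hcon
    have h0 : qB t = 0 := by omega
    have h1 : q = 0 := by
      rw [hq, h0]
      norm_num
    rw [h1] at hmain
    nlinarith [sq_nonneg l]
  have hqr : (1 : ℝ) ≤ q := by
    rw [hq]
    exact_mod_cast hq1
  have hqL : L' ≤ 12966 * q * l ^ 2 := by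
    have h1 : 6483 * (q + 1) * l ^ 2 ≤ 6483 * (2 * q) * l ^ 2 :=
      mul_le_mul_of_nonneg_right (by linarith) (sq_nonneg l)
    linarith
  -- `s l ≤ L' / 3744`
  have hsl : 3744 * (s * l) ≤ L' := by
    have h1 := mul_log_le (x := x0) (y := L') (by linarith) hL'x
    -- `log x0 ≤ 24 + 3 / 2 u`
    have h2 : Real.logb 2 x0 ≤ 26 * u := by
      have e1 : Real.logb 2 x0 = 24 + Real.logb 2 s + Real.logb 2 u := by
        rw [hx0, Real.logb_mul (by positivity) (by positivity),
          Real.logb_mul (by positivity) (by positivity), hcv, logb_two_pow]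
        norm_num
      have e2 : Real.logb 2 s ≤ u := by
        rw [hu]
        refine Real.logb_le_logb_of_le one_lt_two (by linarith) ?_
        nlinarith
      have e3 : Real.logb 2 u ≤ u := by
        rw [Real.logb_le_iff_le_rpow one_lt_two (by linarith)]
        have := Real.rpow_le_rpow_of_exponent_le (one_lt_two (α := ℝ)).le
          (show (u : ℝ) ≤ u from le_rfl)
        -- `u ≤ 2 ^ u`
        have h3 : 1 + u * Real.log 2 ≤ Real.exp (u * Real.log 2) := by
          have := Real.add_one_le_exp (u * Real.log 2)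
          linarith
        have h4 : Real.exp (u * Real.log 2) = (2 : ℝ) ^ u := by
          rw [Real.rpow_def_of_pos (by norm_num), mul_comm]
        have h5 : Real.exp (u * Real.log 2) ≥ u := by
          have h6 := Real.quadratic_le_exp_of_nonneg (x := u * Real.log 2)
            (mul_nonneg (by linarith) (Real.log_nonneg (by norm_num)))
          have h7 := Real.log_two_gt_d9
          nlinarith [sq_nonneg (u * Real.log 2 - 1), sq_nonneg (u - 2)]
        rw [← h4]
        exact h5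
      rw [e1]
      linarith
    -- `x0 l ≤ L' 26 u`, so `cE s l ≤ 26 L'`
    have h3 : x0 * l ≤ L' * (26 * u) :=
      h1.trans (mul_le_mul_of_nonneg_left h2 hL'0.le)
    have h4 : cE * (s * l) * u ≤ (26 * L') * u := by
      calc cE * (s * l) * u = x0 * l := by rw [hx0]; ring
        _ ≤ L' * (26 * u) := h3
        _ = (26 * L') * u := by ring
    have h5 : cE * (s * l) ≤ 26 * L' := le_of_mul_le_mul_right h4 (by linarith)
    rw [hcv] at h5
    have h6 : 0 ≤ s * l := by positivity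
    nlinarith
  have hmul : (400 : ℝ) * k ≤ q * L := by
    -- `3744 ^ 2 k l ^ 2 ≤ L' ^ 2 ≤ 12966 q l ^ 2 L'`
    have h1 : (3744 * (s * l)) ^ 2 ≤ L' ^ 2 := pow_le_pow_left₀ (by positivity) hsl 2
    have h2 : (3744 * (s * l)) ^ 2 = 14017536 * k * l ^ 2 := by
      rw [← hss]
      ring
    have h3 : L' ^ 2 ≤ 12966 * q * l ^ 2 * L' := by
      rw [sq]
      exact mul_le_mul_of_nonneg_right hqL hL'0.le
    have h4 : 14017536 * k * l ^ 2 ≤ 12966 * q * L' * l ^ 2 := by
      calc 14017536 * k * l ^ 2 = (3744 * (s * l)) ^ 2 := h2.symm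
        _ ≤ 12966 * q * l ^ 2 * L' := h1.trans h3
        _ = 12966 * q * L' * l ^ 2 := by ring
    have h5 : 14017536 * (k : ℝ) ≤ 12966 * q * L' := le_of_mul_le_mul_right h4 (by positivity)
    have h6 : L' ≤ 2 * L := by linarith
    have h7 : q * L' ≤ q * (2 * L) := mul_le_mul_of_nonneg_left h6 (by linarith)
    nlinarith
  have hq400 : (400 : ℝ) ≤ L := by linarith
  refine ⟨hq1, tbB_qB hq1, hmul, hq400, ?_⟩
  -- `k ≤ t`
  have h1 : (2 : ℝ) ^ u = k + 1 := Real.rpow_logb (by norm_num) (by norm_num) (by linarith)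
  have h2 : (2 : ℝ) ^ u ≤ (2 : ℝ) ^ x0 := by
    refine Real.rpow_le_rpow_of_exponent_le (by norm_num) ?_
    rw [hx0, hcv]
    nlinarith
  linarith

/-- the numbers of particles -/
theorem params {k t q : ℕ} (hq : 1 ≤ q) (ht : 1 ≤ t)
    (h : k = 0 ∨ ((400 : ℝ) * k ≤ q * Real.logb 2 t ∧ (400 : ℝ) ≤ Real.logb 2 t ∧ (k : ℝ) ≤ t)) :
    8 * (k * ((2 : ℝ) ^ ((8 : ℝ) * k / q + 1)) ^ 2 * (t : ℝ) ^ 2) ≤ ((2 ^ kapS t : ℕ) : ℝ) ∧
    2 * ((2 : ℝ) ^ ((8 : ℝ) * k / q + 1)) ^ 2 * ((2 ^ kapS t : ℕ) : ℝ) ≤ (capS t : ℝ) := by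
  have hq0 : (0 : ℝ) < q := by exact_mod_cast hq
  have ht0 : (0 : ℝ) < t := by exact_mod_cast ht
  have hcap : (capS t : ℝ) = (2 ^ lg t : ℝ) * 8 * ((2 ^ kapS t : ℕ) : ℝ) := by
    unfold capS kapS
    push_cast
    rw [show 5 * lg t + 3 = lg t + 3 + 4 * lg t by ring, pow_add, pow_add]
    norm_num
  have hlg : (t : ℝ) ≤ 2 ^ lg t := by exact_mod_cast (lt_two_pow_lg t).le
  have hlg1 : (1 : ℝ) ≤ 2 ^ lg t := one_le_pow₀ (by norm_num)
  have hK0 : (0 : ℝ) ≤ ((2 ^ kapS t : ℕ) : ℝ) := Nat.cast_nonneg _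
  have hK4 : (t : ℝ) ^ 4 ≤ ((2 ^ kapS t : ℕ) : ℝ) := by
    unfold kapS
    push_cast
    rw [mul_comm 4, pow_mul]
    exact pow_le_pow_left₀ ht0.le hlg 4
  rcases h with h | ⟨h2, h3, h6⟩
  · subst h
    constructor
    · simp only [Nat.cast_zero, zero_mul, mul_zero]
      exact hK0
    · rw [hcap]
      refine mul_le_mul_of_nonneg_right ?_ hK0
      simp only [Nat.cast_zero, mul_zero, zero_div, zero_add, Real.rpow_one]
      nlinarith
  · -- the power
    have e1 : ((2 : ℝ) ^ ((8 : ℝ) * k / q + 1)) ^ 2 = 4 * (2 : ℝ) ^ ((16 : ℝ) * k / q) := by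
      rw [← Real.rpow_natCast, ← Real.rpow_mul (by norm_num)]
      have : ((8 : ℝ) * k / q + 1) * ((2 : ℕ) : ℝ) = 2 + (16 : ℝ) * k / q := by
        push_cast
        ring
      rw [this, Real.rpow_add (by norm_num)]
      norm_num
    have h4 : (32 : ℝ) * (2 : ℝ) ^ ((16 : ℝ) * k / q) ≤ t := by
      have h5 : (16 : ℝ) * k / q ≤ Real.logb 2 t / 25 := by
        rw [div_le_iff₀ hq0]
        linarith
      have h6 : (32 : ℝ) * (2 : ℝ) ^ ((16 : ℝ) * k / q) = (2 : ℝ) ^ (5 + (16 : ℝ) * k / q) := by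
        rw [Real.rpow_add (by norm_num)]
        norm_num
      rw [h6]
      calc (2 : ℝ) ^ (5 + (16 : ℝ) * k / q) ≤ 2 ^ Real.logb 2 t :=
            Real.rpow_le_rpow_of_exponent_le (by norm_num) (by linarith)
        _ = t := Real.rpow_logb (by norm_num) (by norm_num) ht0
    have h5 : (0 : ℝ) ≤ (2 : ℝ) ^ ((16 : ℝ) * k / q) := by positivity
    rw [e1]
    constructor
    · refine le_trans ?_ hK4
      have h7 : (0 : ℝ) ≤ (k : ℝ) := Nat.cast_nonneg _
      calc 8 * ((k : ℝ) * (4 * (2 : ℝ) ^ ((16 : ℝ) * k / q)) * (t : ℝ) ^ 2) =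
            (k : ℝ) * (32 * (2 : ℝ) ^ ((16 : ℝ) * k / q)) * (t : ℝ) ^ 2 := by ring
        _ ≤ (t : ℝ) * t * (t : ℝ) ^ 2 := by
            refine mul_le_mul_of_nonneg_right ?_ (by positivity)
            exact mul_le_mul h6 h4 (by positivity) ht0.le
        _ = (t : ℝ) ^ 4 := by ring
    · rw [hcap]
      refine mul_le_mul_of_nonneg_right ?_ hK0
      nlinarith

end Pool.Agent.Lib.SubBisC
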