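import Pool.Agent.Lib.SubBisC.CNu
import Pool.Agent.Lib.SubBisX.NuSum
import Pool.Agent.Lib.SubBisX.Bounds

/-!
The partition function of the set function of the sites of a vertex cover and the number of
independent subsets of `W`.
-/

set_option autoImplicit false

namespace Pool.Agent.Lib.SubBisC

open Finset Pool.Agent.Lib.Pa7c826 Pool.Agent.Lib.Pa7c826t Pool.Agent.Lib.SubBisX
open Pool.Agent.Lib.SubBisX.Node

variable {n a κ : ℕ} {adj : ℕ → ℕ → Bool} {C : Finset ℕ}

theorem card_inter_add (C W : Finset ℕ) : (C ∩ W).card + (W \ C).card = W.card := by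
  rw [inter_comm]
  exact card_inter_add_card_sdiff W C

/-! ### The number of independent sets -/

/-- the independent subsets of `C ∩ W` -/
def indS (adj : ℕ → ℕ → Bool) (C W : Finset ℕ) : Finset (Finset ℕ) :=
  (C ∩ W).powerset.filter fun T => ∀ u ∈ T, ∀ v ∈ T, adj u v = false

theorem mem_indS {W T : Finset ℕ} : T ∈ indS adj C W ↔
    T ⊆ C ∩ W ∧ ∀ u ∈ T, ∀ v ∈ T, adj u v = false := by
  unfold indS
  rw [mem_filter, mem_powerset]

/-- the number of independent sets as a sum over the sets of sites -/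
theorem ind_eq_sum (h : Cov n a adj C) (W : Finset ℕ) :
    ind adj W = ∑ T ∈ indS adj C W, 2 ^ ((W \ C).card - (bl adj C W T).card) := by
  classical
  have h1 : ∀ T ∈ indS adj C W, 2 ^ ((W \ C).card - (bl adj C W T).card) =
      (((W \ C) \ bl adj C W T).powerset).card := by
    intro T _
    have h2 : bl adj C W T ⊆ W \ C := fun u hu => mem_sdiff.2 (mem_bl.1 hu).1
    rw [card_powerset, card_sdiff_of_subset h2]
  rw [sum_congr rfl h1, ← card_sigma]
  unfold ind
  refine card_bij' (fun I _ => ⟨I ∩ C, I \ C⟩) (fun p _ => p.1 ∪ p.2) ?_ ?_ ?_ ?_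
  · intro I hI
    obtain ⟨hI1, hI2⟩ := mem_filter.1 hI
    have hI1' := mem_powerset.1 hI1
    rw [mem_sigma]
    refine ⟨mem_indS.2 ⟨fun v hv => ?_, fun u hu v hv => ?_⟩, mem_powerset.2 ?_⟩
    · have := mem_inter.1 hv
      exact mem_inter.2 ⟨this.2, hI1' this.1⟩
    · exact hI2 u (mem_inter.1 hu).1 v (mem_inter.1 hv).1
    · intro u hu
      obtain ⟨hu1, hu2⟩ := mem_sdiff.1 hu
      rw [mem_sdiff]
      refine ⟨mem_sdiff.2 ⟨hI1' hu1, hu2⟩, fun h => ?_⟩
      obtain ⟨-, v, hv, hvu⟩ := mem_bl.1 h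
      rw [hI2 v (mem_inter.1 hv).1 u hu1] at hvu
      exact absurd hvu (by simp)
  · rintro ⟨T, E⟩ hp
    obtain ⟨hT, hE⟩ := mem_sigma.1 hp
    have hT' := mem_indS.1 hT
    have hE' := mem_powerset.1 hE
    simp only at hT' hE' ⊢
    rw [mem_filter, mem_powerset]
    have key : ∀ u ∈ T, ∀ v ∈ E, adj u v = false := by
      intro u hu v hv
      by_contra hcon
      rw [Bool.not_eq_false] at hcon
      have h2 := mem_sdiff.1 (hE' hv)
      have h3 := mem_sdiff.1 h2.1
      exact h2.2 (mem_bl.2 ⟨h3, u, hu, hcon⟩)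
    refine ⟨union_subset (hT'.1.trans inter_subset_right)
      ((hE'.trans sdiff_subset).trans sdiff_subset), ?_⟩
    intro u hu v hv
    rcases mem_union.1 hu with hu1 | hu1 <;> rcases mem_union.1 hv with hv1 | hv1
    · exact hT'.2 u hu1 v hv1
    · exact key u hu1 v hv1
    · rw [h.symm]
      exact key v hv1 u hu1
    · by_contra hcon
      rw [Bool.not_eq_false] at hcon
      have h2 := (mem_sdiff.1 (mem_sdiff.1 (hE' hu1)).1).2
      have h3 := (mem_sdiff.1 (mem_sdiff.1 (hE' hv1)).1).2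
      rcases h.cov u v hcon with h4 | h4
      · exact h2 h4
      · exact h3 h4
  · intro I _
    simp only
    ext v
    rw [mem_union, mem_inter, mem_sdiff]
    tauto
  · rintro ⟨T, E⟩ hp
    obtain ⟨hT, hE⟩ := mem_sigma.1 hp
    have hT' := (mem_indS.1 hT).1
    have hE' := mem_powerset.1 hE
    simp only at hT' hE' ⊢
    have g1 : ∀ v ∈ T, v ∈ C := fun v hv => (mem_inter.1 (hT' hv)).1
    have g2 : ∀ v ∈ E, v ∉ C := fun v hv => (mem_sdiff.1 (mem_sdiff.1 (hE' hv)).1).2
    have e1 : (T ∪ E) ∩ C = T := by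
      ext v
      rw [mem_inter, mem_union]
      constructor
      · rintro ⟨h1 | h1, h2⟩
        · exact h1
        · exact absurd h2 (g2 v h1)
      · intro h1
        exact ⟨Or.inl h1, g1 v h1⟩
    have e2 : (T ∪ E) \ C = E := by
      ext v
      rw [mem_sdiff, mem_union]
      constructor
      · rintro ⟨h1 | h1, h2⟩
        · exact absurd (g1 v h1) h2
        · exact h1
      · intro h1
        exact ⟨Or.inr h1, g2 v h1⟩
    rw [e1, e2]

theorem bl_card_le (W T : Finset ℕ) : (bl adj C W T).card ≤ (W \ C).card :=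
  card_le_card (filter_subset _ _)

/-- the real form -/
theorem ind_eq_sum_real (h : Cov n a adj C) (W : Finset ℕ) :
    (ind adj W : ℝ) = 2 ^ (W \ C).card *
      ∑ T ∈ indS adj C W, (1 / 2 : ℝ) ^ (bl adj C W T).card := by
  rw [ind_eq_sum h W, mul_sum]
  push_cast
  refine sum_congr rfl fun T _ => ?_
  rw [one_div, inv_pow, ← div_eq_mul_inv, eq_div_iff (by positivity), ← pow_add,
    Nat.sub_add_cancel (bl_card_le W T)]

/-! ### Bounds -/

/-- lower bound -/
theorem sum_bl_le (h : Cov n a adj C) (W : Finset ℕ) :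
    ∑ T ∈ indS adj C W, (1 / 2 : ℝ) ^ (bl adj C W T).card ≤
      ∑ T ∈ (C ∩ W).powerset, (1 / 2 : ℝ) ^ cm n a adj κ C W T := by
  have h1 : ∑ T ∈ indS adj C W, (1 / 2 : ℝ) ^ (bl adj C W T).card ≤
      ∑ T ∈ indS adj C W, (1 / 2 : ℝ) ^ cm n a adj κ C W T :=
    sum_le_sum fun T hT => pow_le_pow_of_le_one (by norm_num) (by norm_num)
      (cm_le h W (mem_indS.1 hT).2)
  exact h1.trans (sum_le_sum_of_subset_of_nonneg (filter_subset _ _)
    fun T _ _ => by positivity)

/-- upper bound -/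
theorem sum_cm_le (h : Cov n a adj C) (hκ : 0 < κ) (W : Finset ℕ) :
    ∑ T ∈ (C ∩ W).powerset, (1 / 2 : ℝ) ^ cm n a adj κ C W T ≤
      (∑ T ∈ indS adj C W, (1 / 2 : ℝ) ^ (bl adj C W T).card) *
        (1 + (1 / 2 : ℝ) ^ κ) ^ (C ∩ W).card := by
  classical
  have hex : ∀ Y : Finset ℕ, Y ⊆ C ∩ W → ∃ T ⊆ Y, (∀ u ∈ T, ∀ v ∈ T, adj u v = false) ∧
      (bl adj C W T).card + κ * (Y \ T).card ≤ cm n a adj κ C W Y := fun Y hY =>
    exists_T h hκ W (hY.trans inter_subset_left)
  choose! T hT1 hT3 hT2 using hex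
  have h0 : ∑ E ∈ (C ∩ W).powerset, ((1 / 2 : ℝ) ^ κ) ^ E.card =
      (1 + (1 / 2 : ℝ) ^ κ) ^ (C ∩ W).card := by
    have h := Finset.prod_one_add (f := fun _ : ℕ => (1 / 2 : ℝ) ^ κ) (C ∩ W)
    rw [prod_const] at h
    rw [h]
    refine sum_congr rfl fun E _ => ?_
    rw [prod_const]
  rw [← h0, sum_mul_sum, ← sum_product']
  have hinj : Set.InjOn (fun Y => (T Y, Y \ T Y)) ((C ∩ W).powerset : Set (Finset ℕ)) := by
    intro I hI I' hI' hh
    have h3 : I ⊆ C ∩ W := mem_powerset.1 (mem_coe.1 hI)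
    have h4 : I' ⊆ C ∩ W := mem_powerset.1 (mem_coe.1 hI')
    have h5 := Prod.mk.inj hh
    have h6 := union_sdiff_of_subset (hT1 I h3)
    have h7 := union_sdiff_of_subset (hT1 I' h4)
    rw [h5.2, h5.1] at h6
    exact h6.symm.trans h7
  have h2 : ∀ Y ∈ (C ∩ W).powerset, (1 / 2 : ℝ) ^ cm n a adj κ C W Y ≤
      (1 / 2 : ℝ) ^ (bl adj C W (T Y)).card * ((1 / 2 : ℝ) ^ κ) ^ (Y \ T Y).card := by
    intro Y hY
    rw [← pow_mul, ← pow_add]
    exact pow_le_pow_of_le_one (by norm_num) (by norm_num) (hT2 Y (mem_powerset.1 hY))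
  refine (sum_le_sum h2).trans ?_
  rw [← sum_image (f := fun p : Finset ℕ × Finset ℕ =>
    (1 / 2 : ℝ) ^ (bl adj C W p.1).card * ((1 / 2 : ℝ) ^ κ) ^ p.2.card) hinj]
  refine sum_le_sum_of_subset_of_nonneg ?_ fun p _ _ => by positivity
  intro p hp
  obtain ⟨Y, hY, rfl⟩ := mem_image.1 hp
  have h3 := mem_powerset.1 hY
  rw [mem_product]
  exact ⟨mem_indS.2 ⟨(hT1 Y h3).trans h3, hT3 Y h3⟩,
    mem_powerset.2 (sdiff_subset.trans h3)⟩

/-! ### The sum over all sets of numbers of sites -/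

/-- the sites with number in `X` -/
def pre (C X : Finset ℕ) : Finset ℕ := C.filter fun v => rk C v ∈ X

theorem sel_eq (a : ℕ) (C W X : Finset ℕ) : sel a C W X = IX a (C ∩ W) (pre C X) := by
  ext v
  unfold sel pre
  rw [mem_filter, mem_IX, mem_filter, mem_inter]
  split_ifs <;> tauto

/-- a sum over the sets of numbers of sites is a sum over the subsets of `C` -/
theorem sum_pre (g : Finset ℕ → ℝ) :
    ∑ X ∈ (range C.card).powerset, g (pre C X) = ∑ Y ∈ C.powerset, g Y := by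
  classical
  refine sum_nbij' (fun X => pre C X) (fun Y => Y.image (rk C)) ?_ ?_ ?_ ?_ ?_
  · intro X _
    exact mem_powerset.2 (filter_subset _ _)
  · intro Y hY
    rw [mem_powerset, ← image_rk]
    exact image_subset_image (mem_powerset.1 hY)
  · intro X hX
    have hX' := mem_powerset.1 hX
    ext i
    rw [mem_image]
    constructor
    · rintro ⟨v, hv, rfl⟩
      exact (mem_filter.1 hv).2
    · intro hi
      obtain ⟨v, hv, rfl⟩ := exists_rk (mem_range.1 (hX' hi))
      exact ⟨v, mem_filter.2 ⟨hv, hi⟩, rfl⟩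
  · intro Y hY
    have hY' := mem_powerset.1 hY
    ext v
    unfold pre
    rw [mem_filter, mem_image]
    constructor
    · rintro ⟨hv, u, hu, huv⟩
      rw [← rk_inj (hY' hu) hv huv]
      exact hu
    · intro hv
      exact ⟨hY' hv, v, hv, rfl⟩
  · intro X _
    rfl

/-- `IX` on the subsets of a set that contains `W` -/
theorem sum_IXC (a : ℕ) {A W : Finset ℕ} (hW : W ⊆ A) (g : Finset ℕ → ℝ) :
    ∑ X ∈ A.powerset, g (IX a W X) = 2 ^ (A.card - W.card) * ∑ I ∈ W.powerset, g I := by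
  have h1 : ∑ X ∈ A.powerset, g (IX a W X) =
      ∑ Y ∈ W.powerset, ∑ X ∈ A.powerset with X ∩ W = Y, g (IX a W X) := by
    rw [sum_fiberwise_of_maps_to]
    intro X _
    rw [mem_powerset]
    exact inter_subset_right
  have h2 : ∀ Y ∈ W.powerset, ∑ X ∈ A.powerset with X ∩ W = Y, g (IX a W X) =
      2 ^ (A.card - W.card) * g (IX a W Y) := by
    intro Y hY
    have hY' := mem_powerset.1 hY
    have h3 : ∀ X ∈ A.powerset.filter (fun X => X ∩ W = Y), g (IX a W X) =
        g (IX a W Y) := by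
      intro X hX
      have h4 := (mem_filter.1 hX).2
      rw [← h4, IX_inter]
    rw [sum_congr rfl h3, sum_const, nsmul_eq_mul]
    congr 1
    have h5 : (A.powerset.filter (fun X => X ∩ W = Y)).card =
        (A \ W).powerset.card := by
      refine card_nbij' (fun X => X \ W) (fun Z => Z ∪ Y) ?_ ?_ ?_ ?_
      · intro X hX
        have h6 := mem_powerset.1 (mem_filter.1 hX).1
        simp only [coe_powerset, Set.mem_preimage, Set.mem_powerset_iff, coe_subset]
        exact sdiff_subset_sdiff h6 subset_rfl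
      · intro Z hZ
        have h6 : Z ⊆ A \ W := mem_powerset.1 (mem_coe.1 hZ)
        simp only [coe_filter, mem_powerset, Set.mem_ofPred_eq]
        refine ⟨union_subset (h6.trans sdiff_subset) (hY'.trans hW), ?_⟩
        ext v
        simp only [mem_inter, mem_union]
        constructor
        · rintro ⟨h7 | h7, h8⟩
          · exact absurd h8 (mem_sdiff.1 (h6 h7)).2
          · exact h7
        · intro h7
          exact ⟨Or.inr h7, hY' h7⟩
      · intro X hX
        have h6 := (mem_filter.1 hX).2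
        simp only
        rw [← h6]
        exact sdiff_union_inter X W
      · intro Z hZ
        have h6 : Z ⊆ A \ W := mem_powerset.1 (mem_coe.1 hZ)
        simp only
        ext v
        simp only [mem_sdiff, mem_union]
        constructor
        · rintro ⟨h7 | h7, h8⟩
          · exact h7
          · exact absurd (hY' h7) h8
        · intro h7
          exact ⟨Or.inl h7, (mem_sdiff.1 (h6 h7)).2⟩
    rw [h5, card_powerset, card_sdiff_of_subset hW]
    push_cast
    rfl
  rw [h1, sum_congr rfl h2, ← mul_sum]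
  congr 1
  refine sum_nbij' (fun Y => IX a W Y) (fun Y => IX a W Y) ?_ ?_ ?_ ?_ ?_
  · intro Y _
    exact mem_powerset.2 (IX_subset a W Y)
  · intro Y _
    exact mem_powerset.2 (IX_subset a W Y)
  · intro Y hY
    exact IX_IX a (mem_powerset.1 hY)
  · intro Y hY
    exact IX_IX a (mem_powerset.1 hY)
  · intro Y _
    rfl

/-- the partition function of `FC` -/
theorem sum_FC (W : Finset ℕ) :
    ∑ S : Finset (Fin C.card), (2 : ℝ) ^ (-(FC n a adj κ C W S : ℝ)) =
      2 ^ (C.card - (C ∩ W).card) * ∑ T ∈ (C ∩ W).powerset, (1 / 2 : ℝ) ^ cm n a adj κ C W T := by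
  rw [← sum_IXC a (inter_subset_left : C ∩ W ⊆ C), ← sum_pre fun Y =>
    (1 / 2 : ℝ) ^ cm n a adj κ C W (IX a (C ∩ W) Y),
    ← sum_toN fun X => (1 / 2 : ℝ) ^ cm n a adj κ C W (IX a (C ∩ W) (pre C X))]
  refine sum_congr rfl fun S _ => ?_
  unfold FC
  rw [cnC_eq_cm, sel_eq, one_div, inv_pow, Real.rpow_neg (by norm_num)]
  congr 1
  rw [← Real.rpow_natCast]
  push_cast
  rfl

/-- `logZ` of `FC` and the number of independent sets -/
theorem logZ_FC (h : Cov n a adj C) (hκ : 0 < κ) (W : Finset ℕ) :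
    ((C.card : ℝ) - W.card) + Real.logb 2 (ind adj W) ≤ Bounds.logZ (FC n a adj κ C W) ∧
      Bounds.logZ (FC n a adj κ C W) ≤ ((C.card : ℝ) - W.card) + Real.logb 2 (ind adj W) +
        C.card * (2 / 2 ^ κ) := by
  have hc : (C ∩ W).card ≤ C.card := card_le_card inter_subset_left
  have hi : (0 : ℝ) < ind adj W := by exact_mod_cast ind_pos (adj := adj) W
  set s := ∑ T ∈ (C ∩ W).powerset, (1 / 2 : ℝ) ^ cm n a adj κ C W T with hsdef
  set s0 := ∑ T ∈ indS adj C W, (1 / 2 : ℝ) ^ (bl adj C W T).card with hs0def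
  have h0 : (ind adj W : ℝ) = 2 ^ (W \ C).card * s0 := ind_eq_sum_real h W
  have h1 : s0 ≤ s := sum_bl_le h W
  have h2 : s ≤ s0 * (1 + (1 / 2 : ℝ) ^ κ) ^ (C ∩ W).card := sum_cm_le h hκ W
  have hs00 : 0 < s0 := by
    rw [h0] at hi
    exact pos_of_mul_pos_right hi (by positivity)
  have hs0 : 0 < s := lt_of_lt_of_le hs00 h1
  have e0 : Real.logb 2 (ind adj W) = (W \ C).card + Real.logb 2 s0 := by
    rw [h0, Real.logb_mul (by positivity) hs00.ne', Real.logb_pow,
      Real.logb_self_eq_one (by norm_num), mul_one]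
  have e1 : Bounds.logZ (FC n a adj κ C W) =
      ((C.card : ℝ) - (C ∩ W).card) + Real.logb 2 s := by
    unfold Bounds.logZ
    rw [sum_FC, Real.logb_mul (by positivity) hs0.ne', Real.logb_pow,
      Real.logb_self_eq_one (by norm_num), mul_one, Nat.cast_sub hc]
  have hlog : Real.logb 2 s ≤ Real.logb 2 s0 + C.card * (2 / 2 ^ κ) := by
    have h3 : Real.logb 2 s ≤ Real.logb 2 (s0 * (1 + (1 / 2 : ℝ) ^ κ) ^ (C ∩ W).card) :=
      Real.logb_le_logb_of_le (by norm_num) hs0 h2
    refine h3.trans ?_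
    rw [Real.logb_mul hs00.ne' (by positivity), Real.logb_pow]
    have h4 : Real.logb 2 (1 + (1 / 2 : ℝ) ^ κ) ≤ 2 / 2 ^ κ := by
      unfold Real.logb
      rw [div_le_iff₀ (Real.log_pos (by norm_num))]
      have h5 : Real.log (1 + (1 / 2 : ℝ) ^ κ) ≤ (1 / 2 : ℝ) ^ κ := by
        have := Real.log_le_sub_one_of_pos (show (0 : ℝ) < 1 + (1 / 2 : ℝ) ^ κ by positivity)
        linarith
      have h6 : (1 / 2 : ℝ) < Real.log 2 := by
        have := Real.log_two_gt_d9
        linarith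
      have h7 : (1 / 2 : ℝ) ^ κ = 1 / 2 ^ κ := by rw [div_pow, one_pow]
      rw [h7] at h5 ⊢
      have h8 : (0 : ℝ) < 1 / 2 ^ κ := by positivity
      calc Real.log (1 + 1 / 2 ^ κ) ≤ 1 / 2 ^ κ := h5
        _ = 2 * (1 / 2 ^ κ) * (1 / 2) := by ring
        _ ≤ 2 * (1 / 2 ^ κ) * Real.log 2 := mul_le_mul_of_nonneg_left h6.le (by positivity)
        _ = 2 / 2 ^ κ * Real.log 2 := by ring
    have h9 : ((C ∩ W).card : ℝ) * Real.logb 2 (1 + (1 / 2 : ℝ) ^ κ) ≤
        C.card * (2 / 2 ^ κ) := by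
      have h10 : (0 : ℝ) ≤ Real.logb 2 (1 + (1 / 2 : ℝ) ^ κ) :=
        Real.logb_nonneg (by norm_num) (by
          have : (0 : ℝ) < (1 / 2 : ℝ) ^ κ := by positivity
          linarith)
      have hcr : ((C ∩ W).card : ℝ) ≤ C.card := by exact_mod_cast hc
      calc ((C ∩ W).card : ℝ) * Real.logb 2 (1 + (1 / 2 : ℝ) ^ κ)
          ≤ C.card * Real.logb 2 (1 + (1 / 2 : ℝ) ^ κ) := mul_le_mul_of_nonneg_right hcr h10
        _ ≤ C.card * (2 / 2 ^ κ) := mul_le_mul_of_nonneg_left h4 (Nat.cast_nonneg _)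
    linarith
  have hlog' : Real.logb 2 s0 ≤ Real.logb 2 s := Real.logb_le_logb_of_le (by norm_num) hs00 h1
  have hcard : (W.card : ℝ) = (C ∩ W).card + (W \ C).card := by
    exact_mod_cast (card_inter_add C W).symm
  rw [e1, e0, hcard]
  constructor <;> linarith

/-! ### The estimate -/

theorem eC_leaf (h : Cov n a adj C) {W : Finset ℕ} (hW : W ∩ C = ∅) (tot : ℤ) (den : ℕ) :
    ind adj W = 2 ^ eC C W tot den := by
  unfold eC
  rw [if_pos hW, ← card_powerset]
  unfold ind
  congr 1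
  rw [filter_eq_self]
  intro I hI u hu v hv
  by_contra hcon
  rw [Bool.not_eq_false] at hcon
  have hI' := mem_powerset.1 hI
  rcases h.cov u v hcon with h1 | h1
  · exact notMem_empty u (hW ▸ mem_inter.2 ⟨hI' hu, h1⟩)
  · exact notMem_empty v (hW ▸ mem_inter.2 ⟨hI' hv, h1⟩)

/-- the error of the estimate -/
theorem eC_err (h : Cov n a adj C) (hκ : 0 < κ) (W : Finset ℕ) {tot : ℤ} {den : ℕ}
    (hden : 0 < den) {δ : ℝ}
    (hd : |(tot : ℝ) / den - Bounds.logZ (FC n a adj κ C W)| ≤ δ) :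
    |(eC C W tot den : ℝ) - Real.logb 2 (ind adj W)| ≤ δ + C.card * (2 / 2 ^ κ) + 1 := by
  have hδ : 0 ≤ δ := (abs_nonneg _).trans hd
  have hx : (0 : ℝ) ≤ C.card * (2 / 2 ^ κ) := by positivity
  by_cases hleaf : W ∩ C = ∅
  · have h1 := eC_leaf h hleaf tot den
    rw [h1]
    push_cast
    rw [Real.logb_pow, Real.logb_self_eq_one (by norm_num), mul_one, sub_self, abs_zero]
    linarith
  · unfold eC
    rw [if_neg hleaf]
    obtain ⟨g1, g2⟩ := logZ_FC (κ := κ) h hκ W
    have hi : (0 : ℝ) ≤ Real.logb 2 (ind adj W) :=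
      Real.logb_nonneg (by norm_num) (by exact_mod_cast ind_pos (adj := adj) W)
    have hd0 : (0 : ℝ) < den := by exact_mod_cast hden
    have hdz : (0 : ℤ) < den := by exact_mod_cast hden
    have f1 : ((tot / den : ℤ) : ℝ) ≤ (tot : ℝ) / den := by
      rw [le_div_iff₀ hd0]
      exact_mod_cast Int.ediv_mul_le tot hdz.ne'
    have f2 : (tot : ℝ) / den < ((tot / den : ℤ) : ℝ) + 1 := by
      rw [div_lt_iff₀ hd0]
      exact_mod_cast Int.lt_ediv_add_one_mul_self tot hdz
    rw [abs_le] at hd ⊢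
    set z : ℤ := (W.card : ℤ) - C.card + tot / den with hz
    have hzr : (z : ℝ) = (W.card : ℝ) - C.card + ((tot / den : ℤ) : ℝ) := by
      rw [hz]
      push_cast
      ring
    have h3 : (z : ℝ) ≤ (z.toNat : ℝ) := by exact_mod_cast Int.self_le_toNat z
    have h4 : (z.toNat : ℝ) = z ∨ (z.toNat : ℝ) = 0 := by
      rcases le_or_gt 0 z with hz0 | hz0
      · left
        exact_mod_cast Int.toNat_of_nonneg hz0
      · right
        rw [Int.toNat_of_nonpos hz0.le]
        simp
    constructor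
    · linarith [hd.1]
    · rcases h4 with h4 | h4
      · rw [h4]
        linarith [hd.2]
      · rw [h4]
        linarith

end Pool.Agent.Lib.SubBisC
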