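import Pool.Agent.Lib.SubBisC.CRank
import Pool.Agent.Lib.SubBisX.System
import Pool.Agent.Lib.P7sG.Defs

/-!
The tree of the decisions on the sites of a vertex cover is a good system in the sense of
`P7sG.Good`, if the estimates are good.
-/

set_option autoImplicit false

namespace Pool.Agent.Lib.SubBisC

open Finset Pool.Agent.Lib.Pa7c826 Pool.Agent.Lib.Pa7c826t Pool.Agent.Lib.SubBisX

/-- the estimates of the subsets of `range N` are within `δ` of the logarithms, and exact without
vertices of `C` -/
def GoodC (N : ℕ) (adj : ℕ → ℕ → Bool) (C : Finset ℕ) (δ : ℝ) (e : Finset ℕ → ℕ) : Prop :=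
  (∀ W ⊆ range N, |(e W : ℝ) - Real.logb 2 (ind adj W)| ≤ δ) ∧
    ∀ W ⊆ range N, W ∩ C = ∅ → ind adj W = 2 ^ e W

/-- valid nodes of level `j` -/
def okC (n : ℕ) (C : Finset ℕ) (j : ℕ) (X : ℕ × Finset ℕ) : Prop :=
  X.1 = j ∧ X.2 ⊆ range (n + n) ∧ (∀ i < C.card, i < j → cs n C i ∉ X.2) ∧
    ∀ i < C.card, j ≤ i → n + cs n C i ∈ X.2

variable {n a : ℕ} {adj : ℕ → ℕ → Bool} {C : Finset ℕ}

theorem okC_root (h : Cov n a adj C) : okC n C 0 (0, range (n + n)) := by
  refine ⟨rfl, Subset.rfl, fun i _ hi => absurd hi (by omega), fun i hi _ => ?_⟩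
  have := cs_lt h.sub hi
  rw [mem_range]
  omega

theorem Cov.adj_ge (h : Cov n a adj C) {u v : ℕ} (hv : n ≤ v) : adj u v = false := by
  by_contra hc
  rw [Bool.not_eq_false] at hc
  rw [h.symm] at hc
  have := h.lt v u hc
  omega

theorem Cov.irrefl (h : Cov n a adj C) (u : ℕ) : adj u u = false := by
  by_contra hc
  rw [Bool.not_eq_false] at hc
  have := h.bip u u hc
  tauto

/-- removing an isolated vertex halves the number of independent sets -/
theorem Cov.ind_isolated (h : Cov n a adj C) {W : Finset ℕ} {x : ℕ} (hx : x ∈ W) (hn : n ≤ x) :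
    ind adj W = 2 * ind adj (W.erase x) := by
  rw [ind_erase h.symm h.irrefl hx]
  have h1 : (W.erase x).filter (fun u => adj x u = false) = W.erase x := by
    rw [filter_eq_self]
    intro u _
    rw [h.symm]
    exact h.adj_ge hn
  rw [h1]
  ring

/-- the dummies double the number of independent sets each -/
theorem Cov.ind_range (h : Cov n a adj C) : ∀ m, ind adj (range (n + m)) =
    2 ^ m * ind adj (range n)
  | 0 => by simp
  | m + 1 => by
    have h1 := h.ind_isolated (W := range (n + (m + 1))) (x := n + m)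
      (mem_range.2 (by omega)) (by omega)
    have h2 : (range (n + (m + 1))).erase (n + m) = range (n + m) := by
      ext u
      rw [mem_erase, mem_range, mem_range]
      omega
    rw [h1, h2, h.ind_range m]
    ring

/-- **Good estimates give a good system.** -/
theorem good_systemC {e : Finset ℕ → ℕ} {δ : ℝ} (h : Cov n a adj C)
    (hg : GoodC (n + n) adj C δ e) {dm : ℕ} (hdm : 2 * n + δ ≤ dm) :
    P7sG.Good (chC n C adj) (fun X => e X.2) (fun X => (ind adj X.2 : ℝ)) (okC n C) C.card dm
      ((2 : ℝ) ^ δ) := by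
  have hpos : ∀ W : Finset ℕ, (0 : ℝ) < ind adj W := fun W => by
    exact_mod_cast ind_pos (adj := adj) W
  refine ⟨fun j X _ => hpos _, ?_, ?_, ?_, ?_, ?_, ?_⟩
  · rintro j ⟨i, W⟩ b hj ⟨h1, h2, h3, h4⟩
    simp only at h1 h2 h3 h4
    subst h1
    have hsub : (chC n C adj (i, W) b).2 ⊆ W := filter_subset _ _
    have hv := cs_lt h.sub hj
    refine ⟨rfl, hsub.trans h2, fun l hl hli hmem => ?_, fun l hl hil => ?_⟩
    · rcases Nat.lt_succ_iff_lt_or_eq.1 hli with h5 | h5
      · exact h3 l hl h5 (hsub hmem)
      · subst h5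
        unfold chC at hmem
        simp only [mem_filter] at hmem
        rw [if_pos hmem.1] at hmem
        exact hmem.2.1 rfl
    · unfold chC
      simp only [mem_filter]
      refine ⟨h4 l hl (by omega), ?_⟩
      split_ifs with h6
      · refine ⟨by omega, fun _ => ?_⟩
        exact h.adj_ge (by omega)
      · intro h7
        have h8 : cs n C l = cs n C i := by omega
        have := cs_inj h.sub hl hj h8
        omega
  · rintro j ⟨i, W⟩ hj ⟨h1, h2, h3, h4⟩
    simp only at h1 h2 h3 h4
    subst h1
    by_cases h6 : cs n C i ∈ W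
    · have h5 := ind_erase h.symm h.irrefl h6
      have e0 : (chC n C adj (i, W) false).2 = W.erase (cs n C i) := by
        unfold chC
        ext u
        simp only [mem_filter, mem_erase, if_pos h6]
        simp
        tauto
      have e1 : (chC n C adj (i, W) true).2 =
          (W.erase (cs n C i)).filter (fun u => adj (cs n C i) u = false) := by
        unfold chC
        ext u
        simp only [mem_filter, mem_erase, if_pos h6, true_implies]
        tauto
      simp only [e0, e1]
      exact_mod_cast h5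
    · have h5 := h.ind_isolated (h4 i hj le_rfl) (by omega)
      have e0 : ∀ b, (chC n C adj (i, W) b).2 = W.erase (n + cs n C i) := by
        intro b
        unfold chC
        ext u
        simp only [mem_filter, mem_erase, if_neg h6]
        tauto
      simp only [e0]
      rw [h5]
      push_cast
      ring
  · rintro j ⟨i, W⟩ ⟨h1, h2, h3⟩
    have h4 := abs_le.1 (hg.1 W h2)
    have h5 : Real.logb 2 (ind adj W) ≤ δ + e W := by linarith [h4.1]
    rw [Real.logb_le_iff_le_rpow (by norm_num) (hpos W),
      Real.rpow_add (by norm_num), Real.rpow_natCast] at h5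
    exact h5
  · rintro j ⟨i, W⟩ ⟨h1, h2, h3⟩
    have h4 := abs_le.1 (hg.1 W h2)
    have h5 : (e W : ℝ) - δ ≤ Real.logb 2 (ind adj W) := by
      linarith [h4.2]
    rw [Real.le_logb_iff_rpow_le (by norm_num) (hpos W), Real.rpow_sub (by norm_num),
      Real.rpow_natCast, div_le_iff₀ (by positivity)] at h5
    simp only
    linarith
  · rintro ⟨i, W⟩ ⟨h1, h2, h3, h5⟩
    simp only at h1 h2 h3 h5
    have h4 := hg.2 W h2 (by
      rw [eq_empty_iff_forall_notMem]
      intro v hv
      rw [mem_inter] at hv
      have h6 := h3 (rk C v) (rk_lt hv.2) (rk_lt hv.2)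
      rw [cs_rk h.sub hv.2] at h6
      exact h6 hv.1)
    simp only
    rw [h4]
    push_cast
    rfl
  · rintro j ⟨i, W⟩ b hj ⟨h1, h2, h3⟩
    have h4 := abs_le.1 (hg.1 W h2)
    have h5 : Real.logb 2 (ind adj W) ≤ 2 * n := by
      rw [Real.logb_le_iff_le_rpow (by norm_num) (hpos W)]
      have h6 : ind adj W ≤ 2 ^ (n + n) := (ind_le_two_pow W).trans
        (Nat.pow_le_pow_right (by norm_num) (by simpa using card_le_card h2))
      have h7 : (ind adj W : ℝ) ≤ 2 ^ (n + n) := by exact_mod_cast h6
      refine h7.trans (le_of_eq ?_)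
      rw [← Real.rpow_natCast]
      congr 1
      push_cast
      ring
    have h8 : (e W : ℝ) ≤ (dm : ℝ) := by
      linarith [h4.2]
    have h9 : e W ≤ dm := by exact_mod_cast h8
    simp only
    omega

end Pool.Agent.Lib.SubBisC
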