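import Pool.Agent.Lib.SubBisC.CGen
import Pool.Agent.Lib.SubBisC.CTree
import Pool.Agent.Lib.SubBisC.CSum
import Pool.Agent.Lib.SubBisB.CoreB

/-!
The sites of a vertex cover `C` with `k` vertices and the method with random blocks: for seven
eighths of the seeds all estimates are good; the success probability over uniform random bits.
-/

set_option autoImplicit false

open Finset
open scoped BigOperators

namespace Pool.Agent.Lib.SubBisC

open Pool.Agent.Lib.Pa7c826 Pool.Agent.Lib.Pa7c826t Pool.Agent.Lib.SubBisX Pool.Agent.Lib.SubBisB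
  Pool.Agent.Lib.SubBisX.Node Pool.Agent.Lib.SubBisX.Prob P7sG SubBis

/-- number of independent copies -/
def KC (n q : ℕ) : ℕ := 8 * q ^ 2 * (4 * q.size + 6) ^ 2 * (2 * n + 3)

/-- a seed: independent copies with `k` sites -/
abbrev SeedC (k n q : ℕ) : Type := Fin (KC n q) → BS.Cp k q

/-- the random value of a copy for the mask `W` -/
def VC (n a : ℕ) (adj : ℕ → ℕ → Bool) (C : Finset ℕ) (q : ℕ) (W : Finset ℕ)
    (p : BS.Cp C.card q) : ℤ :=
  BS.BVal q (ParA.MM q) (FC n a adj (ParA.kap q) C W) (ParA.TT q) p.1 p.2.1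

/-- the estimate of the binary logarithm of the number of independent subsets of `W` -/
def esC (n a : ℕ) (adj : ℕ → ℕ → Bool) (C : Finset ℕ) (q : ℕ) (s : SeedC C.card n q)
    (W : Finset ℕ) : ℕ :=
  eC C W (∑ k, VC n a adj C q W (s k)) (KC n q * (q * ParA.MM q))

/-- the bound for the errors -/
noncomputable def dl (k q : ℕ) : ℝ := 8 * k / q + 1

variable {n a : ℕ} {adj : ℕ → ℕ → Bool} {C : Finset ℕ} {q : ℕ}

theorem dl_le (hq : 1 ≤ q) (hk : C.card ≤ n) : 2 * (n : ℝ) + dl C.card q ≤ ((10 * n + 1 : ℕ) : ℝ) := by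
  have h1 : (8 : ℝ) * C.card / q ≤ 8 * C.card :=
    div_le_self (by positivity) (by exact_mod_cast hq)
  have h2 : (C.card : ℝ) ≤ n := by exact_mod_cast hk
  unfold dl
  push_cast
  linarith

open Classical in
/-- **Most seeds are good.** -/
theorem good_seedsC (hq : 1 ≤ q) (h : Cov n a adj C) :
    8 * (univ.filter fun s : SeedC C.card n q =>
      ¬ GoodC (n + n) adj C (dl C.card q) (esC n a adj C q s)).card ≤
      Fintype.card (SeedC C.card n q) := by
  have hq0 : (0 : ℝ) < q := by exact_mod_cast hq
  have hM := BS.MM_pos q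
  have hleaf : ∀ (s : SeedC C.card n q) (W : Finset ℕ), W ∩ C = ∅ →
      ind adj W = 2 ^ esC n a adj C q s W := fun s W hW => eC_leaf h hW _ _
  rcases Nat.eq_zero_or_pos C.card with hk | hk
  · have h1 : (univ.filter fun s : SeedC C.card n q =>
        ¬ GoodC (n + n) adj C (dl C.card q) (esC n a adj C q s)) = ∅ := by
      rw [filter_eq_empty_iff]
      intro s _
      rw [not_not]
      refine ⟨fun W _ => ?_, fun W _ hW => hleaf s W hW⟩
      have hC : C = ∅ := card_eq_zero.1 hk
      have h2 := hleaf s W (by rw [hC, inter_empty])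
      rw [h2]
      push_cast
      rw [Real.logb_pow, Real.logb_self_eq_one (by norm_num), mul_one, sub_self, abs_zero]
      unfold dl
      positivity
    rw [h1, card_empty]
    exact Nat.zero_le _
  · have hk0 : (0 : ℝ) < C.card := by exact_mod_cast hk
    have hss : NeZero (ParA.ss q) := ⟨(ParA.ss_pos q).ne'⟩
    have key := good_seedsG (N := n + n) (D := q * ParA.MM q) (K := KC n q)
      (V := VC n a adj C q) (L := fun W => Bounds.logZ (FC n a adj (ParA.kap q) C W))
      (tgt := fun W => Real.logb 2 (ind adj W)) (est := eC C) (Nat.mul_pos hq hM)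
      (by
        unfold KC
        positivity) (δ₁ := 6 * C.card / q) (δ₂ := C.card / q)
      (B := C.card * (4 * q.size + 6)) (x := C.card * (2 / 2 ^ ParA.kap q) + 1)
      (δ := dl C.card q) (by positivity) (div_pos hk0 hq0) ?_ ?_ ?_ ?_ ?_
    · refine le_trans (Nat.mul_le_mul_left 8 (card_le_card ?_)) key
      intro s hs
      rw [mem_filter] at hs ⊢
      refine ⟨mem_univ _, fun hcon => hs.2 ⟨hcon, fun W _ hW => hleaf s W hW⟩⟩
    · intro W _
      have hcore : CoreZ q C.card := fun F h0 hF hk => coreB hq F h0 hF hk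
      have h1 := core_shift hq hcore (F := FC n a adj (ParA.kap q) C W)
        (fun S S' => FC_sub h W S S') (fun S v => FC_insert h W v S)
      have h2 := BS.av_cp (A := Fin C.card → Fin (2 ^ (2 * ParA.nu q)))
        (W := WB (2 ^ ParA.mu q) C.card (2 ^ (2 * ParA.nu q)) (ParA.ss q)
          (2 ^ (2 * ParA.nu q + 7)) (ParA.TT q))
        (Z := Fin C.card → Fin (2 ^ (2 * ParA.nu q + 7)))
        fun β w => (BS.BVal q (ParA.MM q) (FC n a adj (ParA.kap q) C W) (ParA.TT q) β w : ℝ)
      have h3 : (Reg.av fun b : BS.Cp C.card q => (VC n a adj C q W b : ℝ)) =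
          Reg.av fun p : (Fin C.card → Fin (2 ^ (2 * ParA.nu q))) ×
          WB (2 ^ ParA.mu q) C.card (2 ^ (2 * ParA.nu q)) (ParA.ss q) (2 ^ (2 * ParA.nu q + 7))
            (ParA.TT q) =>
              (BS.BVal q (ParA.MM q) (FC n a adj (ParA.kap q) C W) (ParA.TT q) p.1 p.2 : ℝ) := h2
      rw [h3]
      push_cast
      exact h1
    · intro W _ b
      have h0 : |FC n a adj (ParA.kap q) C W ∅| ≤ ((ParA.kap q * C.card : ℕ) : ℤ) := by
        rw [abs_of_nonneg (FC_nonneg W ∅)]
        push_cast
        exact FC_le h W ∅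
      have h1 := range_shift (F := FC n a adj (ParA.kap q) C W) (A := ParA.kap q * C.card)
        (fun S v => FC_insert h W v S) h0 b.1 b.2.1
      have h2 : |(VC n a adj C q W b : ℝ)| ≤
          ((q * ParA.MM q * (C.card * (3 * q.size + 5) + (ParA.kap q * C.card : ℕ)) : ℤ) : ℝ) := by
        exact_mod_cast h1
      refine h2.trans (le_of_eq ?_)
      unfold ParA.kap
      push_cast
      ring
    · unfold KC
      push_cast
      apply le_of_eq
      field_simp
      ring
    · intro W _ tot den hden d hd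
      have h1 := eC_err h (show 0 < ParA.kap q by unfold ParA.kap; omega) W hden hd
      linarith
    · have h9 : (C.card : ℝ) * (2 / 2 ^ ParA.kap q) ≤ C.card / q := by
        have h10 : (q : ℝ) ≤ 2 ^ q.size := by exact_mod_cast (Nat.lt_size_self q).le
        have h11 : (2 : ℝ) / 2 ^ ParA.kap q = 1 / 2 ^ q.size := by
          unfold ParA.kap
          rw [pow_succ]
          field_simp
        rw [h11, mul_one_div]
        exact div_le_div_of_nonneg_left hk0.le hq0 h10
      have h12 : (8 : ℝ) * C.card / q = 6 * C.card / q + C.card / q + C.card / q := by ring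
      unfold dl
      linarith

/-! ### Random bits -/

/-- the number of bits of the seed -/
def offC (k n q : ℕ) : ℕ :=
  BTab.nbitsB (ParA.mu q) (2 * ParA.nu q + 7) (2 * ParA.nu q) k (ParA.ss q) (ParA.TT q) (KC n q)

/-- the seed read off a stream of bits -/
def decC (k n q : ℕ) (b : ℕ → Bool) : SeedC k n q :=
  BTab.decSB (ParA.mu q) (2 * ParA.nu q + 7) (2 * ParA.nu q) k (ParA.ss q) (ParA.TT q)
    (KC n q) b

theorem unif_decC (k n q : ℕ) : SubBisX.Seed.Unif (offC k n q) (decC k n q) :=
  BTab.unif_decSB _ _ _ _ _ _ _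

/-- the estimate of the tape -/
def esT (n a : ℕ) (adj : ℕ → ℕ → Bool) (C : Finset ℕ) (q : ℕ) (l : List Bool)
    (W : Finset ℕ) : ℕ :=
  esC n a adj C q (decC C.card n q (str l)) W

/-- the final size of the population -/
def cntT (n a : ℕ) (adj : ℕ → ℕ → Bool) (C : Finset ℕ) (q K cap : ℕ) (l : List Bool) : ℕ :=
  (runC (chC n C adj) (fun X => esT n a adj C q l X.2) cap
    (coinT l (offC C.card n q) cap (10 * n + 1)) (List.replicate K (0, range (n + n)))
      C.card).length

open Classical in
/-- **The success probability of the approximation scheme.** -/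
theorem prob_SC (hq : 1 ≤ q) (h : Cov n a adj C) {K cap m : ℕ} {t : ℝ} (ht : 1 ≤ t)
    (hK0 : 0 < K) (hK : 8 * (C.card * ((2 : ℝ) ^ dl C.card q) ^ 2 * t ^ 2) ≤ K)
    (hcap : 2 * ((2 : ℝ) ^ dl C.card q) ^ 2 * K ≤ cap)
    (hm : offC C.card n q + C.card * cap * 2 * (10 * n + 1) ≤ m) :
    3 * 2 ^ m ≤ 4 * (univ.filter fun τ : Fin m → Bool =>
      |(cntT n a adj C q K cap (List.ofFn τ) : ℝ) *
          2 ^ esT n a adj C q (List.ofFn τ) (range (n + n)) -
        K * (2 ^ n * ind adj (range n) : ℕ)| ≤ K * (2 ^ n * ind adj (range n) : ℕ) / t).card := by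
  have hkn : C.card ≤ n := by simpa using card_le_card h.sub
  have key := prob_SG (unif_decC C.card n q) (bad := fun s : SeedC C.card n q =>
      ¬ GoodC (n + n) adj C (dl C.card q) (esC n a adj C q s))
    (by
      have h1 := good_seedsC (q := q) hq h
      convert h1) (ch := chC n C adj)
    (e := fun s X => esC n a adj C q s X.2) (Z := fun X => (ind adj X.2 : ℝ)) (ok := okC n C)
    (lev := C.card) (dm := 10 * n + 1) (α := (2 : ℝ) ^ dl C.card q)
    (fun s hs => good_systemC h (not_not.1 hs) (dl_le hq hkn)) (root := (0, range (n + n)))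
    (okC_root h) ht hK0 hK hcap hm
  have hr := h.ind_range n
  simp only [hr] at key
  exact key

open Classical in
/-- **The success probability of the estimate of the logarithm.** -/
theorem prob_PC (hq : 1 ≤ q) (h : Cov n a adj C) {m : ℕ} (hm : offC C.card n q ≤ m) :
    3 * 2 ^ m ≤ 4 * (univ.filter fun τ : Fin m → Bool =>
      |(esT n a adj C q (List.ofFn τ) (range n) : ℝ) - Real.logb 2 (ind adj (range n))| ≤
        8 * C.card / q + 1).card := by
  exact prob_PG (unif_decC C.card n q) (bad := fun s : SeedC C.card n q =>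
      ¬ GoodC (n + n) adj C (dl C.card q) (esC n a adj C q s))
    (good := fun s => |(esC n a adj C q s (range n) : ℝ) - Real.logb 2 (ind adj (range n))| ≤
        8 * C.card / q + 1)
    (by
      have h1 := good_seedsC (q := q) hq h
      convert h1)
    (fun s hs => (not_not.1 hs).1 _ (range_subset_range.2 (by omega))) hm

end Pool.Agent.Lib.SubBisC
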