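import Pool.Agent.Lib.SubBisC.CDefsR

/-!
The vertex cover number of a bipartite graph and the vertex covers of its code.
-/

set_option autoImplicit false

namespace Pool.Agent.Lib.SubBisC

open Finset Pool.Agent.Lib.Pa7c826 Pool.Agent.Lib.SubBisX

/-- The vertex cover number of the bipartite graph `G`. -/
noncomputable abbrev vc (G : BGraph) : ℕ := coverNum G

/-- The set of numbers `K` is a vertex cover. -/
def IsCov (adj : ℕ → ℕ → Bool) (K : Finset ℕ) : Prop := ∀ u v, adj u v = true → u ∈ K ∨ v ∈ K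

theorem vc_cast (G : BGraph) : (vc G : ℕ∞) = G.graph.vertexCoverNum := by
  unfold vc coverNum
  exact ENat.natCast_toNat SimpleGraph.vertexCoverNum_ne_top_of_finite

/-- every vertex cover has at least `vc G` elements -/
theorem vc_le {G : BGraph} {t : ℕ} {K : Finset ℕ} (hK : IsCov (adjOf (inCode G t)) K) :
    vc G ≤ K.card := by
  classical
  set c : Set (Fin G.a ⊕ Fin G.b) := {x | num G x ∈ K} with hc
  have h1 : G.graph.IsVertexCover c := by
    intro x y hxy
    rcases hK _ _ ((adjOf_num G t x y).2 hxy) with h | h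
    · exact Or.inl h
    · exact Or.inr h
  have h2 := h1.vertexCoverNum_le
  rw [← vc_cast] at h2
  have h3 : c.encard ≤ (K : Set ℕ).encard := by
    refine Set.encard_le_encard_of_injOn (f := num G) (fun x hx => hx)
      ((num_injective G).injOn)
  rw [Set.encard_coe_eq_coe_finsetCard] at h3
  exact_mod_cast h2.trans h3

/-- there is a vertex cover with `vc G` elements -/
theorem exists_cov (G : BGraph) (t : ℕ) :
    ∃ K : Finset ℕ, K ⊆ range (G.a + G.b) ∧ IsCov (adjOf (inCode G t)) K ∧ K.card = vc G := by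
  classical
  obtain ⟨c, h1, h2⟩ := SimpleGraph.vertexCoverNum_exists G.graph
  rw [← vc_cast] at h1
  have hf : c.Finite := Set.toFinite c
  refine ⟨(hf.toFinset).map ⟨num G, num_injective G⟩, ?_, ?_, ?_⟩
  · intro u hu
    rw [mem_map] at hu
    obtain ⟨x, -, rfl⟩ := hu
    exact mem_range.2 ((num_range G _).2 ⟨x, rfl⟩)
  · intro u v huv
    have h3 : u < G.a + G.b ∧ v < G.a + G.b := by
      have h4 := adjOf_bip huv
      rw [aOf_inCode, bOf_inCode] at h4
      omega
    obtain ⟨x, rfl⟩ := (num_range G u).1 h3.1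
    obtain ⟨y, rfl⟩ := (num_range G v).1 h3.2
    have h5 := (adjOf_num G t x y).1 huv
    rcases h2 h5 with h6 | h6
    · exact Or.inl (mem_map.2 ⟨x, hf.mem_toFinset.2 h6, rfl⟩)
    · exact Or.inr (mem_map.2 ⟨y, hf.mem_toFinset.2 h6, rfl⟩)
  · rw [card_map]
    have h3 : c.encard = ((hf.toFinset).card : ℕ∞) := hf.encard_eq_coe_toFinset_card
    rw [h3] at h1
    exact_mod_cast h1

/-- a smallest vertex cover -/
theorem card_eq_vc {G : BGraph} {t : ℕ} {C : Finset ℕ} (hC : IsCov (adjOf (inCode G t)) C)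
    (hmin : ∀ K : Finset ℕ, IsCov (adjOf (inCode G t)) K → C.card ≤ K.card) : C.card = vc G := by
  refine le_antisymm ?_ (vc_le hC)
  obtain ⟨K, -, h1, h2⟩ := exists_cov G t
  rw [← h2]
  exact hmin K h1

end Pool.Agent.Lib.SubBisC
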