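import Pool.Agent.Lib.SubBisC.CMach
import Pool.Agent.Lib.SubBisC.CSys
import Pool.Agent.Lib.SubBisC.CParS
import Pool.Agent.Lib.SubBisC.CVc
import Pool.Agent.Lib.SubBisB.ParBPoly

/-!
The number of independent sets of a bipartite graph with vertex cover number `k` in time polynomial in
`2 ^ (√k log k)`, in the number of vertices and in `t`.
-/

set_option autoImplicit false

namespace Pool.Agent.Lib.SubBisC

open Finset Pool.Agent.Lib.PolyTime Pool.Agent.Lib.Pa7c826 Pool.Agent.Lib.Pa7c826t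
open Pool.Agent.Lib.SubBisX Pool.Agent.Lib.P8e91ed.PT Pool.Agent.Lib.P7sG
open Pool.Agent.Lib.SubBisB.ParB (qB tbB tbB_qB)
open Pool.Agent.Lib.SubBisB

namespace FS

/-! ### Parameters -/

/-- The quality. -/
def qs (t : ℕ) : ℕ := max 1 (qB t)

theorem one_le_qs (t : ℕ) : 1 ≤ qs t := le_max_left _ _

theorem tbB_qs_le (t : ℕ) : tbB (qs t) ≤ t + tbB 1 := by
  unfold qs
  rcases Nat.eq_zero_or_pos (qB t) with h | h
  · rw [h, max_eq_left (by norm_num)]
    exact Nat.le_add_left _ _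
  · rw [max_eq_right h]
    exact (tbB_qB h).trans (Nat.le_add_right _ _)

/-! ### Machines -/

section

variable {α : Type} {D : α → Prop} {ctx : List (α → List Bool)} {w : α → List Bool}
  {C : α → Finset ℕ}

theorem poly_qs {t : α → ℕ} (ht : PolyN D ctx t) : PolyN D ctx (fun a => qs (t a)) :=
  ((PolyN.const 1).add (PolyN.sub (ParB.poly_qB ht) (PolyN.const 1))).congr
    (fun a _ => by
      show 1 + (qB (t a) - 1) = max 1 (qB (t a))
      omega)

theorem bdd_qs {t : α → ℕ} (ht : PolyN D ctx t) : Bdd D ctx (fun a => tbB (qs (t a))) :=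
  (Bdd.ofN (ht.add (PolyN.const (tbB 1)))).le fun a _ => tbB_qs_le (t a)

/-- The parameters of the estimate are computable. -/
structure QComp (D : α → Prop) (ctx : List (α → List Bool)) (q : α → ℕ) : Prop where
  qq : PolyN D ctx q
  N : PolyN D ctx (fun a => tbB (q a))

theorem qcomp_qs {t : α → ℕ} (ht : PolyN D ctx t) : QComp D ctx (fun a => qs (t a)) :=
  ⟨poly_qs ht, ParB.poly_tbB (poly_qs ht) (bdd_qs ht)⟩

theorem poly_KC {n q : α → ℕ} (hn : PolyN D ctx n) (hq : PolyN D ctx q) :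
    PolyN D ctx (fun a => KC (n a) (q a)) := by
  have h1 : PolyN D ctx (fun a => 4 * (q a).size + 6) :=
    ((PolyN.const 4).mul (Par.poly_size hq)).add (PolyN.const 6)
  exact ((((PolyN.const 8).mul (hq.mul hq)).mul (h1.mul h1)).mul
    (((PolyN.const 2).mul hn).add (PolyN.const 3))).congr (fun a _ => by unfold KC; ring)

theorem poly_es (hw : PolyC D ctx w) (hC : PolyS D ctx (fun x => nOf (w x)) C) {q nW : α → ℕ}
    {W : α → Finset ℕ} (hnW : PolyN D ctx nW) (hW : PolyS D ctx nW W) (hq : QComp D ctx q)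
    {r : α → List Bool} (hr : PolyC D ctx r) :
    PolyN D ctx (fun x =>
      esT (nOf (w x)) (aOf (w x)) (adjOf (w x)) (C x) (q x) (r x) (W x)) := by
  have hK := poly_KC (poly_nOf hw) hq.qq
  have h := poly_eVC (W := W) (C := C) (μ := fun x => ParA.mu (q x))
    (ν := fun x => 2 * ParA.nu (q x) + 7) (lam := fun x => 2 * ParA.nu (q x))
    (s := fun x => ParA.ss (q x)) (c := q) (M := fun x => ParA.MM (q x))
    (T := fun x => ParA.TT (q x)) (κ := fun x => ParA.kap (q x))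
    (K := fun x => KC (nOf (w x)) (q x))
    (den := fun x => KC (nOf (w x)) (q x) * (q x * ParA.MM (q x)))
    hw hC hnW hW (ParB.poly_mu hq.qq) (ParB.poly_two_mu hq.qq)
    (((PolyN.const 2).mul (ParB.poly_nu hq.qq)).add (PolyN.const 7)) (ParB.poly_NN hq.qq)
    ((PolyN.const 2).mul (ParB.poly_nu hq.qq)) (ParB.poly_BB hq.qq) (ParB.poly_ss hq.qq) hq.qq
    (ParB.poly_MM hq.qq) (ParB.poly_TT hq.qq) (ParB.poly_kap hq.qq) hK
    (hK.mul (hq.qq.mul (ParB.poly_MM hq.qq))) hq.N hr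
  exact h

theorem EComp_es (hw : PolyC D ctx w) (hC : PolyS D ctx (fun x => nOf (w x)) C) {q : α → ℕ}
    (hq : QComp D ctx q) {r : α → List Bool} (hr : PolyC D ctx r) :
    EComp D ctx (fun x => nOf (w x) + nOf (w x)) (fun x => (C x).card) (fun x X =>
      esT (nOf (w x)) (aOf (w x)) (adjOf (w x)) (C x) (q x) (r x) X.2) := by
  unfold EComp
  have lft : ∀ {t : α → List Bool}, PolyC D ctx t →
      PolyC (fun p : α × (ℕ × Finset ℕ) => D p.1 ∧ p.2.1 ≤ (C p.1).card ∧
        p.2.2 ⊆ range (nOf (w p.1) + nOf (w p.1)))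
        (PolyTime.lift ctx ++ [fun p => un p.2.1,
          fun p => msk (nOf (w p.1) + nOf (w p.1)) p.2.2])
        (fun p => t p.1) := fun h => (PolyC.lift h (fun p hp => hp.1)).weakenRight _
  exact poly_es (w := fun p : α × (ℕ × Finset ℕ) => w p.1) (C := fun p => C p.1)
    (nW := fun p => nOf (w p.1) + nOf (w p.1))
    (W := fun p => p.2.2) (q := fun p => q p.1) (r := fun p => r p.1) (lft hw)
    ⟨lft hC.1, fun p hp => hC.2 p.1 hp.1⟩
    (lft ((poly_nOf hw).add (poly_nOf hw)))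
    ⟨PolyC.var (by simp), fun p hp => hp.2.2⟩ ⟨lft hq.qq, lft hq.N⟩ (lft hr)

theorem poly_off {n k q : α → ℕ} (hn : PolyN D ctx n) (hk : PolyN D ctx k)
    (hq : QComp D ctx q) : PolyN D ctx (fun x => offC (k x) (n x) (q x)) := by
  have hlam : PolyN D ctx (fun x => 2 * ParA.nu (q x)) :=
    (PolyN.const 2).mul (ParB.poly_nu hq.qq)
  have hC : PolyN D ctx (fun x => (2 ^ (2 * ParA.nu (q x)) * ParA.ss (q x) + 1) ^
      ParA.TT (q x)) := by
    refine n_pow ((ParB.poly_BB hq.qq).mul (ParB.poly_ss hq.qq)).succ (ParB.poly_TT hq.qq)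
      ((Bdd.ofN hq.N).le fun x _ => ?_)
    unfold tbB
    refine Nat.pow_le_pow_left (Nat.add_le_add_right (Nat.le_mul_of_pos_right _ ?_) 1) _
    positivity
  exact ((poly_KC hn hq.qq).mul ((hk.mul hlam).add ((hC.mul hk).mul
    ((ParB.poly_mu hq.qq).add (hlam.add (PolyN.const 7)))))).congr fun _ _ => rfl

theorem poly_cntT (hw : PolyC D ctx w) (hC : PolyS D ctx (fun x => nOf (w x)) C) {q : α → ℕ}
    (hq : QComp D ctx q) {r : α → List Bool} (hr : PolyC D ctx r) {K cap : α → ℕ}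
    (hK : PolyN D ctx K) (hcap : PolyN D ctx cap) (hKc : ∀ a, D a → K a ≤ cap a) :
    PolyN D ctx (fun x => cntT (nOf (w x)) (aOf (w x)) (adjOf (w x)) (C x) (q x) (K x) (cap x)
      (r x)) :=
  poly_countD (n := fun x => nOf (w x) + nOf (w x)) (aN := fun x => (C x).card) (cap := cap)
    (dm := fun x => 10 * nOf (w x) + 1) (off := fun x => offC (C x).card (nOf (w x)) (q x))
    (K := K) (ch := fun x => chC (nOf (w x)) (C x) (adjOf (w x))) (tape := r)
    (e := fun x X => esT (nOf (w x)) (aOf (w x)) (adjOf (w x)) (C x) (q x) (r x) X.2)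
    ((poly_nOf hw).add (poly_nOf hw)) (PolyS.card (poly_nOf hw) hC) hcap
    (((PolyN.const 10).mul (poly_nOf hw)).succ)
    (poly_off (poly_nOf hw) (PolyS.card (poly_nOf hw) hC) hq)
    hK hr hKc (fun x => down_chC _ _ _) (cComp_chC hw hC _) (EComp_es hw hC hq hr)

/-- The machine's answer. -/
noncomputable def ansS (n a : ℕ) (adj : ℕ → ℕ → Bool) (C : Finset ℕ) (q t : ℕ)
    (l : List Bool) : List Bool :=
  outN (kapS t + n) (esT n a adj C q l (range (n + n)))
    (cntT n a adj C q (2 ^ kapS t) (capS t) l)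

/-- the number of random bits needed -/
def needS (n k q t : ℕ) : ℕ := offC k n q + k * capS t * 2 * (10 * n + 1)

theorem poly_ansS (hw : PolyC D ctx w) (hC : PolyS D ctx (fun x => nOf (w x)) C) {q t : α → ℕ}
    (hq : QComp D ctx q) (ht : PolyN D ctx t) (h1 : ∀ a, D a → 1 ≤ t a)
    {r : α → List Bool} (hr : PolyC D ctx r) :
    PolyC D ctx (fun x =>
      ansS (nOf (w x)) (aOf (w x)) (adjOf (w x)) (C x) (q x) (t x) (r x)) :=
  have hn := poly_nOf hw
  poly_outN (((PolyN.const 4).mul (poly_lg ht)).add hn)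
    (poly_es hw hC (hn.add hn) (PolyS.range (hn.add hn)) hq hr)
    (poly_cntT hw hC hq hr (poly_K ht h1) (poly_cap ht h1)
      (fun a _ => two_pow_kap_le_cap (t a)))

theorem poly_needS {n k q t : α → ℕ} (hn : PolyN D ctx n) (hk : PolyN D ctx k)
    (hq : QComp D ctx q) (ht : PolyN D ctx t) (h1 : ∀ a, D a → 1 ≤ t a) :
    PolyN D ctx (fun x => needS (n x) (k x) (q x) (t x)) :=
  (poly_off hn hk hq).add (((hk.mul (poly_cap ht h1)).mul (PolyN.const 2)).mul
    (((PolyN.const 10).mul hn).succ))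

end

/-! ### Probability -/

/-- **The answer is good with probability three quarters.** -/
theorem goodS {G : BGraph} {t q : ℕ} {C : Finset ℕ}
    (hC : Cov (G.a + G.b) G.a (adjOf (inCode G t)) C) (hq : 1 ≤ q) (ht : 1 ≤ t)
    (h : C.card = 0 ∨ ((400 : ℝ) * C.card ≤ q * Real.logb 2 t ∧
      (400 : ℝ) ≤ Real.logb 2 t ∧ (C.card : ℝ) ≤ t))
    {m : ℕ} (hm : needS (G.a + G.b) C.card q t ≤ m) :
    3 * 2 ^ m ≤ 4 * Nat.card {r : Fin m → Bool // Pa7c826.Good G t
      (ansS (G.a + G.b) G.a (adjOf (inCode G t)) C q t (List.ofFn r))} := by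
  classical
  obtain ⟨h1, h2⟩ := params (k := C.card) hq ht h
  have ht1 : (1 : ℝ) ≤ t := by exact_mod_cast ht
  have ht0 : (0 : ℝ) < t := by linarith
  have key := prob_SC (K := 2 ^ kapS t) (cap := capS t) (m := m) (t := (t : ℝ)) hq hC ht1
    (by positivity) h1 h2 hm
  refine key.trans (Nat.mul_le_mul_left 4 ?_)
  rw [Nat.card_eq_fintype_card, Fintype.card_subtype]
  refine card_le_card ?_
  intro r hr
  rw [mem_filter] at hr ⊢
  refine ⟨mem_univ _, ?_⟩
  have h3 := hr.2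
  rw [ind_eq_numIndep] at h3
  unfold Pa7c826.Good ansS
  rw [outVal_outN]
  set c := cntT (G.a + G.b) G.a (adjOf (inCode G t)) C q (2 ^ kapS t) (capS t) (List.ofFn r)
  set e := esT (G.a + G.b) G.a (adjOf (inCode G t)) C q (List.ofFn r)
    (range (G.a + G.b + (G.a + G.b)))
  set Z := numIndep G.graph
  set n := G.a + G.b
  have h4 : (|(c : ℝ) * 2 ^ e / 2 ^ (kapS t + n) - Z| : ℝ) ≤ Z / t := by
    have hK : (0 : ℝ) < 2 ^ (kapS t + n) := by positivity
    push_cast at h3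
    have e1 : (c : ℝ) * 2 ^ e / 2 ^ (kapS t + n) - Z =
        ((c : ℝ) * 2 ^ e - 2 ^ kapS t * (2 ^ n * Z)) / 2 ^ (kapS t + n) := by
      rw [pow_add]
      field_simp
    rw [e1, abs_div, abs_of_pos hK, div_le_iff₀ hK]
    refine h3.trans (le_of_eq ?_)
    rw [pow_add]
    ring
  have h5 : ((|(c : ℚ) * 2 ^ e / 2 ^ (kapS t + n) - Z| : ℚ) : ℝ) ≤ ((Z / t : ℚ) : ℝ) := by
    push_cast
    exact h4
  exact_mod_cast h5

/-! ### The theorem -/

/-- The promise. -/
def PSC (G : BGraph) (t : ℕ) : Prop :=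
  (2 : ℝ) ^ (cE * Real.sqrt (coverNum G) * Real.logb 2 ((coverNum G : ℝ) + 1)) ≤ t

theorem promise {G : BGraph} {t : ℕ} (hP : PSC G t) (ht : 1 ≤ t) :
    coverNum G = 0 ∨ ((400 : ℝ) * coverNum G ≤ qs t * Real.logb 2 t ∧
      (400 : ℝ) ≤ Real.logb 2 t ∧ (coverNum G : ℝ) ≤ t) := by
  rcases Nat.eq_zero_or_pos (coverNum G) with h0 | h0
  · exact Or.inl h0
  · obtain ⟨h1, _, h2, h3, h4⟩ := par_S h0 ht hP
    right
    unfold qs
    rw [max_eq_right h1]
    exact ⟨h2, h3, h4⟩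

/-- **Theorem.** From a computable minimum vertex cover. -/
theorem hasRApx_of_cover {cv : List Bool → Finset ℕ}
    (hpoly : ∀ {α : Type} {D : α → Prop} {ctx : List (α → List Bool)} {w : α → List Bool},
      PolyC D ctx w → PolyS D ctx (fun x => nOf (w x)) (fun x => cv (w x)))
    (hcov : ∀ (G : BGraph) (t : ℕ),
      Cov (G.a + G.b) G.a (adjOf (inCode G t)) (cv (inCode G t)))
    (hcard : ∀ (G : BGraph) (t : ℕ), (cv (inCode G t)).card = coverNum G) :
    Pa7c826m.HasRApx PSC := by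
  refine hasRApx_of
    (need := fun G t => needS (G.a + G.b) (cv (inCode G t)).card (qs t) t)
    (out := fun G t r => ansS (G.a + G.b) G.a (adjOf (inCode G t)) (cv (inCode G t)) (qs t) t r)
    ?_ ?_ ?_
  · have hw : PolyC (fun x : BGraph × ℕ => PSC x.1 x.2 ∧ 1 ≤ x.2) [fun x => inCode x.1 x.2]
        (fun x => inCode x.1 x.2) := PolyC.var (by simp)
    have ht : PolyN (fun x : BGraph × ℕ => PSC x.1 x.2 ∧ 1 ≤ x.2) [fun x => inCode x.1 x.2]
        (fun x => x.2) := (poly_tOf hw).congr (fun x _ => tOf_inCode x.1 x.2)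
    refine (poly_needS (poly_nOf hw) (PolyS.card (poly_nOf hw) (hpoly hw)) (qcomp_qs ht) ht
      (fun x hx => hx.2)).congr (fun x _ => ?_)
    simp only [nOf_inCode]
  · have hw : PolyC (fun x : BGraph × ℕ × List Bool => PSC x.1 x.2.1 ∧ 1 ≤ x.2.1 ∧
        needS (x.1.a + x.1.b) (cv (inCode x.1 x.2.1)).card (qs x.2.1) x.2.1 ≤ x.2.2.length)
        [fun x => inCode x.1 x.2.1, fun x => x.2.2] (fun x => inCode x.1 x.2.1) :=
      PolyC.var (by simp)
    have hr : PolyC (fun x : BGraph × ℕ × List Bool => PSC x.1 x.2.1 ∧ 1 ≤ x.2.1 ∧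
        needS (x.1.a + x.1.b) (cv (inCode x.1 x.2.1)).card (qs x.2.1) x.2.1 ≤ x.2.2.length)
        [fun x => inCode x.1 x.2.1, fun x => x.2.2] (fun x => x.2.2) :=
      PolyC.var (by simp)
    have ht : PolyN (fun x : BGraph × ℕ × List Bool => PSC x.1 x.2.1 ∧ 1 ≤ x.2.1 ∧
        needS (x.1.a + x.1.b) (cv (inCode x.1 x.2.1)).card (qs x.2.1) x.2.1 ≤ x.2.2.length)
        [fun x => inCode x.1 x.2.1, fun x => x.2.2] (fun x => x.2.1) :=
      (poly_tOf hw).congr (fun x _ => tOf_inCode x.1 x.2.1)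
    refine (poly_ansS hw (hpoly hw) (qcomp_qs ht) ht (fun x hx => hx.2.1) hr).congr
      (fun x _ => ?_)
    simp only [nOf_inCode, aOf_inCode]
  · intro G t hP ht N hN
    refine goodS (hcov G t) (one_le_qs t) ht ?_ hN
    rw [hcard]
    exact promise hP ht

end FS

end Pool.Agent.Lib.SubBisC
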