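import Pool.Agent.Lib.SubBisX.GenProb
import Pool.Agent.Lib.SubBisB.SysB

/-!
General forms: most seeds are good for all masks; the success probability of a population over a
good system; the mean value of the method with random blocks for set functions with any value at the
empty set.
-/

set_option autoImplicit false

open Finset
open scoped BigOperators

namespace Pool.Agent.Lib.SubBisC

open Pool.Agent.Lib.Pa7c826 Pool.Agent.Lib.Pa7c826t Pool.Agent.Lib.SubBisX
  Pool.Agent.Lib.SubBisX.Node Pool.Agent.Lib.SubBisX.Gen Pool.Agent.Lib.SubBisX.Prob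
  Pool.Agent.Lib.SubBisX.Core P7sG

/-! ### Seeds -/

open Classical in
/-- **Most seeds are good**, general form: `V W` is the random value for the mask `W`, `L W` its
aim, `est` the estimate of `tgt W` from the mean. -/
theorem good_seedsG {Ω : Type*} [Fintype Ω] [Nonempty Ω] {N D K : ℕ} {V : Finset ℕ → Ω → ℤ}
    {L tgt : Finset ℕ → ℝ} {est : Finset ℕ → ℤ → ℕ → ℕ} (hD : 0 < D) (hK : 0 < K)
    {δ₁ δ₂ B x δ : ℝ} (hB : 0 < B) (hδ₂ : 0 < δ₂)
    (hcore : ∀ W ⊆ range N, |(Reg.av fun w => (V W w : ℝ)) / D - L W| ≤ δ₁)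
    (hrange : ∀ W ⊆ range N, ∀ w, |(V W w : ℝ)| ≤ D * B)
    (hcond : 8 * B ^ 2 * (N + 3) ≤ K * δ₂ ^ 2)
    (herr : ∀ W ⊆ range N, ∀ (tot : ℤ) (den : ℕ), 0 < den → ∀ d : ℝ,
      |(tot : ℝ) / den - L W| ≤ d → |(est W tot den : ℝ) - tgt W| ≤ d + x)
    (hδ : δ₁ + δ₂ + x ≤ δ) :
    8 * (univ.filter fun s : Fin K → Ω =>
      ¬ ∀ W ⊆ range N, |(est W (∑ k, V W (s k)) (K * D) : ℝ) - tgt W| ≤ δ).card ≤
      Fintype.card (Fin K → Ω) := by
  have hD0 : (0 : ℝ) < D := by exact_mod_cast hD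
  set f : Finset (Fin N) → Ω → ℝ := fun I w => (V (toN I) w : ℝ) / D with hf
  have hfB : ∀ I w, |f I w| ≤ B := by
    intro I w
    rw [hf]
    simp only
    rw [abs_div, abs_of_pos hD0, div_le_iff₀ hD0]
    refine (hrange _ (toN_subset I) w).trans (le_of_eq (by ring))
  have hcond' : 8 * B ^ 2 * Real.log (16 * Fintype.card (Finset (Fin N))) ≤ K * δ₂ ^ 2 := by
    have h1 : Real.log (16 * Fintype.card (Finset (Fin N))) ≤ N + 3 := by
      rw [Fintype.card_finset, Fintype.card_fin]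
      push_cast
      have e1 : (16 : ℝ) * 2 ^ N = 2 ^ (N + 4) := by ring
      rw [e1, Real.log_pow]
      have h2 := Real.log_two_lt_d9
      have h3 : (0 : ℝ) ≤ N := Nat.cast_nonneg N
      push_cast
      nlinarith
    refine le_trans (mul_le_mul_of_nonneg_left h1 (by positivity)) hcond
  have hbad := SubBisX.seed_bad hB f hfB K hK hδ₂ hcond'
  refine le_trans (Nat.mul_le_mul_left 8 (card_le_card ?_)) hbad
  intro s hs1
  rw [mem_filter] at hs1 ⊢
  refine ⟨mem_univ _, ?_⟩
  by_contra hcon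
  push Not at hcon
  apply hs1.2
  intro W hW
  set I : Finset (Fin N) := univ.filter fun v : Fin N => (v : ℕ) ∈ W with hI
  have hIW : toN I = W := by
    ext v
    rw [mem_toN]
    constructor
    · rintro ⟨h, hv⟩
      exact (mem_filter.1 hv).2
    · intro hv
      exact ⟨mem_range.1 (hW hv), mem_filter.2 ⟨mem_univ _, hv⟩⟩
  have h1 := hcon I
  have e3 : ∀ w, f I w = (V W w : ℝ) / D := by
    intro w
    rw [← hIW]
  have h2 : |SubBisX.EX (f I) - L W| ≤ δ₁ := by
    have h4 : SubBisX.EX (f I) = (Reg.av fun w => (V W w : ℝ)) / D := by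
      unfold SubBisX.EX Reg.av
      rw [sum_congr rfl fun w _ => e3 w, ← sum_div]
      ring
    rw [h4]
    exact hcore W hW
  have h5 : SubBisX.av (f I) s = ((∑ k, V W (s k) : ℤ) : ℝ) / ((K * D : ℕ) : ℝ) := by
    unfold SubBisX.av
    rw [sum_congr rfl fun k _ => e3 (s k), ← sum_div, div_div]
    push_cast
    rw [mul_comm]
  have h6 : |((∑ k, V W (s k) : ℤ) : ℝ) / ((K * D : ℕ) : ℝ) - L W| ≤ δ₁ + δ₂ := by
    rw [← h5]
    have h7 := abs_sub_le (SubBisX.av (f I) s) (SubBisX.EX (f I)) (L W)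
    linarith
  exact (herr W hW _ _ (Nat.mul_pos hK hD) _ h6).trans hδ

/-! ### Population -/

/-- the final size of the population for the system `ch`, `e` with `lev` levels -/
def cntG {Nd : Type} (ch : Nd → Bool → Nd) (e : Nd → ℕ) (root : Nd) (lev K cap dm off : ℕ)
    (l : List Bool) : ℕ :=
  (runC ch e cap (coinT l off cap dm) (List.replicate K root) lev).length

open Classical in
/-- **The success probability of a population**, general form. -/
theorem prob_SG {S : Type} [Fintype S] [Nonempty S] {L : ℕ} {dec : (ℕ → Bool) → S}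
    (hdec : Seed.Unif L dec) {bad : S → Prop} (hbad : 8 * (univ.filter bad).card ≤ Fintype.card S)
    {Nd : Type} {ch : Nd → Bool → Nd} {e : S → Nd → ℕ} {Z : Nd → ℝ} {ok : ℕ → Nd → Prop}
    {lev dm : ℕ} {α : ℝ} (hgood : ∀ s, ¬ bad s → P7sG.Good ch (e s) Z ok lev dm α) {root : Nd}
    (hroot : ok 0 root) {K cap m : ℕ} {t : ℝ} (ht : 1 ≤ t) (hK0 : 0 < K)
    (hK : 8 * (lev * α ^ 2 * t ^ 2) ≤ K) (hcap : 2 * α ^ 2 * K ≤ cap)
    (hm : L + lev * cap * 2 * dm ≤ m) :
    3 * 2 ^ m ≤ 4 * (univ.filter fun τ : Fin m → Bool =>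
      |(cntG ch (e (dec (str (List.ofFn τ)))) root lev K cap dm L (List.ofFn τ) : ℝ) *
          2 ^ e (dec (str (List.ofFn τ))) root - K * Z root| ≤ K * Z root / t).card := by
  obtain ⟨r, rfl⟩ : ∃ r, m = L + r := ⟨m - L, by omega⟩
  refine split_tapes _ (fun σ => bad (dec (str (List.ofFn σ)))) (bad_tapesE hdec hbad) ?_
  intro σ hσ
  have hsys := hgood _ hσ
  have h1 := av_tape hsys (cap := cap) (K := K) hroot ht hcap hK0 (m := r) 0 (by omega)
  have hK' : (0 : ℝ) < K := by exact_mod_cast hK0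
  have e1 : ∀ ρ : Fin r → Bool,
      (|(cntG ch (e (dec (str (List.ofFn (Fin.append σ ρ))))) root lev K cap dm L
          (List.ofFn (Fin.append σ ρ)) : ℝ) *
        2 ^ e (dec (str (List.ofFn (Fin.append σ ρ)))) root - K * Z root| ≤ K * Z root / t) ↔
      (|((runC ch (e (dec (str (List.ofFn σ)))) cap (coinT (List.ofFn ρ) 0 cap dm)
        (List.replicate K root) lev).length : ℝ) *
          2 ^ e (dec (str (List.ofFn σ))) root - K * Z root| ≤ K * Z root / t) := by
    intro ρ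
    unfold cntG
    rw [dec_append hdec, coinT_append]
  have h2 : (univ.filter fun ρ : Fin r → Bool =>
      ¬ (|(cntG ch (e (dec (str (List.ofFn (Fin.append σ ρ))))) root lev K cap dm L
          (List.ofFn (Fin.append σ ρ)) : ℝ) *
        2 ^ e (dec (str (List.ofFn (Fin.append σ ρ)))) root - K * Z root| ≤ K * Z root / t)) =
      univ.filter fun ρ : Fin r → Bool =>
      ¬ (|((runC ch (e (dec (str (List.ofFn σ)))) cap (coinT (List.ofFn ρ) 0 cap dm)
        (List.replicate K root) lev).length : ℝ) *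
          2 ^ e (dec (str (List.ofFn σ))) root - K * Z root| ≤ K * Z root / t) :=
    filter_congr fun ρ _ => not_congr (e1 ρ)
  rw [h2]
  set P : (Fin r → Bool) → Prop := fun ρ =>
    |((runC ch (e (dec (str (List.ofFn σ)))) cap (coinT (List.ofFn ρ) 0 cap dm)
        (List.replicate K root) lev).length : ℝ) *
          2 ^ e (dec (str (List.ofFn σ))) root - K * Z root| ≤ K * Z root / t with hP
  have h3 : 1 - lev * α ^ 2 * t ^ 2 / K ≤
      ((univ.filter P).card : ℝ) / Fintype.card (Fin r → Bool) := by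
    refine h1.trans (le_of_eq ?_)
    unfold P7sG.av
    rw [card_filter]
    push_cast
    rfl
  have hcr : (0 : ℝ) < Fintype.card (Fin r → Bool) := by
    have : 0 < Fintype.card (Fin r → Bool) := Fintype.card_pos
    exact_mod_cast this
  have h4 : lev * α ^ 2 * t ^ 2 / K ≤ 1 / 8 := by
    rw [div_le_iff₀ hK']
    linarith
  have h5 : (7 / 8 : ℝ) * Fintype.card (Fin r → Bool) ≤ (univ.filter P).card := by
    rw [le_div_iff₀ hcr] at h3
    refine le_trans (mul_le_mul_of_nonneg_right ?_ hcr.le) h3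
    linarith
  have h6 : ((univ.filter P).card : ℝ) + (univ.filter fun ρ => ¬ P ρ).card =
      Fintype.card (Fin r → Bool) := by
    have := card_filter_add_card_filter_not (s := (univ : Finset (Fin r → Bool))) P
    rw [card_univ] at this
    exact_mod_cast this
  have h7 : (8 : ℝ) * (univ.filter fun ρ => ¬ P ρ).card ≤ Fintype.card (Fin r → Bool) := by
    linarith
  have h8 : ((8 * (univ.filter fun ρ => ¬ P ρ).card : ℕ) : ℝ) ≤
      (Fintype.card (Fin r → Bool) : ℕ) := by
    rw [Nat.cast_mul]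
    exact h7
  exact Nat.cast_le.1 h8

open Classical in
/-- **The success probability of a statement about the seed.** -/
theorem prob_PG {S : Type} [Fintype S] [Nonempty S] {L : ℕ} {dec : (ℕ → Bool) → S}
    (hdec : Seed.Unif L dec) {bad good : S → Prop}
    (hbad : 8 * (univ.filter bad).card ≤ Fintype.card S) (hgood : ∀ s, ¬ bad s → good s)
    {m : ℕ} (hm : L ≤ m) :
    3 * 2 ^ m ≤ 4 * (univ.filter fun τ : Fin m → Bool =>
      good (dec (str (List.ofFn τ)))).card := by
  obtain ⟨r, rfl⟩ : ∃ r, m = L + r := ⟨m - L, by omega⟩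
  refine split_tapes _ (fun σ => bad (dec (str (List.ofFn σ)))) (bad_tapesE hdec hbad) ?_
  intro σ hσ
  have h1 : (univ.filter fun ρ : Fin r → Bool =>
      ¬ good (dec (str (List.ofFn (Fin.append σ ρ))))) = ∅ := by
    rw [filter_eq_empty_iff]
    intro ρ _
    rw [not_not, dec_append hdec]
    exact hgood _ hσ
  rw [h1, card_empty]
  exact Nat.zero_le _

/-! ### Shift of the set function -/

section shift

open SubBis Pool.Agent.Lib.SubBisB

variable {k : ℕ}

theorem gr_shift {m : ℕ} (c : ℕ) (F : Finset (Fin k) → ℤ) (z : ℤ) :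
    (gr c (fun S => F S + z) : Fin k → Fin m → (Fin k → ℤ) → ℤ) = gr c F := by
  funext v u y
  unfold gr
  ring

theorem Phi_shift {m : ℕ} (c M : ℕ) (F : Finset (Fin k) → ℤ) (z : ℤ) (U : Fin k → Fin m)
    (y : Fin k → ℤ) : Phi c M (fun S => F S + z) U y = Phi c M F U y - c * M * z := by
  unfold Phi
  rw [sum_add_distrib, sum_const, Nat.card_Icc, Nat.add_sub_cancel, nsmul_eq_mul]
  ring

theorem BVal_shift {m B s N : ℕ} [NeZero m] (c M : ℕ) (F : Finset (Fin k) → ℤ) (z : ℤ) (T : ℕ)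
    (β : Fin k → Fin B) (w : WB m k B s N T) :
    BS.BVal c M (fun S => F S + z) T β w = BS.BVal c M F T β w - c * M * z := by
  unfold BS.BVal
  rw [gr_shift, Phi_shift]

theorem logZ_shift (F : Finset (Fin k) → ℤ) (z : ℤ) :
    Bounds.logZ (fun S => F S + z) = Bounds.logZ F - z := by
  unfold Bounds.logZ
  have h1 : ∑ S : Finset (Fin k), (2 : ℝ) ^ (-((F S + z : ℤ) : ℝ)) =
      (∑ S : Finset (Fin k), (2 : ℝ) ^ (-(F S : ℝ))) * (2 : ℝ) ^ (-(z : ℝ)) := by
    rw [sum_mul]
    refine sum_congr rfl fun S _ => ?_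
    rw [← Real.rpow_add (by norm_num)]
    congr 1
    push_cast
    ring
  have h2 : (0 : ℝ) < ∑ S : Finset (Fin k), (2 : ℝ) ^ (-(F S : ℝ)) :=
    sum_pos (fun S _ => by positivity) ⟨∅, mem_univ _⟩
  rw [h1, Real.logb_mul h2.ne' (by positivity), Real.logb_rpow (by norm_num) (by norm_num)]
  ring

/-- The statement about the mean value, for set functions with `F ∅ = 0`. -/
def CoreZ (q k : ℕ) : Prop :=
  ∀ F : Finset (Fin k) → ℤ, F ∅ = 0 → FCS.Subm F →
    (∀ S v, |F (insert v S) - F S| ≤ ParA.kap q) →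
    |(Reg.av fun p : (Fin k → Fin (2 ^ (2 * ParA.nu q))) ×
        WB (2 ^ ParA.mu q) k (2 ^ (2 * ParA.nu q)) (ParA.ss q) (2 ^ (2 * ParA.nu q + 7))
          (ParA.TT q) => (BS.BVal q (ParA.MM q) F (ParA.TT q) p.1 p.2 : ℝ)) / (q * ParA.MM q) -
        Bounds.logZ F| ≤ 6 * k / q

/-- the mean value for any set function -/
theorem core_shift {q : ℕ} (hq : 1 ≤ q) (hcore : CoreZ q k) {F : Finset (Fin k) → ℤ}
    (hF : FCS.Subm F) (hk : ∀ S v, |F (insert v S) - F S| ≤ ParA.kap q) :
    |(Reg.av fun p : (Fin k → Fin (2 ^ (2 * ParA.nu q))) ×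
        WB (2 ^ ParA.mu q) k (2 ^ (2 * ParA.nu q)) (ParA.ss q) (2 ^ (2 * ParA.nu q + 7))
          (ParA.TT q) => (BS.BVal q (ParA.MM q) F (ParA.TT q) p.1 p.2 : ℝ)) / (q * ParA.MM q) -
        Bounds.logZ F| ≤ 6 * k / q := by
  have hq0 : (0 : ℝ) < q := by exact_mod_cast hq
  have hM0 : (0 : ℝ) < ParA.MM q := by exact_mod_cast BS.MM_pos q
  have h1 := hcore (fun S => F S + -F ∅) (by ring)
    (fun S S' => by
      have := hF S S'
      show F (S ∪ S') + -F ∅ + (F (S ∩ S') + -F ∅) ≤ F S + -F ∅ + (F S' + -F ∅)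
      linarith)
    (fun S v => by
      have := hk S v
      show |F (insert v S) + -F ∅ - (F S + -F ∅)| ≤ _
      have e : F (insert v S) + -F ∅ - (F S + -F ∅) = F (insert v S) - F S := by ring
      rw [e]
      exact this)
  have h2 : (Reg.av fun p : (Fin k → Fin (2 ^ (2 * ParA.nu q))) ×
        WB (2 ^ ParA.mu q) k (2 ^ (2 * ParA.nu q)) (ParA.ss q) (2 ^ (2 * ParA.nu q + 7))
          (ParA.TT q) => (BS.BVal q (ParA.MM q) (fun S => F S + -F ∅) (ParA.TT q) p.1 p.2 : ℝ)) =
      (Reg.av fun p : (Fin k → Fin (2 ^ (2 * ParA.nu q))) ×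
        WB (2 ^ ParA.mu q) k (2 ^ (2 * ParA.nu q)) (ParA.ss q) (2 ^ (2 * ParA.nu q + 7))
          (ParA.TT q) => (BS.BVal q (ParA.MM q) F (ParA.TT q) p.1 p.2 : ℝ)) +
        q * ParA.MM q * F ∅ := by
    have h3 : ∀ p : (Fin k → Fin (2 ^ (2 * ParA.nu q))) ×
        WB (2 ^ ParA.mu q) k (2 ^ (2 * ParA.nu q)) (ParA.ss q) (2 ^ (2 * ParA.nu q + 7))
          (ParA.TT q), (BS.BVal q (ParA.MM q) (fun S => F S + -F ∅) (ParA.TT q) p.1 p.2 : ℝ) =
        (BS.BVal q (ParA.MM q) F (ParA.TT q) p.1 p.2 : ℝ) + q * ParA.MM q * F ∅ := by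
      intro p
      rw [BVal_shift]
      push_cast
      ring
    rw [funext h3, Reg.av_add, Reg.av_const]
  rw [h2, logZ_shift, add_div] at h1
  have h4 : (q * ParA.MM q * F ∅ : ℝ) / (q * ParA.MM q) = F ∅ := by
    field_simp
  rw [h4] at h1
  refine le_trans (le_of_eq ?_) h1
  congr 1
  push_cast
  ring

/-- the range of the value for any set function -/
theorem range_shift {q : ℕ} {F : Finset (Fin k) → ℤ} {A : ℕ}
    (hk : ∀ S v, |F (insert v S) - F S| ≤ ParA.kap q) (h0 : |F ∅| ≤ A) {B s N T : ℕ}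
    [NeZero s] [NeZero N] (β : Fin k → Fin B) (w : WB (2 ^ ParA.mu q) k B s N T) :
    |BS.BVal q (ParA.MM q) F T β w| ≤ q * ParA.MM q * (k * (3 * q.size + 5) + A) := by
  have h1 := BS.range_BVal (q := q) (F := fun S => F S + -F ∅) (by ring)
    (fun S v => by
      have := hk S v
      have e : F (insert v S) + -F ∅ - (F S + -F ∅) = F (insert v S) - F S := by ring
      rw [e]
      exact this) β w
  rw [BVal_shift] at h1
  have h2 : BS.BVal q (ParA.MM q) F T β w =
      (BS.BVal q (ParA.MM q) F T β w - q * ParA.MM q * -F ∅) + -(q * ParA.MM q * F ∅) := by ring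
  rw [h2]
  refine (abs_add_le _ _).trans ?_
  rw [abs_neg, abs_mul, mul_add]
  refine add_le_add h1 ?_
  have h3 : |(q : ℤ) * ParA.MM q| = q * ParA.MM q := abs_of_nonneg (by positivity)
  rw [h3]
  exact mul_le_mul_of_nonneg_left h0 (by positivity)

end shift

end Pool.Agent.Lib.SubBisC
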