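import Pool.Agent.Lib.SubBisC.CDefs
import Pool.Agent.Lib.SubBisB.BTabSeed
import Pool.Agent.Lib.Pa7c826.Transfer

/-!
# The set function of the sites of a vertex cover in polynomial time

The matching number of the graph with `κ` copies of every vertex, and the estimate computed from
random bits.
-/

set_option autoImplicit false

namespace Pool.Agent.Lib.SubBisC

open Finset Pool.Agent.Lib.PolyTime Pool.Agent.Lib.Pa7c826 Pool.Agent.Lib.Pa7c826t
open Pool.Agent.Lib.SubBisX.Tab Pool.Agent.Lib.SubBisX.Tab.TabAux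
open Pool.Agent.Lib.SubBisB.BTab

namespace PolyAux

/-! ### Copies -/

theorem og_lt {n a κ y : ℕ} (h : y < κ * a) : og n a κ y = y % a := if_pos h

theorem og_ge {n a κ y : ℕ} (h : ¬ y < κ * a) : og n a κ y = a + (y - κ * a) % (n - a) := if_neg h

theorem og_lt_iff {n a κ y : ℕ} : og n a κ y < a ↔ y < κ * a := by
  constructor
  · intro h
    by_contra h1
    rw [og_ge h1] at h
    omega
  · intro h
    rw [og_lt h]
    refine Nat.mod_lt _ (Nat.pos_of_ne_zero fun h0 => ?_)
    rw [h0, Nat.mul_zero] at h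
    exact Nat.not_lt_zero _ h

theorem adjK_symm {n a κ : ℕ} {adj : ℕ → ℕ → Bool} (hs : ∀ u v, adj u v = adj v u) (u v : ℕ) :
    adjK n a κ adj u v = adjK n a κ adj v u := hs _ _

theorem adjK_bip {n a κ : ℕ} {adj : ℕ → ℕ → Bool}
    (hbip : ∀ u v, adj u v = true → (u < a ↔ ¬ v < a)) (u v : ℕ)
    (h : adjK n a κ adj u v = true) : u < κ * a ↔ ¬ v < κ * a := by
  have h1 := hbip _ _ h
  rwa [og_lt_iff, og_lt_iff] at h1

theorem SC_subset (n a κ : ℕ) (C W X : Finset ℕ) : SC n a κ C W X ⊆ range (κ * n) :=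
  filter_subset _ _

/-- The matching number depends on the adjacency of the vertices of `S` only. -/
theorem nu_congr {n a : ℕ} {adj adj' : ℕ → ℕ → Bool} {S : Finset ℕ} (hS : S ⊆ range n)
    (hs : ∀ u v, adj u v = adj v u) (hbip : ∀ u v, adj u v = true → (u < a ↔ ¬ v < a))
    (hs' : ∀ u v, adj' u v = adj' v u) (hbip' : ∀ u v, adj' u v = true → (u < a ↔ ¬ v < a))
    (h : ∀ u ∈ S, ∀ v ∈ S, adj u v = adj' u v) : nu n a adj S = nu n a adj' S := by
  obtain ⟨J, hJ, hc, hI⟩ := nu_indep hS hs hbip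
  obtain ⟨J', hJ', hc', hI'⟩ := nu_indep hS hs' hbip'
  have h1 := indep_nu hS hs' hbip' hJ fun u hu v hv => by
    rw [← h u (hJ hu) v (hJ hv)]
    exact hI u hu v hv
  have h2 := indep_nu hS hs hbip hJ' fun u hu v hv => by
    rw [h u (hJ' hu) v (hJ' hv)]
    exact hI' u hu v hv
  omega

/-! ### The code of the graph with copies -/

/-- the code of the graph with `κ` copies of every vertex -/
def blow (κ : ℕ) (w : List Bool) : List Bool :=
  inCode (mkGraph (κ * aOf w) (κ * bOf w) fun i j =>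
    adjOf w (i % aOf w) (aOf w + j % bOf w)) 0

theorem aOf_blow (κ : ℕ) (w : List Bool) : aOf (blow κ w) = κ * aOf w := aOf_inCode _ _

theorem bOf_blow (κ : ℕ) (w : List Bool) : bOf (blow κ w) = κ * bOf w := bOf_inCode _ _

theorem nOf_blow (κ : ℕ) (w : List Bool) : nOf (blow κ w) = κ * nOf w := by
  unfold nOf
  rw [aOf_blow, bOf_blow, Nat.mul_add]

theorem bip_adjOf (w : List Bool) (u v : ℕ) (h : adjOf w u v = true) :
    u < aOf w ↔ ¬ v < aOf w := by
  have := adjOf_bip h
  omega

theorem adjOf_blow_lr {κ : ℕ} {w : List Bool} {u v : ℕ} (hu : u < κ * aOf w)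
    (hv : κ * aOf w ≤ v) (hv' : v < κ * aOf w + κ * bOf w) :
    adjOf (blow κ w) u v = adjK (nOf w) (aOf w) κ (adjOf w) u v := by
  have h1 := adjOf_lr (mkGraph (κ * aOf w) (κ * bOf w) fun i j =>
    adjOf w (i % aOf w) (aOf w + j % bOf w)) 0
    ⟨u, hu⟩ ⟨v - κ * aOf w, by show v - κ * aOf w < κ * bOf w; omega⟩
  have h2 : (mkGraph (κ * aOf w) (κ * bOf w) fun i j =>
      adjOf w (i % aOf w) (aOf w + j % bOf w)).a + (v - κ * aOf w) = v := by
    show κ * aOf w + (v - κ * aOf w) = v
    omega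
  simp only at h1
  rw [h2] at h1
  unfold blow
  rw [h1]
  unfold adjK
  have e : nOf w - aOf w = bOf w := by
    unfold nOf
    omega
  rw [og_lt hu, og_ge (by omega), e]
  rfl

theorem adjOf_blow {κ : ℕ} {w : List Bool} {u v : ℕ} (hu : u < κ * nOf w) (hv : v < κ * nOf w) :
    adjOf (blow κ w) u v = adjK (nOf w) (aOf w) κ (adjOf w) u v := by
  have e : κ * nOf w = κ * aOf w + κ * bOf w := by
    unfold nOf
    rw [Nat.mul_add]
  rw [e] at hu hv
  by_cases h1 : u < κ * aOf w
  · by_cases h2 : v < κ * aOf w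
    · have e1 : adjOf (blow κ w) u v = false := by
        by_contra h
        rw [Bool.not_eq_false] at h
        have h3 := bip_adjOf _ _ _ h
        rw [aOf_blow] at h3
        omega
      have e2 : adjK (nOf w) (aOf w) κ (adjOf w) u v = false := by
        by_contra h
        rw [Bool.not_eq_false] at h
        have h3 := adjK_bip (bip_adjOf w) _ _ h
        omega
      rw [e1, e2]
    · exact adjOf_blow_lr h1 (by omega) hv
  · by_cases h2 : v < κ * aOf w
    · rw [adjOf_symm, adjOf_blow_lr h2 (by omega) hu]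
      exact adjK_symm (adjOf_symm w) v u
    · have e1 : adjOf (blow κ w) u v = false := by
        by_contra h
        rw [Bool.not_eq_false] at h
        have h3 := bip_adjOf _ _ _ h
        rw [aOf_blow] at h3
        omega
      have e2 : adjK (nOf w) (aOf w) κ (adjOf w) u v = false := by
        by_contra h
        rw [Bool.not_eq_false] at h
        have h3 := adjK_bip (bip_adjOf w) _ _ h
        omega
      rw [e1, e2]

theorem cnC_blow (κ : ℕ) (w : List Bool) (C W X : Finset ℕ) :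
    nu (nOf (blow κ w)) (aOf (blow κ w)) (adjOf (blow κ w))
      (SC (nOf w) (aOf w) κ C W X) = cnC (nOf w) (aOf w) (adjOf w) κ C W X := by
  unfold cnC
  rw [nOf_blow, aOf_blow]
  refine nu_congr (SC_subset _ _ _ _ _ _) (adjOf_symm _) (fun u v h => ?_)
    (adjK_symm (adjOf_symm w)) (adjK_bip (bip_adjOf w)) (fun u hu v hv => ?_)
  · have h1 := bip_adjOf _ _ _ h
    rwa [aOf_blow] at h1
  · exact adjOf_blow (mem_range.1 (SC_subset _ _ _ _ _ _ hu))
      (mem_range.1 (SC_subset _ _ _ _ _ _ hv))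

/-! ### Polynomial time -/

section poly

variable {α : Type*} {D : α → Prop} {ctx : List (α → List Bool)}

theorem poly_rk {n v : α → ℕ} {C : α → Finset ℕ} (hn : PolyN D ctx n) (hC : PolyS D ctx n C)
    (hv : PolyN D ctx v) : PolyN D ctx (fun x => rk (C x) (v x)) := by
  have L := last (D := D) (ctx := ctx) (n := n)
  refine (PolyS.card hn (PolyS.filter hn hC (PolyB.lt L (upN (n := n) hv)))).congr
    (fun x _ => ?_)
  unfold rk
  simp only [decide_eq_true_eq]

theorem poly_cs {n i : α → ℕ} {C : α → Finset ℕ} (hn : PolyN D ctx n) (hC : PolyS D ctx n C)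
    (hi : PolyN D ctx i) : PolyN D ctx (fun x => cs (n x) (C x) (i x)) := by
  have n1 := upN (n := n) hn
  have C1 := hC.up (m := n)
  have V1 := last (D := D) (ctx := ctx) (n := n)
  have L2 := last (D := fun p : α × ℕ => D p.1 ∧ p.2 < n p.1)
    (ctx := PolyTime.lift ctx ++ [fun p => un p.2]) (n := fun p : α × ℕ => n p.1)
  have V2 := upN (n := fun p : α × ℕ => n p.1) V1
  have c1 := PolyS.card n1 (PolyS.filter n1 C1 (PolyB.le L2 V2))
  refine (PolyS.card hn (PolyS.filter hn (PolyS.range hn)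
    (PolyB.le c1 (upN (n := n) hi)))).congr (fun x _ => ?_)
  unfold cs
  simp only [decide_eq_true_eq]

theorem poly_og {n a κ y : α → ℕ} (hn : PolyN D ctx n) (ha : PolyN D ctx a)
    (hκ : PolyN D ctx κ) (hy : PolyN D ctx y) :
    PolyN D ctx (fun x => og (n x) (a x) (κ x) (y x)) := by
  refine (PolyN.ite (PolyB.lt hy (hκ.mul ha)) (modz hy ha)
    (ha.add (modz (PolyN.sub hy (hκ.mul ha)) (PolyN.sub hn ha)))).congr (fun x _ => ?_)
  unfold og
  simp only [decide_eq_true_eq]

theorem poly_nc {n a κ y : α → ℕ} (hn : PolyN D ctx n) (ha : PolyN D ctx a)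
    (hκ : PolyN D ctx κ) (hy : PolyN D ctx y) :
    PolyN D ctx (fun x => nc (n x) (a x) (κ x) (y x)) := by
  refine (PolyN.ite (PolyB.lt hy (hκ.mul ha)) (divz hy ha)
    (divz (PolyN.sub hy (hκ.mul ha)) (PolyN.sub hn ha))).congr (fun x _ => ?_)
  unfold nc
  simp only [decide_eq_true_eq]

theorem poly_SC {n a κ nW kX : α → ℕ} {C W X : α → Finset ℕ} (hn : PolyN D ctx n)
    (ha : PolyN D ctx a) (hκ : PolyN D ctx κ) (hC : PolyS D ctx n C) (hW : PolyS D ctx nW W)
    (hX : PolyS D ctx kX X) :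
    PolyS D ctx (fun x => κ x * n x)
      (fun x => SC (n x) (a x) (κ x) (C x) (W x) (X x)) := by
  have hN := hκ.mul hn
  let N : α → ℕ := fun x => κ x * n x
  have n1 := upN (n := N) hn
  have a1 := upN (n := N) ha
  have κ1 := upN (n := N) hκ
  have C1 := hC.up (m := N)
  have W1 := hW.up (m := N)
  have X1 := hX.up (m := N)
  have y1 := last (D := D) (ctx := ctx) (n := N)
  have o1 := poly_og n1 a1 κ1 y1
  have r1 := poly_rk n1 C1 o1
  have hc := PolyS.mem C1 o1
  have hw := PolyS.mem W1 o1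
  have hx := PolyS.mem X1 r1
  have hl := PolyB.lt y1 (κ1.mul a1)
  have h0 := PolyB.natEq (poly_nc n1 a1 κ1 y1) (PolyN.const 0)
  refine (PolyS.filter hN (PolyS.range hN) (hw.and ((hc.and ((hl.and hx).or
    (hl.not.and hx.not))).or (hc.not.and h0)))).congr (fun x _ => ?_)
  unfold SC
  refine filter_congr fun y _ => ?_
  by_cases hC : og (n x) (a x) (κ x) y ∈ C x <;> by_cases hl : y < κ x * a x <;>
    simp [hC, hl]

/-- **The set function of the sites in polynomial time.** -/
theorem poly_cnC {w : α → List Bool} {κ nW kX : α → ℕ} {C W X : α → Finset ℕ}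
    (hw : PolyC D ctx w) (hκ : PolyN D ctx κ) (hC : PolyS D ctx (fun x => nOf (w x)) C)
    (hW : PolyS D ctx nW W) (hX : PolyS D ctx kX X) :
    PolyN D ctx (fun x => cnC (nOf (w x)) (aOf (w x)) (adjOf (w x)) (κ x) (C x) (W x) (X x)) := by
  have ha := poly_aOf hw
  have hb := poly_bOf hw
  have hn := poly_nOf hw
  have hbl : PolyC D ctx (fun x => blow (κ x) (w x)) := by
    refine poly_inCode (F := fun x i j => adjOf (w x) (i % aOf (w x)) (aOf (w x) + j % bOf (w x)))
      (hκ.mul ha) (hκ.mul hb) (PolyN.const 0) ?_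
    let n1 : α → ℕ := fun x => κ x * aOf (w x)
    let n2 : α × ℕ → ℕ := fun p => κ p.1 * bOf (w p.1)
    have A1 := upN (n := n1) ha
    have B1 := upN (n := n1) hb
    have W1 := up (n := n1) hw
    have I1 := last (D := D) (ctx := ctx) (n := n1)
    have A2 := upN (n := n2) A1
    have B2 := upN (n := n2) B1
    have W2 := up (n := n2) W1
    have I2 := upN (n := n2) I1
    have J2 := last (D := fun p : α × ℕ => D p.1 ∧ p.2 < n1 p.1)
      (ctx := PolyTime.lift ctx ++ [fun p : α × ℕ => un p.2]) (n := n2)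
    exact poly_adj W2 (modz I2 A2) (A2.add (modz J2 B2))
  have hS : PolyS D ctx (fun x => nOf (blow (κ x) (w x)))
      (fun x => SC (nOf (w x)) (aOf (w x)) (κ x) (C x) (W x) (X x)) := by
    have h1 := poly_SC hn ha hκ hC hW hX
    simp only [nOf_blow]
    exact h1
  exact (poly_nu hbl hS).congr (fun x _ => cnC_blow _ _ _ _ _)

end poly

/-! ### The estimate -/

theorem neg_ediv_nat (x den : ℕ) :
    (-(x : ℤ)) / (den : ℤ) = -(((x + den - 1) / den : ℕ) : ℤ) := by
  rcases Nat.eq_zero_or_pos den with h0 | h0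
  · subst h0
    rw [Nat.div_zero, Nat.cast_zero, Int.ediv_zero]
    rfl
  · set c := (x + den - 1) / den with hc
    have h1 : c * den ≤ x + den - 1 := Nat.div_mul_le_self _ _
    have h2 : x + den - 1 < (c + 1) * den := by
      rw [mul_comm]
      exact Nat.lt_mul_div_succ _ h0
    have h3 : (c + 1) * den = c * den + den := by ring
    have h4 : x ≤ c * den := by omega
    have h5 : (-(x : ℤ)) = ((c * den - x : ℕ) : ℤ) + (-(c : ℤ)) * (den : ℤ) := by
      push_cast [Nat.cast_sub h4]
      ring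
    rw [h5, Int.add_mul_ediv_right _ _ (by exact_mod_cast h0.ne')]
    have h6 : ((c * den - x : ℕ) : ℤ) / (den : ℤ) = 0 := by
      refine Int.ediv_eq_zero_of_lt (Int.natCast_nonneg _) ?_
      have : c * den - x < den := by omega
      exact_mod_cast this
    rw [h6, zero_add]

theorem eC_nat (C W : Finset ℕ) (P N den : ℕ) :
    eC C W ((P : ℤ) - N) den = if (W.filter fun v => v ∈ C).card = 0 then W.card else
      if N ≤ P then (W.card + (P - N) / den) - C.card
      else W.card - (C.card + ((N - P) + den - 1) / den) := by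
  unfold eC
  have e : W ∩ C = W.filter fun v => v ∈ C := by
    ext v
    rw [mem_inter, mem_filter]
  rw [e]
  by_cases h : (W.filter fun v => v ∈ C) = ∅
  · rw [if_pos h, if_pos (by rw [h, card_empty])]
  · rw [if_neg h, if_neg (by rw [card_eq_zero]; exact h)]
    split_ifs with h1
    · obtain ⟨d, rfl⟩ := Nat.exists_eq_add_of_le h1
      have e1 : (((N + d : ℕ) : ℤ) - N) / (den : ℤ) = ((d / den : ℕ) : ℤ) := by
        push_cast
        rw [add_sub_cancel_left]
      rw [e1, Nat.add_sub_cancel_left]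
      omega
    · have e2 : ((P : ℤ) - N) = -(((N - P : ℕ) : ℕ) : ℤ) := by
        omega
      rw [e2, neg_ediv_nat]
      omega

end PolyAux

open PolyAux SubBisB.BTab.SeedAuxB

theorem GF_cnC (n a : ℕ) (adj : ℕ → ℕ → Bool) (κ : ℕ) (C W : Finset ℕ) :
    (GF (cnC n a adj κ C W) : Finset (Fin C.card) → ℤ) = FC n a adj κ C W := rfl

universe u

variable {α : Type u} {Dm : α → Prop} {ctx : List (α → List Bool)}

/-- The set function of the sites, in every context. -/
theorem pg_cnC {w : α → List Bool} {κ nW : α → ℕ} {C W : α → Finset ℕ}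
    (hw : PolyC Dm ctx w) (hκ : PolyN Dm ctx κ) (hC : PolyS Dm ctx (fun x => nOf (w x)) C)
    (hW : PolyS Dm ctx nW W) :
    PG Dm ctx (fun x => (C x).card)
      (fun x => cnC (nOf (w x)) (aOf (w x)) (adjOf (w x)) (κ x) (C x) (W x)) :=
  fun _ _ _ π _ h1 lf hS => poly_cnC (lf _ hw) (lf _ hκ)
    ⟨lf _ hC.1, fun b hb => hC.2 (π b) (h1 b hb)⟩
    ⟨lf _ hW.1, fun b hb => hW.2 (π b) (h1 b hb)⟩ hS

/-- The estimate of the logarithm of the number of independent subsets of `W`, computed from the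
random bits `r` in polynomial time. -/
theorem poly_eVC {w : α → List Bool} {C W : α → Finset ℕ} {μ ν lam s c M T κ K den nW : α → ℕ}
    {r : α → List Bool} (hw : PolyC Dm ctx w) (hC' : PolyS Dm ctx (fun x => nOf (w x)) C)
    (hnW : PolyN Dm ctx nW) (hW : PolyS Dm ctx nW W)
    (hμ : PolyN Dm ctx μ) (hm : PolyN Dm ctx (fun a => 2 ^ μ a)) (hν : PolyN Dm ctx ν)
    (hN : PolyN Dm ctx (fun a => 2 ^ ν a)) (hlam : PolyN Dm ctx lam)
    (hB : PolyN Dm ctx (fun a => 2 ^ lam a)) (hs : PolyN Dm ctx s) (hc : PolyN Dm ctx c)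
    (hM : PolyN Dm ctx M) (hT : PolyN Dm ctx T) (hκ : PolyN Dm ctx κ) (hK : PolyN Dm ctx K)
    (hden : PolyN Dm ctx den)
    (hC : PolyN Dm ctx (fun x => (2 ^ lam x * s x * 2 ^ μ x + 1) ^ T x)) (hr : PolyC Dm ctx r) :
    PolyN Dm ctx (fun a => eC (C a) (W a)
      (∑ k : Fin (K a), VB (c a) (M a)
        (FC (nOf (w a)) (aOf (w a)) (adjOf (w a)) (κ a) (C a) (W a))
        (T a) (decSB (μ a) (ν a) (lam a) (C a).card (s a) (T a) (K a)
          (fun i => (r a).getD i false) k)) (den a)) := by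
  have hn := poly_nOf hw
  have hk := PolyS.card hn hC'
  have h : HEG Dm ctx (fun a => (C a).card)
      (fun a => cnC (nOf (w a)) (aOf (w a)) (adjOf (w a)) (κ a) (C a) (W a))
      μ ν lam s c M T r :=
    ⟨hk, pg_cnC hw hκ hC' hW, hμ, hm, hν, hN, hlam, hB, hs, hc, hM, hT, hC, hr⟩
  have P := poly_totP h hK
  have N := poly_totN h hK
  have c1 := PolyS.card hnW hW
  have L1 := last (D := Dm) (ctx := ctx) (n := nW)
  have F := PolyS.card hnW (PolyS.filter hnW hW (PolyS.mem (hC'.up (m := nW)) L1))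
  have B1 := PolyB.natEq F (PolyN.const 0)
  have B2 := PolyB.le N P
  have E1 := PolyN.sub (c1.add (divz (PolyN.sub P N) hden)) hk
  have E2 := PolyN.sub c1 (hk.add (divz (PolyN.sub ((PolyN.sub N P).add hden)
    (PolyN.const 1)) hden))
  refine (PolyN.ite B1 c1 (PolyN.ite B2 E1 E2)).congr (fun a haD => ?_)
  rw [← GF_cnC, totG_eq, eC_nat]
  simp only [decide_eq_true_eq]

end Pool.Agent.Lib.SubBisC
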