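import Pool.Agent.Lib.P7sG.Mach
import Pool.Agent.Lib.SubBisC.CPoly

/-!
The process with any computable children is computable in polynomial time; the children `chC`.
-/

set_option autoImplicit false

namespace Pool.Agent.Lib.SubBisC

open Finset Pool.Agent.Lib.PolyTime Pool.Agent.Lib.Pa7c826 Pool.Agent.Lib.Pa7c826t
open Pool.Agent.Lib.P7sG Pool.Agent.Lib.SubBisC.PolyAux

/-- The level goes up by one and vertices are only removed. -/
structure Down (ch : ℕ × Finset ℕ → Bool → ℕ × Finset ℕ) : Prop where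
  fst : ∀ X b, (ch X b).1 = X.1 + 1
  snd : ∀ X b, (ch X b).2 ⊆ X.2

theorem runC_down {ch : ℕ × Finset ℕ → Bool → ℕ × Finset ℕ} (h : Down ch)
    {e : ℕ × Finset ℕ → ℕ} {cap : ℕ} {coin : ℕ → ℕ → Bool → ℕ → Bool} {n K : ℕ} (j : ℕ) :
    ∀ X ∈ runC ch e cap coin (List.replicate K (0, range n)) j,
      X.1 = j ∧ X.2 ⊆ range n := by
  refine runC_inv (P := fun (j : ℕ) (X : ℕ × Finset ℕ) => X.1 = j ∧ X.2 ⊆ range n) ?_ ?_ j
  · rintro j X b ⟨h1, h2⟩
    exact ⟨by rw [h.fst, h1], (h.snd _ _).trans h2⟩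
  · intro X hX
    rw [(List.mem_replicate.1 hX).2]
    exact ⟨rfl, subset_rfl⟩

section

variable {α : Type} {D : α → Prop} {ctx : List (α → List Bool)}
  {n aN cap dm off K : α → ℕ} {ch : α → ℕ × Finset ℕ → Bool → ℕ × Finset ℕ}
  {tape : α → List Bool} {e : α → ℕ × Finset ℕ → ℕ}

/-- The masks of the children are computable from the level and the mask. -/
def CComp (D : α → Prop) (ctx : List (α → List Bool)) (n aN : α → ℕ)
    (ch : α → ℕ × Finset ℕ → Bool → ℕ × Finset ℕ) : Prop :=
  ∀ b, PolyC (fun p : α × (ℕ × Finset ℕ) => D p.1 ∧ p.2.1 < aN p.1 ∧ p.2.2 ⊆ range (n p.1))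
    (PolyTime.lift ctx ++ [fun p => un p.2.1, fun p => msk (n p.1) p.2.2])
    (fun p => msk (n p.1) (ch p.1 p.2 b).2)

theorem useC (hc : CComp D ctx n aN ch) (hd : ∀ a, Down (ch a)) {β : Type} {D' : β → Prop}
    {ctx' : List (β → List Bool)} (π : β → α) {j : β → ℕ} {W : β → Finset ℕ} (b : Bool)
    (hD : ∀ x, D' x → D (π x)) (hx : ∀ f ∈ ctx, PolyC D' ctx' (fun x => f (π x)))
    (hj : PolyN D' ctx' j) (hj' : ∀ x, D' x → j x < aN (π x))
    (hW : PolyS D' ctx' (fun x => n (π x)) W) :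
    PolyS D' ctx' (fun x => n (π x)) (fun x => (ch (π x) (j x, W x) b).2) := by
  refine ⟨?_, fun x h => (Down.snd (hd _) _ _).trans (hW.2 x h)⟩
  refine use (β := β) (hc b) (fun x => (π x, (j x, W x)))
    (fun x h => ⟨hD x h, hj' x h, hW.2 x h⟩) ?_
  intro f hf
  simp only [PolyTime.lift, List.mem_append, List.mem_map, List.mem_cons, List.not_mem_nil,
    or_false] at hf
  rcases hf with ⟨g, hg, rfl⟩ | rfl | rfl
  · exact hx g hg
  · exact hj
  · exact hW.1

/-- The string coding the copies of one child. -/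
def blkD (n cap dm off : ℕ) (ch : ℕ × Finset ℕ → Bool → ℕ × Finset ℕ) (tape : List Bool)
    (e : ℕ × Finset ℕ → ℕ) (j k : ℕ) (W : Finset ℕ) (b : Bool) : List Bool :=
  (List.range (min cap (cp (e (j, W)) (e (j + 1, (ch (j, W) b).2))
    (coinT tape off cap dm j k b)))).flatMap fun _ => true :: msk n (ch (j, W) b).2

/-- The population after `j` levels. -/
def popD (n cap dm off K : ℕ) (ch : ℕ × Finset ℕ → Bool → ℕ × Finset ℕ) (tape : List Bool)
    (e : ℕ × Finset ℕ → ℕ) (j : ℕ) : List (ℕ × Finset ℕ) :=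
  runC ch e cap (coinT tape off cap dm) (List.replicate K (0, range n)) j

theorem enc_popD_succ (n cap dm off K : ℕ) (ch : ℕ × Finset ℕ → Bool → ℕ × Finset ℕ)
    (hd : Down ch) (tape : List Bool) (e : ℕ × Finset ℕ → ℕ) (j : ℕ) (L : List (ℕ × Finset ℕ))
    (hL : popD n cap dm off K ch tape e j = L) :
    ((List.range L.length).flatMap fun k =>
        blkD n cap dm off ch tape e j k (L.getD k (0, ∅)).2 false ++
        blkD n cap dm off ch tape e j k (L.getD k (0, ∅)).2 true).take (cap * (n + 1)) =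
      enc n (popD n cap dm off K ch tape e (j + 1)) := by
  symm
  subst hL
  rw [popD, runC, ← enc_take, stepC_range _ (0, ∅), enc_flatMap]
  change List.take _ ((List.range (popD n cap dm off K ch tape e j).length).flatMap _) = _
  congr 1
  rw [List.flatMap_def, List.flatMap_def]
  congr 1
  refine List.map_congr_left fun k hk => ?_
  rw [List.mem_range] at hk
  have h1 : ((popD n cap dm off K ch tape e j).getD k (0, ∅)).1 = j := by
    rw [List.getD_eq_getElem _ _ hk]
    exact (runC_down hd j _ (List.getElem_mem hk)).1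
  have h2 : ((popD n cap dm off K ch tape e j).getD k (0, ∅)) =
      (j, ((popD n cap dm off K ch tape e j).getD k (0, ∅)).2) := Prod.ext h1 rfl
  have h3 : ∀ b, ch (j, ((popD n cap dm off K ch tape e j).getD k (0, ∅)).2) b =
      (j + 1, (ch (j, ((popD n cap dm off K ch tape e j).getD k (0, ∅)).2) b).2) :=
    fun b => Prod.ext (hd.fst _ _) rfl
  change enc n (offsC ch e cap (coinT tape off cap dm j) (0 + k)
    ((popD n cap dm off K ch tape e j).getD k (0, ∅))) = _
  rw [h2, offsC, enc_append, enc_replicate, enc_replicate, Nat.zero_add, blkD, blkD, ← h3, ← h3]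

/-- **The population is computable in polynomial time.** -/
theorem poly_popD (hn : PolyN D ctx n) (haN : PolyN D ctx aN) (hcap : PolyN D ctx cap)
    (hdm : PolyN D ctx dm) (hoff : PolyN D ctx off) (hK : PolyN D ctx K)
    (htape : PolyC D ctx tape) (hKc : ∀ a, D a → K a ≤ cap a)
    (hd : ∀ a, Down (ch a)) (hc : CComp D ctx n aN ch) (he : EComp D ctx n aN e) :
    PolyC D ctx (fun a => enc (n a)
      (popD (n a) (cap a) (dm a) (off a) (K a) (ch a) (tape a) (e a) (aN a))) := by
  obtain ⟨pn, hpn⟩ := PolyC.length_le hn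
  obtain ⟨pc, hpc⟩ := PolyC.length_le hcap
  have hlen : ∀ a, D a → ∀ j,
      (popD (n a) (cap a) (dm a) (off a) (K a) (ch a) (tape a) (e a) j).length ≤ cap a :=
    fun a h j => runC_length_le (by rw [List.length_replicate]; exact hKc a h) j
  have hmem : ∀ a j k, k < (popD (n a) (cap a) (dm a) (off a) (K a) (ch a) (tape a)
      (e a) j).length → ((popD (n a) (cap a) (dm a) (off a) (K a) (ch a) (tape a)
      (e a) j).getD k (0, ∅)).2 ⊆ range (n a) := by
    intro a j k hk
    rw [List.getD_eq_getElem _ _ hk]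
    exact (runC_down (hd a) j _ (List.getElem_mem hk)).2
  refine PolyC.natRec (fun a j => enc (n a)
      (popD (n a) (cap a) (dm a) (off a) (K a) (ch a) (tape a) (e a) j)) haN ?_ ?_
      ⟨pc * (pn + 1), fun a hD j hj => ?_⟩
  · have h1 := poly_rep hK (PolyC.cons true (PolyS.range hn).1)
    refine h1.congr (fun a _ => ?_)
    rw [popD, runC, enc_replicate]
  · set P : α × ℕ → List (ℕ × Finset ℕ) := fun p => popD (n p.1) (cap p.1) (dm p.1) (off p.1)
      (K p.1) (ch p.1) (tape p.1) (e p.1) p.2 with hP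
    set D1 : α × ℕ → Prop := fun p => D p.1 ∧ p.2 < aN p.1 with hD1
    set ctx1 : List (α × ℕ → List Bool) :=
      PolyTime.lift ctx ++ [fun p => un p.2, fun p => enc (n p.1) (P p)] with hctx1
    have N1 : PolyN D1 ctx1 (fun p => n p.1) := up2 hn
    have C1 : PolyN D1 ctx1 (fun p => cap p.1) := up2 hcap
    have M1 : PolyN D1 ctx1 (fun p => dm p.1) := up2 hdm
    have O1 : PolyN D1 ctx1 (fun p => off p.1) := up2 hoff
    have T1 : PolyC D1 ctx1 (fun p => tape p.1) := up2 htape
    have J1 : PolyN D1 ctx1 (fun p => p.2) := PolyC.var (by simp [hctx1])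
    have F1 : PolyC D1 ctx1 (fun p => enc (n p.1) (P p)) := PolyC.var (by simp [hctx1])
    have c1 : ∀ f ∈ ctx, PolyC D1 ctx1 (fun p => f p.1) := fun f hf =>
      up2 (PolyC.var hf)
    have cnt1 : PolyN D1 ctx1 (fun p => (P p).length) :=
      (PolyN.div (PolyN.length F1) N1.succ (fun _ _ => Nat.succ_pos _)).congr (fun p _ => by
        rw [enc_length, Nat.mul_div_cancel _ (Nat.succ_pos _)])
    -- the second level
    set D2 : (α × ℕ) × ℕ → Prop := fun q => D1 q.1 ∧ q.2 < (P q.1).length with hD2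
    set ctx2 : List ((α × ℕ) × ℕ → List Bool) :=
      PolyTime.lift ctx1 ++ [fun q => un q.2] with hctx2
    have N2 : PolyN D2 ctx2 (fun q => n q.1.1) := upN (n := fun p => (P p).length) N1
    have C2 : PolyN D2 ctx2 (fun q => cap q.1.1) := upN (n := fun p => (P p).length) C1
    have M2 : PolyN D2 ctx2 (fun q => dm q.1.1) := upN (n := fun p => (P p).length) M1
    have O2 : PolyN D2 ctx2 (fun q => off q.1.1) := upN (n := fun p => (P p).length) O1
    have T2 : PolyC D2 ctx2 (fun q => tape q.1.1) := up (n := fun p => (P p).length) T1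
    have J2 : PolyN D2 ctx2 (fun q => q.1.2) := upN (n := fun p => (P p).length) J1
    have F2 : PolyC D2 ctx2 (fun q => enc (n q.1.1) (P q.1)) := up (n := fun p => (P p).length) F1
    have L2 : PolyN D2 ctx2 (fun q => q.2) :=
      last (n := fun p => (P p).length)
    have c2 : ∀ f ∈ ctx, PolyC D2 ctx2 (fun q => f q.1.1) := fun f hf =>
      up (n := fun p => (P p).length) (c1 f hf)
    have W2 : PolyS D2 ctx2 (fun q => n q.1.1) (fun q => ((P q.1).getD q.2 (0, ∅)).2) := by
      refine ⟨?_, fun q hq => hmem q.1.1 q.1.2 q.2 hq.2⟩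
      refine (PolyC.take (PolyC.drop F2 ((L2.mul N2.succ).succ)) N2).congr (fun q hq => ?_)
      exact enc_block _ _ _ hq.2 _
    have S2 : ∀ b : Bool, PolyS D2 ctx2 (fun q => n q.1.1)
        (fun q => (ch q.1.1 (q.1.2, ((P q.1).getD q.2 (0, ∅)).2) b).2) := fun b =>
      useC hc hd (fun q : (α × ℕ) × ℕ => q.1.1) b (fun q hq => hq.1.1) c2 J2
        (fun q hq => hq.1.2) W2
    have E0 : PolyN D2 ctx2 (fun q => e q.1.1 (q.1.2, ((P q.1).getD q.2 (0, ∅)).2)) :=
      useE he (fun q : (α × ℕ) × ℕ => q.1.1) (fun q hq => hq.1.1) c2 J2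
        (fun q hq => hq.1.2.le) W2
    have E1 : ∀ b : Bool, PolyN D2 ctx2 (fun q => e q.1.1 (q.1.2 + 1,
        (ch q.1.1 (q.1.2, ((P q.1).getD q.2 (0, ∅)).2) b).2)) := fun b =>
      useE he (fun q : (α × ℕ) × ℕ => q.1.1) (fun q hq => hq.1.1) c2 J2.succ
        (fun q hq => hq.1.2) (S2 b)
    have B2 : ∀ b : Bool, PolyC D2 ctx2 (fun q => blkD (n q.1.1) (cap q.1.1) (dm q.1.1)
        (off q.1.1) (ch q.1.1) (tape q.1.1) (e q.1.1) q.1.2 q.2
        ((P q.1).getD q.2 (0, ∅)).2 b) := fun b =>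
      poly_rep (poly_cp C2 E0 (E1 b) (poly_coinT b T2 O2 C2 M2 J2 L2 (PolyN.sub E0 (E1 b))))
        (PolyC.cons true (S2 b).1)
    have R1 := PolyC.take (PolyC.flatMap_range cnt1 (PolyC.append (B2 false) (B2 true)))
      (C1.mul N1.succ)
    have key : ∀ p : α × ℕ, ((List.range (P p).length).flatMap fun k =>
        blkD (n p.1) (cap p.1) (dm p.1) (off p.1) (ch p.1) (tape p.1) (e p.1) p.2 k
          ((P p).getD k (0, ∅)).2 false ++
        blkD (n p.1) (cap p.1) (dm p.1) (off p.1) (ch p.1) (tape p.1) (e p.1) p.2 k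
          ((P p).getD k (0, ∅)).2 true).take (cap p.1 * (n p.1 + 1)) =
        enc (n p.1) (popD (n p.1) (cap p.1) (dm p.1) (off p.1) (K p.1) (ch p.1) (tape p.1)
          (e p.1) (p.2 + 1)) := fun p =>
      enc_popD_succ (n p.1) (cap p.1) (dm p.1) (off p.1) (K p.1) (ch p.1) (hd p.1) (tape p.1)
        (e p.1) p.2 (P p) rfl
    exact R1.congr (fun p _ => key p)
  · have h1 := hpn a hD
    have h2 := hpc a hD
    rw [un_length] at h1 h2
    rw [enc_length]
    simp only [Polynomial.eval_mul, Polynomial.eval_add, Polynomial.eval_one]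
    exact Nat.mul_le_mul ((hlen a hD j).trans h2) (by omega)

/-- **The size of the final population is computable in polynomial time.** -/
theorem poly_countD (hn : PolyN D ctx n) (haN : PolyN D ctx aN) (hcap : PolyN D ctx cap)
    (hdm : PolyN D ctx dm) (hoff : PolyN D ctx off) (hK : PolyN D ctx K)
    (htape : PolyC D ctx tape) (hKc : ∀ a, D a → K a ≤ cap a)
    (hd : ∀ a, Down (ch a)) (hc : CComp D ctx n aN ch) (he : EComp D ctx n aN e) :
    PolyN D ctx (fun a => (runC (ch a) (e a) (cap a)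
      (coinT (tape a) (off a) (cap a) (dm a))
      (List.replicate (K a) (0, range (n a))) (aN a)).length) := by
  refine (PolyN.div (PolyN.length (poly_popD hn haN hcap hdm hoff hK htape hKc hd hc he)) hn.succ
    (fun _ _ => Nat.succ_pos _)).congr (fun a _ => ?_)
  rw [enc_length, Nat.mul_div_cancel _ (Nat.succ_pos _)]
  rfl

/-! ### The children `chC` -/

theorem down_chC (n : ℕ) (C : Finset ℕ) (adj : ℕ → ℕ → Bool) : Down (chC n C adj) :=
  ⟨fun _ _ => rfl, fun _ _ => filter_subset _ _⟩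

theorem cComp_chC {w : α → List Bool} {C : α → Finset ℕ} (hw : PolyC D ctx w)
    (hC : PolyS D ctx (fun x => nOf (w x)) C) (aN : α → ℕ) :
    CComp D ctx (fun x => nOf (w x) + nOf (w x)) aN
      (fun x => chC (nOf (w x)) (C x) (adjOf (w x))) := by
  intro b
  set D' : α × (ℕ × Finset ℕ) → Prop := fun p => D p.1 ∧ p.2.1 < aN p.1 ∧
    p.2.2 ⊆ range (nOf (w p.1) + nOf (w p.1)) with hD'
  set ctx' : List (α × (ℕ × Finset ℕ) → List Bool) := PolyTime.lift ctx ++
    [fun p => un p.2.1, fun p => msk (nOf (w p.1) + nOf (w p.1)) p.2.2] with hctx'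
  have lft : ∀ {t : α → List Bool}, PolyC D ctx t → PolyC D' ctx' (fun p => t p.1) :=
    fun h => (PolyC.lift h (fun p hp => hp.1)).weakenRight _
  have w1 := lft hw
  have n1 := poly_nOf w1
  have C1 : PolyS D' ctx' (fun p => nOf (w p.1)) (fun p => C p.1) :=
    ⟨lft hC.1, fun p hp => hC.2 p.1 hp.1⟩
  have j1 : PolyN D' ctx' (fun p => p.2.1) := PolyC.var (by simp [hctx'])
  have W1 : PolyS D' ctx' (fun p => nOf (w p.1) + nOf (w p.1)) (fun p => p.2.2) :=
    ⟨PolyC.var (by simp [hctx']), fun p hp => hp.2.2⟩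
  have c1 := poly_cs n1 C1 j1
  let N : α × (ℕ × Finset ℕ) → ℕ := fun p => nOf (w p.1) + nOf (w p.1)
  have L := last (D := D') (ctx := ctx') (n := N)
  have w2 := up (n := N) w1
  have c2 := upN (n := N) c1
  have n2 := upN (n := N) n1
  have m1 := PolyS.mem (W1.up (m := N)) c2
  have A := poly_adj w2 c2 L
  have R := PolyS.filter (n1.add n1) W1
    ((m1.and ((PolyB.natEq L c2).not.and ((PolyB.const b).and A).not)).or
      (m1.not.and (PolyB.natEq L (n2.add c2)).not))
  refine R.1.congr (fun p _ => ?_)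
  congr 1
  show filter _ p.2.2 = _
  unfold chC
  refine filter_congr fun u _ => ?_
  by_cases hm : cs (nOf (w p.1)) (C p.1) p.2.1 ∈ p.2.2 <;> cases b <;> simp [hm]

end

end Pool.Agent.Lib.SubBisC
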