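import Pool.Agent.Lib.SubBisC.CDefs
import Pool.Agent.Lib.SubBisX.NuF

/-!
The set function of the sites of a vertex cover is submodular and its increments are between `-κ` and
`κ`; it is the minimum over the independent subsets `T'` of the set `T` of selected sites of the number of
vertices outside the cover with a neighbour in `T'` plus `κ |T \ T'|`.
-/

set_option autoImplicit false

namespace Pool.Agent.Lib.SubBisC

open Finset Pool.Agent.Lib.Pa7c826 Pool.Agent.Lib.Pa7c826t Pool.Agent.Lib.SubBisX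
open Pool.Agent.Lib.SubBisX.Node

variable {n a κ : ℕ} {adj : ℕ → ℕ → Bool} {C : Finset ℕ}

/-! ### Ranks -/

theorem rk_lt_rk {u v : ℕ} (hu : u ∈ C) (h : u < v) : rk C u < rk C v := by
  unfold rk
  refine card_lt_card ⟨fun x hx => ?_, fun hsub => ?_⟩
  · rw [mem_filter] at hx ⊢
    exact ⟨hx.1, hx.2.trans h⟩
  · have h1 := hsub (mem_filter.2 ⟨hu, h⟩)
    exact lt_irrefl u (mem_filter.1 h1).2

theorem rk_inj {u v : ℕ} (hu : u ∈ C) (hv : v ∈ C) (h : rk C u = rk C v) : u = v := by
  rcases lt_trichotomy u v with h1 | h1 | h1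
  · have := rk_lt_rk hu h1
    omega
  · exact h1
  · have := rk_lt_rk hv h1
    omega

theorem rk_lt_card {v : ℕ} (hv : v ∈ C) : rk C v < C.card := by
  unfold rk
  refine card_lt_card ⟨filter_subset _ _, fun hsub => ?_⟩
  exact lt_irrefl v (mem_filter.1 (hsub hv)).2

theorem card_filter_le_iff {u v : ℕ} (hv : v ∈ C) :
    (C.filter fun x => x ≤ u).card ≤ rk C v ↔ u < v := by
  constructor
  · intro h
    by_contra hcon
    have h1 : insert v (C.filter fun x => x < v) ⊆ C.filter fun x => x ≤ u := by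
      intro x hx
      rcases mem_insert.1 hx with rfl | hx
      · exact mem_filter.2 ⟨hv, by omega⟩
      · have := mem_filter.1 hx
        exact mem_filter.2 ⟨this.1, by omega⟩
    have h2 := card_le_card h1
    have h3 : v ∉ C.filter fun x => x < v := fun hx => lt_irrefl v (mem_filter.1 hx).2
    rw [card_insert_of_notMem h3] at h2
    unfold rk at h
    omega
  · intro h
    refine card_le_card fun x hx => ?_
    have := mem_filter.1 hx
    exact mem_filter.2 ⟨this.1, by omega⟩

theorem cs_rk (hC : C ⊆ range n) {v : ℕ} (hv : v ∈ C) : cs n C (rk C v) = v := by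
  unfold cs
  have h : ((range n).filter fun u => (C.filter fun x => x ≤ u).card ≤ rk C v) = range v := by
    ext u
    rw [mem_filter, mem_range, mem_range, card_filter_le_iff hv]
    have := mem_range.1 (hC hv)
    omega
  rw [h, card_range]

theorem image_rk : C.image (rk C) = range C.card := by
  refine eq_of_subset_of_card_le ?_ ?_
  · intro i hi
    obtain ⟨v, hv, rfl⟩ := mem_image.1 hi
    exact mem_range.2 (rk_lt_card hv)
  · rw [card_range, card_image_of_injOn fun u hu v hv h => rk_inj hu hv h]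

theorem exists_rk {i : ℕ} (hi : i < C.card) : ∃ v ∈ C, rk C v = i := by
  have h : i ∈ C.image (rk C) := by
    rw [image_rk]
    exact mem_range.2 hi
  obtain ⟨v, hv, hvi⟩ := mem_image.1 h
  exact ⟨v, hv, hvi⟩

theorem cs_mem (hC : C ⊆ range n) {i : ℕ} (hi : i < C.card) : cs n C i ∈ C := by
  obtain ⟨v, hv, rfl⟩ := exists_rk hi
  rw [cs_rk hC hv]
  exact hv

theorem rk_cs (hC : C ⊆ range n) {i : ℕ} (hi : i < C.card) : rk C (cs n C i) = i := by
  obtain ⟨v, hv, rfl⟩ := exists_rk hi
  rw [cs_rk hC hv]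

/-! ### Copies -/

theorem og_lt {y : ℕ} (hy : y < κ * a) : og n a κ y = y % a := if_pos hy

theorem og_ge {y : ℕ} (hy : ¬ y < κ * a) : og n a κ y = a + (y - κ * a) % (n - a) := if_neg hy

theorem a_pos_of {y : ℕ} (hy : y < κ * a) : 0 < a := by
  rcases Nat.eq_zero_or_pos a with h | h
  · rw [h, Nat.mul_zero] at hy
    omega
  · exact h

theorem og_lt_iff {y : ℕ} : og n a κ y < a ↔ y < κ * a := by
  by_cases h : y < κ * a
  · rw [og_lt h]
    exact iff_of_true (Nat.mod_lt _ (a_pos_of h)) h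
  · rw [og_ge h]
    exact iff_of_false (by omega) h

theorem adjK_symm (hs : ∀ u v, adj u v = adj v u) (u v : ℕ) :
    adjK n a κ adj u v = adjK n a κ adj v u := hs _ _

theorem adjK_bip (hbip : ∀ u v, adj u v = true → (u < a ↔ ¬ v < a)) (u v : ℕ)
    (h : adjK n a κ adj u v = true) : u < κ * a ↔ ¬ v < κ * a := by
  have h1 := hbip _ _ h
  rw [og_lt_iff, og_lt_iff] at h1
  exact h1

theorem og_nc_inj {y z : ℕ} (h1 : og n a κ y = og n a κ z) (h2 : nc n a κ y = nc n a κ z) :
    y = z := by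
  by_cases hy : y < κ * a
  · have hz : z < κ * a := by
      rw [← og_lt_iff (n := n)] at hy ⊢
      rwa [← h1]
    rw [og_lt hy, og_lt hz] at h1
    unfold nc at h2
    rw [if_pos hy, if_pos hz] at h2
    rw [← Nat.div_add_mod y a, ← Nat.div_add_mod z a, h1, h2]
  · have hz : ¬ z < κ * a := by
      rw [← og_lt_iff (n := n)] at hy ⊢
      rwa [← h1]
    rw [og_ge hy, og_ge hz] at h1
    unfold nc at h2
    rw [if_neg hy, if_neg hz] at h2
    have h3 : (y - κ * a) % (n - a) = (z - κ * a) % (n - a) := by omega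
    have h4 : y - κ * a = z - κ * a := by
      rw [← Nat.div_add_mod (y - κ * a) (n - a), ← Nat.div_add_mod (z - κ * a) (n - a), h2, h3]
    omega

theorem split_mul (han : a ≤ n) (κ : ℕ) : κ * n = κ * a + κ * (n - a) := by
  rw [← Nat.mul_add]
  congr 1
  omega

theorem nc_lt (han : a ≤ n) {y : ℕ} (hy : y < κ * n) : nc n a κ y < κ := by
  unfold nc
  split_ifs with h
  · exact Nat.div_lt_of_lt_mul (by rw [Nat.mul_comm]; exact h)
  · rw [split_mul han κ] at hy
    exact Nat.div_lt_of_lt_mul (by rw [Nat.mul_comm (n - a) κ]; omega)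

/-- the copy number `i` of the vertex `v` -/
def cpy (n a κ v i : ℕ) : ℕ := if v < a then v + a * i else κ * a + (v - a + (n - a) * i)

theorem cpy_lt_iff {v i : ℕ} (hi : i < κ) : cpy n a κ v i < κ * a ↔ v < a := by
  unfold cpy
  split_ifs with h
  · refine iff_of_true ?_ h
    calc v + a * i < a + a * i := by omega
      _ = a * (i + 1) := by ring
      _ ≤ a * κ := Nat.mul_le_mul_left _ hi
      _ = κ * a := Nat.mul_comm _ _
  · exact iff_of_false (by omega) h

theorem cpy_lt (han : a ≤ n) {v i : ℕ} (hv : v < n) (hi : i < κ) : cpy n a κ v i < κ * n := by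
  rw [split_mul han κ]
  by_cases h : v < a
  · have := (cpy_lt_iff (n := n) hi).2 h
    omega
  · unfold cpy
    rw [if_neg h]
    have h1 : v - a + (n - a) * i < κ * (n - a) := by
      calc v - a + (n - a) * i < (n - a) + (n - a) * i := by omega
        _ = (n - a) * (i + 1) := by ring
        _ ≤ (n - a) * κ := Nat.mul_le_mul_left _ hi
        _ = κ * (n - a) := Nat.mul_comm _ _
    omega

theorem og_cpy {v i : ℕ} (hv : v < n) (hi : i < κ) : og n a κ (cpy n a κ v i) = v := by
  by_cases h : v < a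
  · rw [og_lt ((cpy_lt_iff hi).2 h)]
    unfold cpy
    rw [if_pos h, Nat.add_mul_mod_self_left, Nat.mod_eq_of_lt h]
  · rw [og_ge (fun h1 => h ((cpy_lt_iff hi).1 h1))]
    unfold cpy
    rw [if_neg h, Nat.add_sub_cancel_left, Nat.add_mul_mod_self_left,
      Nat.mod_eq_of_lt (by omega)]
    omega

theorem nc_cpy {v i : ℕ} (hv : v < n) (hi : i < κ) : nc n a κ (cpy n a κ v i) = i := by
  by_cases h : v < a
  · unfold nc
    rw [if_pos ((cpy_lt_iff hi).2 h)]
    unfold cpy
    rw [if_pos h, Nat.add_mul_div_left _ _ (by omega), Nat.div_eq_of_lt h, Nat.zero_add]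
  · unfold nc
    rw [if_neg (fun h1 => h ((cpy_lt_iff hi).1 h1))]
    unfold cpy
    rw [if_neg h, Nat.add_sub_cancel_left, Nat.add_mul_div_left _ _ (by omega),
      Nat.div_eq_of_lt (by omega), Nat.zero_add]

/-! ### Submodularity -/

/-- the vertices over `W` that may be selected -/
def WK (n a κ : ℕ) (C W : Finset ℕ) : Finset ℕ :=
  (range (κ * n)).filter fun y => og n a κ y ∈ W ∧ (og n a κ y ∈ C ∨ nc n a κ y = 0)

/-- the set of copies given by a set of numbers of sites -/
def XK (n a κ : ℕ) (C X : Finset ℕ) : Finset ℕ :=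
  (range (κ * n)).filter fun y =>
    (og n a κ y ∈ C → rk C (og n a κ y) ∈ X) ∧ (og n a κ y ∉ C → y < κ * a)

theorem SC_subset (n a κ : ℕ) (C W X : Finset ℕ) : SC n a κ C W X ⊆ range (κ * n) :=
  filter_subset _ _

theorem mem_SC {W X : Finset ℕ} {y : ℕ} : y ∈ SC n a κ C W X ↔ y < κ * n ∧ og n a κ y ∈ W ∧
    if og n a κ y ∈ C then (if y < κ * a then rk C (og n a κ y) ∈ X else rk C (og n a κ y) ∉ X)
    else nc n a κ y = 0 := by
  unfold SC
  rw [mem_filter, mem_range]

theorem SC_eq (n a κ : ℕ) (C W X : Finset ℕ) :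
    SC n a κ C W X = IX (κ * a) (WK n a κ C W) (XK n a κ C X) := by
  ext y
  rw [mem_SC, mem_IX]
  unfold WK XK
  rw [mem_filter, mem_filter, mem_range]
  by_cases h1 : og n a κ y ∈ C
  · by_cases h2 : y < κ * a
    · simp only [if_pos h1, if_pos h2]
      tauto
    · simp only [if_pos h1, if_neg h2]
      tauto
  · by_cases h2 : y < κ * a
    · simp only [if_neg h1, if_pos h2]
      tauto
    · simp only [if_neg h1, if_neg h2]
      tauto

theorem XK_union (X Y : Finset ℕ) : XK n a κ C (X ∪ Y) = XK n a κ C X ∪ XK n a κ C Y := by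
  unfold XK
  rw [← filter_or]
  refine filter_congr fun y _ => ?_
  rw [mem_union]
  tauto

theorem XK_inter (X Y : Finset ℕ) : XK n a κ C (X ∩ Y) = XK n a κ C X ∩ XK n a κ C Y := by
  unfold XK
  rw [← filter_and]
  refine filter_congr fun y _ => ?_
  rw [mem_inter]
  tauto

theorem WK_subset (n a κ : ℕ) (C W : Finset ℕ) : WK n a κ C W ⊆ range (κ * n) := filter_subset _ _

/-- submodularity -/
theorem cnC_sub (h : Cov n a adj C) (W X Y : Finset ℕ) :
    cnC n a adj κ C W (X ∪ Y) + cnC n a adj κ C W (X ∩ Y) ≤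
      cnC n a adj κ C W X + cnC n a adj κ C W Y := by
  unfold cnC
  rw [SC_eq, SC_eq, SC_eq, SC_eq, XK_union, XK_inter]
  exact nu_IX_sub (WK_subset n a κ C W) (adjK_symm h.symm) (adjK_bip h.bip) _ _

/-- the copies of a site -/
theorem card_copies (han : a ≤ n) (κ v : ℕ) (C : Finset ℕ) :
    ((range (κ * n)).filter fun y => og n a κ y ∈ C ∧ rk C (og n a κ y) = v).card ≤ κ := by
  refine (card_le_card_of_injOn (nc n a κ) (t := range κ) ?_ ?_).trans_eq (card_range κ)
  · intro y hy
    have hy' := mem_filter.1 (mem_coe.1 hy)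
    rw [mem_coe, mem_range]
    exact nc_lt han (mem_range.1 hy'.1)
  · intro y hy z hz hyz
    have hy' := (mem_filter.1 (mem_coe.1 hy)).2
    have hz' := (mem_filter.1 (mem_coe.1 hz)).2
    exact og_nc_inj (rk_inj hy'.1 hz'.1 (hy'.2.trans hz'.2.symm)) hyz

theorem nu_le_add (h : Cov n a adj C) {S T : Finset ℕ} (hS : S ⊆ range (κ * n))
    (hT : T ⊆ range (κ * n)) {c : ℕ} (hc : (S \ T).card ≤ c) :
    nu (κ * n) (κ * a) (adjK n a κ adj) S ≤ nu (κ * n) (κ * a) (adjK n a κ adj) T + c := by
  have h1 := nu_mono hS (adjK_symm (n := n) (κ := κ) h.symm) (adjK_bip h.bip)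
    (inter_subset_left : S ∩ T ⊆ S)
  have h2 := nu_le_nu hT (adjK_symm (n := n) (κ := κ) h.symm) (adjK_bip h.bip)
    (inter_subset_right : S ∩ T ⊆ T)
  have h3 := card_inter_add_card_sdiff S T
  omega

theorem cnC_insert (h : Cov n a adj C) (W X : Finset ℕ) (v : ℕ) :
    cnC n a adj κ C W (insert v X) ≤ cnC n a adj κ C W X + κ ∧
      cnC n a adj κ C W X ≤ cnC n a adj κ C W (insert v X) + κ := by
  have key : ∀ y, y < κ * n → ¬ (og n a κ y ∈ C ∧ rk C (og n a κ y) = v) →
      (y ∈ SC n a κ C W (insert v X) ↔ y ∈ SC n a κ C W X) := by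
    intro y _ hy
    rw [mem_SC, mem_SC]
    refine and_congr_right fun _ => and_congr_right fun _ => ?_
    by_cases h1 : og n a κ y ∈ C
    · have h2 : rk C (og n a κ y) ≠ v := fun h3 => hy ⟨h1, h3⟩
      rw [if_pos h1, if_pos h1, mem_insert, or_iff_right h2]
    · rw [if_neg h1, if_neg h1]
  unfold cnC
  constructor
  · refine nu_le_add h (SC_subset _ _ _ _ _ _) (SC_subset _ _ _ _ _ _)
      (le_trans (card_le_card ?_) (card_copies h.han κ v C))
    intro y hy
    obtain ⟨hy1, hy2⟩ := mem_sdiff.1 hy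
    have hyn := mem_range.1 (SC_subset _ _ _ _ _ _ hy1)
    refine mem_filter.2 ⟨mem_range.2 hyn, ?_⟩
    by_contra hcon
    exact hy2 ((key y hyn hcon).1 hy1)
  · refine nu_le_add h (SC_subset _ _ _ _ _ _) (SC_subset _ _ _ _ _ _)
      (le_trans (card_le_card ?_) (card_copies h.han κ v C))
    intro y hy
    obtain ⟨hy1, hy2⟩ := mem_sdiff.1 hy
    have hyn := mem_range.1 (SC_subset _ _ _ _ _ _ hy1)
    refine mem_filter.2 ⟨mem_range.2 hyn, ?_⟩
    by_contra hcon
    exact hy2 ((key y hyn hcon).2 hy1)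

/-- the matching number is at most `κ |C|` -/
theorem cnC_le (h : Cov n a adj C) (W X : Finset ℕ) :
    cnC n a adj κ C W X ≤ κ * C.card := by
  classical
  set S := SC n a κ C W X with hS
  set J := S.filter fun y => og n a κ y ∉ C with hJ
  have hJS : J ⊆ S := filter_subset _ _
  have hI : ∀ u ∈ J, ∀ v ∈ J, adjK n a κ adj u v = false := by
    intro u hu v hv
    by_contra hcon
    rw [Bool.not_eq_false] at hcon
    rcases h.cov _ _ hcon with h1 | h1
    · exact (mem_filter.1 hu).2 h1
    · exact (mem_filter.1 hv).2 h1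
  have h1 := indep_nu (SC_subset n a κ C W X) (adjK_symm h.symm) (adjK_bip h.bip) hJS hI
  have h2 := card_sdiff_add_card_eq_card hJS
  have h3 : (S \ J).card ≤ κ * C.card := by
    have h4 : (S \ J).card ≤ (C ×ˢ range κ).card := by
      refine card_le_card_of_injOn (fun y => (og n a κ y, nc n a κ y)) ?_ ?_
      · intro y hy
        obtain ⟨hy1, hy2⟩ := mem_sdiff.1 (mem_coe.1 hy)
        rw [mem_coe, mem_product, mem_range]
        refine ⟨?_, nc_lt h.han (mem_range.1 (SC_subset _ _ _ _ _ _ hy1))⟩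
        by_contra hcon
        exact hy2 (mem_filter.2 ⟨hy1, hcon⟩)
      · intro y _ z _ hyz
        have h5 := Prod.mk.inj hyz
        exact og_nc_inj h5.1 h5.2
    rw [card_product, card_range] at h4
    rw [Nat.mul_comm]
    exact h4
  unfold cnC
  rw [← hS] at h1 ⊢
  omega

/-! ### Selected sites -/

/-- the selected sites -/
def sel (a : ℕ) (C W X : Finset ℕ) : Finset ℕ :=
  (C ∩ W).filter fun v => if v < a then rk C v ∈ X else rk C v ∉ X

/-- all copies of `T` and one copy of the vertices of `W` outside `C` -/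
def SM (n a κ : ℕ) (C W T : Finset ℕ) : Finset ℕ :=
  (range (κ * n)).filter fun y => og n a κ y ∈ T ∨ (og n a κ y ∈ W ∧ og n a κ y ∉ C ∧
    nc n a κ y = 0)

/-- the matching number for the set `T` of selected sites -/
def cm (n a : ℕ) (adj : ℕ → ℕ → Bool) (κ : ℕ) (C W T : Finset ℕ) : ℕ :=
  nu (κ * n) (κ * a) (adjK n a κ adj) (SM n a κ C W T)

/-- the vertices of `W` outside `C` with a neighbour in `T` -/
def bl (adj : ℕ → ℕ → Bool) (C W T : Finset ℕ) : Finset ℕ :=
  (W \ C).filter fun u => ∃ v ∈ T, adj v u = true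

theorem SC_eq_SM (n a κ : ℕ) (C W X : Finset ℕ) :
    SC n a κ C W X = SM n a κ C W (sel a C W X) := by
  unfold SC SM sel
  refine filter_congr fun y _ => ?_
  rw [mem_filter, mem_inter]
  by_cases h1 : og n a κ y ∈ C
  · by_cases h2 : y < κ * a
    · have h3 := (og_lt_iff (n := n)).2 h2
      simp only [if_pos h1, if_pos h2, if_pos h3]
      tauto
    · have h3 : ¬ og n a κ y < a := fun h4 => h2 (og_lt_iff.1 h4)
      simp only [if_pos h1, if_neg h2, if_neg h3]
      tauto
  · simp only [if_neg h1]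
    tauto

theorem cnC_eq_cm (n a : ℕ) (adj : ℕ → ℕ → Bool) (κ : ℕ) (C W X : Finset ℕ) :
    cnC n a adj κ C W X = cm n a adj κ C W (sel a C W X) := by
  unfold cnC cm
  rw [SC_eq_SM]

theorem SM_subset (n a κ : ℕ) (C W T : Finset ℕ) : SM n a κ C W T ⊆ range (κ * n) :=
  filter_subset _ _

theorem mem_SM {W T : Finset ℕ} {y : ℕ} : y ∈ SM n a κ C W T ↔ y < κ * n ∧
    (og n a κ y ∈ T ∨ (og n a κ y ∈ W ∧ og n a κ y ∉ C ∧ nc n a κ y = 0)) := by
  unfold SM
  rw [mem_filter, mem_range]

theorem mem_bl {W T : Finset ℕ} {u : ℕ} :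
    u ∈ bl adj C W T ↔ (u ∈ W ∧ u ∉ C) ∧ ∃ v ∈ T, adj v u = true := by
  unfold bl
  rw [mem_filter, mem_sdiff]

/-- upper bound for an independent set of selected sites -/
theorem cm_le (h : Cov n a adj C) (W : Finset ℕ) {T : Finset ℕ}
    (hI : ∀ u ∈ T, ∀ v ∈ T, adj u v = false) :
    cm n a adj κ C W T ≤ (bl adj C W T).card := by
  classical
  set S := SM n a κ C W T with hS
  set J := S.filter fun y => og n a κ y ∈ T ∨ og n a κ y ∉ bl adj C W T with hJ
  have hJS : J ⊆ S := filter_subset _ _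
  have hJi : ∀ y ∈ J, ∀ z ∈ J, adjK n a κ adj y z = false := by
    have key : ∀ y ∈ J, ∀ z ∈ J, og n a κ y ∈ T → adjK n a κ adj y z = false := by
      intro y hy z hz hyT
      by_contra hcon
      rw [Bool.not_eq_false] at hcon
      by_cases hzT : og n a κ z ∈ T
      · have h1 := hI _ hyT _ hzT
        unfold adjK at hcon
        rw [h1] at hcon
        exact absurd hcon (by simp)
      · have h1 := (mem_filter.1 hz).2.resolve_left hzT
        have h2 := (mem_SM.1 (hJS hz)).2.resolve_left hzT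
        exact h1 (mem_bl.2 ⟨⟨h2.1, h2.2.1⟩, _, hyT, hcon⟩)
    intro y hy z hz
    by_cases hyT : og n a κ y ∈ T
    · exact key y hy z hz hyT
    · by_cases hzT : og n a κ z ∈ T
      · rw [adjK_symm h.symm]
        exact key z hz y hy hzT
      · by_contra hcon
        rw [Bool.not_eq_false] at hcon
        have h1 := (mem_SM.1 (hJS hy)).2.resolve_left hyT
        have h2 := (mem_SM.1 (hJS hz)).2.resolve_left hzT
        rcases h.cov _ _ hcon with h3 | h3
        · exact h1.2.1 h3
        · exact h2.2.1 h3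
  have h1 := indep_nu (SM_subset n a κ C W T) (adjK_symm h.symm) (adjK_bip h.bip) hJS hJi
  have h2 := card_sdiff_add_card_eq_card hJS
  have h3 : (S \ J).card ≤ (bl adj C W T).card := by
    have h5 : ∀ y ∈ S \ J, og n a κ y ∈ bl adj C W T ∧ nc n a κ y = 0 := by
      intro y hy
      obtain ⟨hy1, hy2⟩ := mem_sdiff.1 hy
      have hyT : og n a κ y ∉ T := fun h4 => hy2 (mem_filter.2 ⟨hy1, Or.inl h4⟩)
      refine ⟨?_, ((mem_SM.1 hy1).2.resolve_left hyT).2.2⟩
      by_contra hcon
      exact hy2 (mem_filter.2 ⟨hy1, Or.inr hcon⟩)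
    refine card_le_card_of_injOn (og n a κ) (fun y hy => (h5 y hy).1) ?_
    intro y hy z hz hyz
    exact og_nc_inj hyz ((h5 y hy).2.trans (h5 z hz).2.symm)
  unfold cm
  rw [← hS] at h1 ⊢
  omega

/-- lower bound -/
theorem exists_T (h : Cov n a adj C) (hκ : 0 < κ) (W : Finset ℕ) {T : Finset ℕ} (hT : T ⊆ C) :
    ∃ T' ⊆ T, (∀ u ∈ T', ∀ v ∈ T', adj u v = false) ∧
      (bl adj C W T').card + κ * (T \ T').card ≤ cm n a adj κ C W T := by
  classical
  set S := SM n a κ C W T with hS
  obtain ⟨J, hJ, hc, hI⟩ := nu_indep (SM_subset n a κ C W T) (adjK_symm h.symm (κ := κ))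
    (adjK_bip h.bip)
  have hTn : ∀ v ∈ T, v < n := fun v hv => mem_range.1 (h.sub (hT hv))
  set T' := T.filter fun v => ∃ y ∈ J, og n a κ y = v with hT'
  refine ⟨T', filter_subset _ _, ?_, ?_⟩
  · intro u hu v hv
    obtain ⟨-, y, hy, rfl⟩ := mem_filter.1 hu
    obtain ⟨-, z, hz, rfl⟩ := mem_filter.1 hv
    exact hI y hy z hz
  · have h2 := card_sdiff_add_card_eq_card hJ
    have h3 : (bl adj C W T').card + κ * (T \ T').card ≤ (S \ J).card := by
      set P := (bl adj C W T').image fun u => cpy n a κ u 0 with hP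
      set Q := ((T \ T') ×ˢ range κ).image fun p => cpy n a κ p.1 p.2 with hQ
      have hbn : ∀ u ∈ bl adj C W T', u < n := by
        intro u hu
        obtain ⟨-, v, -, hv⟩ := mem_bl.1 hu
        rw [h.symm] at hv
        exact h.lt _ _ hv
      have hPc : P.card = (bl adj C W T').card := by
        refine card_image_of_injOn ?_
        intro u hu v hv huv
        have e := congrArg (og n a κ) huv
        simp only at e
        rw [og_cpy (hbn u (mem_coe.1 hu)) hκ, og_cpy (hbn v (mem_coe.1 hv)) hκ] at e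
        exact e
      have hQc : Q.card = κ * (T \ T').card := by
        rw [hQ, card_image_of_injOn, card_product, card_range, Nat.mul_comm]
        rintro ⟨r, i⟩ hr ⟨r', i'⟩ hr' hrr
        obtain ⟨hr1, hr2⟩ := mem_product.1 (mem_coe.1 hr)
        obtain ⟨hr1', hr2'⟩ := mem_product.1 (mem_coe.1 hr')
        have g1 := hTn r (mem_sdiff.1 hr1).1
        have g1' := hTn r' (mem_sdiff.1 hr1').1
        have g2 := mem_range.1 hr2
        have g2' := mem_range.1 hr2'
        simp only at g1 g1' g2 g2' hrr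
        have e1 := congrArg (og n a κ) hrr
        have e2 := congrArg (nc n a κ) hrr
        rw [og_cpy g1 g2, og_cpy g1' g2'] at e1
        rw [nc_cpy g1 g2, nc_cpy g1' g2'] at e2
        rw [e1, e2]
      have hd : Disjoint P Q := by
        rw [disjoint_left]
        intro y hy1 hy2
        obtain ⟨u, hu, rfl⟩ := mem_image.1 hy1
        obtain ⟨⟨r, i⟩, hp, hh⟩ := mem_image.1 hy2
        obtain ⟨hr1, hr2⟩ := mem_product.1 hp
        have g1 := hTn r (mem_sdiff.1 hr1).1
        have g2 := mem_range.1 hr2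
        simp only at g1 g2 hh
        have e1 := congrArg (og n a κ) hh
        rw [og_cpy g1 g2, og_cpy (hbn u hu) hκ] at e1
        exact (mem_bl.1 hu).1.2 (e1 ▸ hT (mem_sdiff.1 hr1).1)
      rw [← hPc, ← hQc, ← card_union_of_disjoint hd]
      refine card_le_card ?_
      intro y hy
      rw [mem_sdiff]
      rcases mem_union.1 hy with hy1 | hy1
      · obtain ⟨u, hu, rfl⟩ := mem_image.1 hy1
        have hun := hbn u hu
        have hog := og_cpy (a := a) hun hκ
        obtain ⟨⟨hu1, hu2⟩, v, hv, hvu⟩ := mem_bl.1 hu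
        refine ⟨mem_SM.2 ⟨cpy_lt h.han hun hκ, Or.inr ?_⟩, fun hyJ => ?_⟩
        · rw [hog]
          exact ⟨hu1, hu2, nc_cpy hun hκ⟩
        · obtain ⟨-, z, hz, rfl⟩ := mem_filter.1 hv
          have h4 := hI z hz _ hyJ
          unfold adjK at h4
          rw [hog, hvu] at h4
          exact absurd h4 (by simp)
      · obtain ⟨⟨r, i⟩, hp, rfl⟩ := mem_image.1 hy1
        obtain ⟨hr1, hr2⟩ := mem_product.1 hp
        have g1 := hTn r (mem_sdiff.1 hr1).1
        have g2 := mem_range.1 hr2
        have hr3 := mem_sdiff.1 hr1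
        simp only at g1 g2 hr3 ⊢
        have hog := og_cpy (a := a) g1 g2
        refine ⟨mem_SM.2 ⟨cpy_lt h.han g1 g2, Or.inl ?_⟩, fun hyJ => ?_⟩
        · rw [hog]
          exact hr3.1
        · exact hr3.2 (mem_filter.2 ⟨hr3.1, _, hyJ, hog⟩)
    unfold cm
    rw [← hS] at hc ⊢
    have h4 : (S \ J).card + J.card = S.card := h2
    omega

/-! ### The set function -/

theorem FC_nonneg (W : Finset ℕ) (X : Finset (Fin C.card)) : 0 ≤ FC n a adj κ C W X :=
  Int.natCast_nonneg _

theorem FC_le (h : Cov n a adj C) (W : Finset ℕ) (X : Finset (Fin C.card)) :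
    FC n a adj κ C W X ≤ κ * C.card := by
  unfold FC
  exact_mod_cast cnC_le h W (toN X)

theorem FC_insert (h : Cov n a adj C) (W : Finset ℕ) (v : Fin C.card)
    (S : Finset (Fin C.card)) : |FC n a adj κ C W (insert v S) - FC n a adj κ C W S| ≤ κ := by
  have h1 := cnC_insert (κ := κ) h W (toN S) v
  unfold FC
  rw [toN_insert, abs_le]
  omega

theorem FC_sub (h : Cov n a adj C) (W : Finset ℕ) (S S' : Finset (Fin C.card)) :
    FC n a adj κ C W (S ∪ S') + FC n a adj κ C W (S ∩ S') ≤
      FC n a adj κ C W S + FC n a adj κ C W S' := by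
  have h := cnC_sub (κ := κ) h W (toN S) (toN S')
  unfold FC
  rw [toN_union, toN_inter]
  exact_mod_cast h

end Pool.Agent.Lib.SubBisC
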