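import Pool.Agent.Lib.SubBisC.CNu

/-!
The numbering of the elements of a set of numbers (complements to `CNu.lean`).
-/

set_option autoImplicit false

namespace Pool.Agent.Lib.SubBisC

open Finset

variable {n : ℕ} {C : Finset ℕ}

theorem rk_lt {v : ℕ} (hv : v ∈ C) : rk C v < C.card := rk_lt_card hv

theorem cs_lt (hC : C ⊆ range n) {i : ℕ} (hi : i < C.card) : cs n C i < n :=
  mem_range.1 (hC (cs_mem hC hi))

theorem cs_inj (hC : C ⊆ range n) {i j : ℕ} (hi : i < C.card) (hj : j < C.card)
    (h : cs n C i = cs n C j) : i = j := by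
  rw [← rk_cs hC hi, ← rk_cs hC hj, h]

end Pool.Agent.Lib.SubBisC
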