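import Pool.Agent.Lib.SubBisC.CDefs
import Pool.Agent.Lib.SubBisX.NuF
import Pool.Agent.Lib.Pa7c826t.AuctPoly

/-!
A smallest vertex cover of a bipartite graph, computed greedily from matching numbers.

PROOF. Go through the vertices `j = 0, 1, ..`; `R` is the set of remaining vertices. The vertex `j`
is removed from `R` (and put into the cover) if this makes the matching number smaller; otherwise it
stays. So `|C| = ν(V) - ν(R)` at the end. If `ν(R) > 0`, take an independent set `J` with `|R| - ν(R)`
elements in `R` and `v ∈ R \ J`; `v` stayed at its step, when the remaining set was `R' ⊇ R`, with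
`ν(R') = ν(R) + |R' \ R|`; but `J ⊆ R' - v` gives `ν(R' - v) ≤ |R'| - 1 - |J| < ν(R')`. So `R` is
independent, and every cover has at least `ν(V)` elements.
-/

set_option autoImplicit false

namespace Pool.Agent.Lib.SubBisC

open Finset Pool.Agent.Lib.Pa7c826 Pool.Agent.Lib.Pa7c826t Pool.Agent.Lib.SubBisX
open Pool.Agent.Lib.PolyTime

/-- the vertices which remain after `j` steps -/
def cvR (n a : ℕ) (adj : ℕ → ℕ → Bool) : ℕ → Finset ℕ
  | 0 => range n
  | j + 1 => if nu n a adj ((cvR n a adj j).erase j) < nu n a adj (cvR n a adj j) then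
      (cvR n a adj j).erase j else cvR n a adj j

/-- the greedy vertex cover -/
def cv (n a : ℕ) (adj : ℕ → ℕ → Bool) : Finset ℕ := range n \ cvR n a adj n

section

variable {n a : ℕ} {adj : ℕ → ℕ → Bool}

theorem cvR_succ_sub (j : ℕ) : cvR n a adj (j + 1) ⊆ cvR n a adj j := by
  rw [cvR]
  split_ifs
  · exact erase_subset _ _
  · exact subset_rfl

theorem cvR_anti {i j : ℕ} (h : i ≤ j) : cvR n a adj j ⊆ cvR n a adj i := by
  induction j, h using Nat.le_induction with
  | base => exact subset_rfl
  | succ j _ ih => exact (cvR_succ_sub j).trans ih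

theorem cvR_sub (j : ℕ) : cvR n a adj j ⊆ range n := cvR_anti (Nat.zero_le j)

variable (hs : ∀ u v, adj u v = adj v u) (hbip : ∀ u v, adj u v = true → (u < a ↔ ¬ v < a))

include hs hbip

theorem cvR_card {i j : ℕ} (h : i ≤ j) :
    (cvR n a adj i).card + nu n a adj (cvR n a adj j) =
      (cvR n a adj j).card + nu n a adj (cvR n a adj i) := by
  induction j, h using Nat.le_induction with
  | base => rfl
  | succ j _ ih =>
    rw [cvR]
    split_ifs with h1
    · have h2 := nu_erase (cvR_sub (n := n) (a := a) (adj := adj) j) hs hbip j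
      have h3 : (cvR n a adj j).card ≤ ((cvR n a adj j).erase j).card + 1 :=
        by have := pred_card_le_card_erase (s := cvR n a adj j) (a := j); omega
      have h4 : ((cvR n a adj j).erase j).card < (cvR n a adj j).card := by
        by_contra h5
        have h6 : j ∉ cvR n a adj j := fun h6 => h5 (card_erase_lt_of_mem h6)
        rw [erase_eq_of_notMem h6] at h1
        exact lt_irrefl _ h1
      omega
    · exact ih

theorem nu_cvR_end : nu n a adj (cvR n a adj n) = 0 := by
  by_contra h0
  obtain ⟨J, hJ, hc, hI⟩ := nu_indep (cvR_sub (n := n) (a := a) (adj := adj) n) hs hbip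
  have h1 : J.card < (cvR n a adj n).card := by omega
  obtain ⟨v, hv, hvJ⟩ : ∃ v ∈ cvR n a adj n, v ∉ J := by
    by_contra h2
    push Not at h2
    exact absurd (card_le_card h2) (by omega)
  have hvn : v < n := mem_range.1 (cvR_sub _ hv)
  have h2 : v ∈ cvR n a adj (v + 1) := cvR_anti hvn hv
  have h3 : v ∈ cvR n a adj v := cvR_succ_sub v h2
  have h4 : ¬ nu n a adj ((cvR n a adj v).erase v) < nu n a adj (cvR n a adj v) := by
    intro h4
    rw [cvR, if_pos h4] at h2
    exact absurd rfl (ne_of_mem_erase h2)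
  have h5 : J ⊆ (cvR n a adj v).erase v := by
    intro u hu
    rw [mem_erase]
    exact ⟨fun h => hvJ (h ▸ hu), cvR_anti hvn.le (hJ hu)⟩
  have h6 := indep_nu ((erase_subset _ _).trans (cvR_sub (n := n) (a := a) (adj := adj) v)) hs hbip
    h5 hI
  have h7 := cvR_card hs hbip (n := n) hvn.le
  have h8 := card_erase_lt_of_mem h3
  omega

theorem cvR_end_indep {u v : ℕ} (hu : u ∈ cvR n a adj n) (hv : v ∈ cvR n a adj n) :
    adj u v = false := by
  obtain ⟨J, hJ, hc, hI⟩ := nu_indep (cvR_sub (n := n) (a := a) (adj := adj) n) hs hbip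
  rw [nu_cvR_end hs hbip, add_zero] at hc
  have h1 := eq_of_subset_of_card_le hJ hc.ge
  subst h1
  exact hI u hu v hv

theorem card_cv : (cv n a adj).card = nu n a adj (range n) := by
  have h1 := cvR_card hs hbip (n := n) (Nat.zero_le n)
  rw [nu_cvR_end hs hbip, add_zero] at h1
  have h2 := card_sdiff_add_card_eq_card (cvR_sub (n := n) (a := a) (adj := adj) n)
  have h3 : cvR n a adj 0 = range n := rfl
  rw [h3] at h1
  unfold cv
  omega

theorem cov_cv (han : a ≤ n) (hlt : ∀ u v, adj u v = true → u < n) :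
    Cov n a adj (cv n a adj) where
  han := han
  symm := hs
  bip := hbip
  lt := hlt
  sub := sdiff_subset
  cov := by
    intro u v h
    by_contra h1
    push Not at h1
    have hu : u < n := hlt u v h
    have hv : v < n := hlt v u (by rw [hs]; exact h)
    unfold cv at h1
    simp only [mem_sdiff, mem_range, not_and, not_not] at h1
    have h2 := cvR_end_indep hs hbip (h1.1 hu) (h1.2 hv)
    rw [h] at h2
    exact absurd h2 (by simp)

theorem cv_min (hlt : ∀ u v, adj u v = true → u < n) (K : Finset ℕ)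
    (hK : ∀ u v, adj u v = true → u ∈ K ∨ v ∈ K) : (cv n a adj).card ≤ K.card := by
  rw [card_cv hs hbip]
  have h1 := indep_nu (J := range n \ K) (subset_refl (range n)) hs hbip sdiff_subset (by
    intro u hu v hv
    rw [mem_sdiff] at hu hv
    by_contra h
    rw [Bool.not_eq_false] at h
    exact (hK u v h).elim hu.2 hv.2)
  have h2 : (range n).card ≤ (range n \ K).card + K.card := by
    have h3 := card_le_card (show range n ⊆ (range n \ K) ∪ K by
      intro x hx
      rw [mem_union, mem_sdiff]
      by_cases h : x ∈ K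
      · exact Or.inr h
      · exact Or.inl ⟨hx, h⟩)
    exact h3.trans (card_union_le _ _)
  omega

end

/-! ## Polynomial time -/

variable {α : Type*} {D : α → Prop} {ctx : List (α → List Bool)} {w : α → List Bool}

theorem polyS_erase {n v : α → ℕ} {S : α → Finset ℕ} (hn : PolyN D ctx n) (hS : PolyS D ctx n S)
    (hv : PolyN D ctx v) : PolyS D ctx n (fun x => (S x).erase (v x)) := by
  refine (PolyS.filter hn hS (φ := fun p => !(decide (p.2 = v p.1)))
    (PolyB.natEq last (upN hv)).not).congr (fun x _ => ?_)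
  ext i
  simp only [mem_filter, mem_erase, Bool.not_eq_true', decide_eq_false_iff_not]
  exact and_comm

theorem polyS_sdiff {n : α → ℕ} {S T : α → Finset ℕ} (hn : PolyN D ctx n) (hS : PolyS D ctx n S)
    (hT : PolyS D ctx n T) : PolyS D ctx n (fun x => S x \ T x) := by
  refine (PolyS.filter hn hS (φ := fun p => !(decide (p.2 ∈ T p.1)))
    ((PolyS.up hT).mem last).not).congr (fun x _ => ?_)
  ext i
  simp only [mem_filter, mem_sdiff, Bool.not_eq_true', decide_eq_false_iff_not]

theorem poly_cvR {k : α → ℕ} (hw : PolyC D ctx w) (hk : PolyN D ctx k) :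
    PolyS D ctx (fun x => nOf (w x))
      (fun x => cvR (nOf (w x)) (aOf (w x)) (adjOf (w x)) (k x)) := by
  have hn := poly_nOf hw
  obtain ⟨pn, hpn⟩ := PolyC.length_le hn
  refine ⟨PolyC.natRec (fun x j => msk (nOf (w x))
    (cvR (nOf (w x)) (aOf (w x)) (adjOf (w x)) j)) hk (PolyS.range hn).1 ?_
    ⟨pn, fun x hx j _ => ?_⟩, fun x _ => cvR_sub _⟩
  · set st : α × ℕ → List Bool := fun p => msk (nOf (w p.1))
      (cvR (nOf (w p.1)) (aOf (w p.1)) (adjOf (w p.1)) p.2) with hst
    have W : PolyC (fun p : α × ℕ => D p.1 ∧ p.2 < k p.1)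
        (PolyTime.lift ctx ++ [fun p => un p.2, st]) (fun p => w p.1) := up2 hw
    have L : PolyN (fun p : α × ℕ => D p.1 ∧ p.2 < k p.1)
        (PolyTime.lift ctx ++ [fun p => un p.2, st]) (fun p => p.2) :=
      PolyC.var (by simp)
    have R : PolyS (fun p : α × ℕ => D p.1 ∧ p.2 < k p.1)
        (PolyTime.lift ctx ++ [fun p => un p.2, st]) (fun p => nOf (w p.1))
        (fun p => cvR (nOf (w p.1)) (aOf (w p.1)) (adjOf (w p.1)) p.2) :=
      ⟨PolyC.var (by simp [hst]), fun p _ => cvR_sub _⟩
    have E := polyS_erase (poly_nOf W) R L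
    have B := PolyB.lt (poly_nu W E) (poly_nu W R)
    have hI : PolyC (fun p : α × ℕ => D p.1 ∧ p.2 < k p.1)
        (PolyTime.lift ctx ++ [fun p => un p.2, st]) _ :=
      PolyC.ite B (E.1.mono fun _ h => h.1) (R.1.mono fun _ h => h.1)
    refine hI.congr (fun p _ => ?_)
    rw [cvR]
    by_cases h : nu (nOf (w p.1)) (aOf (w p.1)) (adjOf (w p.1))
        ((cvR (nOf (w p.1)) (aOf (w p.1)) (adjOf (w p.1)) p.2).erase p.2) <
        nu (nOf (w p.1)) (aOf (w p.1)) (adjOf (w p.1))
          (cvR (nOf (w p.1)) (aOf (w p.1)) (adjOf (w p.1)) p.2)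
    · simp [h]
    · simp [h]
  · have h1 := hpn x hx
    rw [un_length] at h1
    rw [msk_length]
    exact h1

/-- the greedy vertex cover in polynomial time -/
theorem poly_cv (hw : PolyC D ctx w) :
    PolyS D ctx (fun x => nOf (w x)) (fun x => cv (nOf (w x)) (aOf (w x)) (adjOf (w x))) :=
  polyS_sdiff (poly_nOf hw) (PolyS.range (poly_nOf hw)) (poly_cvR hw (poly_nOf hw))

end Pool.Agent.Lib.SubBisC
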