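import Pool.Agent.Lib.SubBisB.FinB
import Pool.Agent.Lib.SubBisC.CSys
import Pool.Agent.Lib.SubBisC.CovC
import Pool.Agent.Lib.SubBisC.CPoly
import Pool.Agent.Lib.SubBisC.CBrute
import Pool.Agent.Lib.SubBisC.CVc

/-!
A randomised algorithm approximates the number of independent sets of all bipartite graphs up to a
factor `2 ^ o(k)` in polynomial time, `k` the vertex cover number.
-/

set_option autoImplicit false

namespace Pool.Agent.Lib.SubBisC.FinC

open Finset Pool.Agent.Lib.PolyTime Pool.Agent.Lib.Pa7c826 Pool.Agent.Lib.Pa7c826t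
open Pool.Agent.Lib.SubBisX Pool.Agent.Lib.SubBisX.Prob Pool.Agent.Lib.P8e91ed.PT
open Pool.Agent.Lib.SubBisB

/-- the cover -/
def Cw (w : List Bool) : Finset ℕ := cv (nOf w) (aOf w) (adjOf w)

/-- the estimate of the logarithm -/
def est (w r : List Bool) : ℕ :=
  esT (nOf w) (aOf w) (adjOf w) (Cw w) (Fin2.qw w) r (range (nOf w))

/-- the output as a number -/
def val (w r : List Bool) : ℕ :=
  if decide ((Cw w).card < (nOf w + tOf w).size) then bru (nOf w) (adjOf w) (Cw w)
  else 2 ^ (if decide (Fin2.qw w = 0) then nOf w - (Cw w).card else est w r)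

/-- the number of random bits -/
def nb (w : List Bool) : ℕ := offC (Cw w).card (nOf w) (Fin2.qw w)

section poly

variable {α : Type} {D : α → Prop} {ctx : List (α → List Bool)} {w r : α → List Bool}

theorem poly_Cw (hw : PolyC D ctx w) : PolyS D ctx (fun x => nOf (w x)) (fun x => Cw (w x)) :=
  poly_cv hw

theorem poly_KC {n q : α → ℕ} (hn : PolyN D ctx n) (hq : PolyN D ctx q) :
    PolyN D ctx (fun x => KC (n x) (q x)) := by
  have h1 : PolyN D ctx (fun x => 4 * (q x).size + 6) :=
    ((PolyN.const 4).mul (Par.poly_size hq)).add (PolyN.const 6)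
  exact ((((PolyN.const 8).mul (hq.mul hq)).mul (h1.mul h1)).mul
    (((PolyN.const 2).mul hn).add (PolyN.const 3))).congr (fun x _ => by unfold KC; ring)

theorem poly_est (hw : PolyC D ctx w) (hr : PolyC D ctx r) :
    PolyN D ctx (fun x => est (w x) (r x)) := by
  have hq := Fin2.poly_qw hw
  have hn := poly_nOf hw
  have h := poly_eVC (C := fun x => Cw (w x)) (W := fun x => range (nOf (w x)))
    (μ := fun x => ParA.mu (Fin2.qw (w x)))
    (ν := fun x => 2 * ParA.nu (Fin2.qw (w x)) + 7) (lam := fun x => 2 * ParA.nu (Fin2.qw (w x)))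
    (s := fun x => ParA.ss (Fin2.qw (w x))) (c := fun x => Fin2.qw (w x))
    (M := fun x => ParA.MM (Fin2.qw (w x)))
    (T := fun x => ParA.TT (Fin2.qw (w x))) (κ := fun x => ParA.kap (Fin2.qw (w x)))
    (K := fun x => KC (nOf (w x)) (Fin2.qw (w x)))
    (den := fun x => KC (nOf (w x)) (Fin2.qw (w x)) * (Fin2.qw (w x) * ParA.MM (Fin2.qw (w x))))
    hw (poly_Cw hw) hn (PolyS.range hn) (ParB.poly_mu hq) (ParB.poly_two_mu hq)
    (((PolyN.const 2).mul (ParB.poly_nu hq)).add (PolyN.const 7)) (ParB.poly_NN hq)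
    ((PolyN.const 2).mul (ParB.poly_nu hq)) (ParB.poly_BB hq) (ParB.poly_ss hq) hq
    (ParB.poly_MM hq) (ParB.poly_TT hq) (ParB.poly_kap hq) (poly_KC hn hq)
    ((poly_KC hn hq).mul (hq.mul (ParB.poly_MM hq))) (Fin2.poly_tbB hw) hr
  exact h

theorem poly_val (hw : PolyC D ctx w) (hr : PolyC D ctx r) :
    PolyBin D ctx (fun x => val (w x) (r x)) := by
  have hn := poly_nOf hw
  have hx := hn.add (poly_tOf hw)
  have hc := PolyS.card hn (poly_Cw hw)
  refine PolyBin.ite (PolyB.lt hc (Par.poly_size hx)) ?_ ?_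
  · refine poly_bru (N := fun x => nOf (w x) + tOf (w x))
      (PolyC.mono hw fun _ h => h.1) (poly_Cw (PolyC.mono hw fun _ h => h.1))
      (PolyC.mono hx fun _ h => h.1) fun x hx' => ?_
    have h1 := hx'.2
    rw [decide_eq_true_eq] at h1
    exact Nat.lt_size.1 h1
  · refine PolyBin.pow2 (PolyC.mono ?_ fun _ h => h.1)
    exact Pool.Agent.Lib.SubBisX.Tab.TabAux.itez (PolyB.natEq (Fin2.poly_qw hw) (PolyN.const 0))
      (PolyC.mono (PolyN.sub hn hc) fun _ h => h.1) (PolyC.mono (poly_est hw hr) fun _ h => h.1)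

theorem poly_nb (hw : PolyC D ctx w) : PolyN D ctx (fun x => nb (w x)) := by
  have hq := Fin2.poly_qw hw
  have hn := poly_nOf hw
  have hk := PolyS.card hn (poly_Cw hw)
  have hlam : PolyN D ctx (fun x => 2 * ParA.nu (Fin2.qw (w x))) :=
    (PolyN.const 2).mul (ParB.poly_nu hq)
  have hC : PolyN D ctx (fun x =>
      (2 ^ (2 * ParA.nu (Fin2.qw (w x))) * ParA.ss (Fin2.qw (w x)) + 1) ^
        ParA.TT (Fin2.qw (w x))) := by
    refine n_pow ((ParB.poly_BB hq).mul (ParB.poly_ss hq)).succ (ParB.poly_TT hq)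
      ((Fin2.bdd_tbB hw).le fun x _ => ?_)
    unfold ParB.tbB
    refine Nat.pow_le_pow_left (Nat.add_le_add_right (Nat.le_mul_of_pos_right _ ?_) 1) _
    positivity
  exact ((poly_KC hn hq).mul ((hk.mul hlam).add ((hC.mul hk).mul
    ((ParB.poly_mu hq).add (hlam.add (PolyN.const 7)))))).congr fun _ _ => rfl

end poly

/-! ### The cover of the code of a graph -/

section cover

variable (G : BGraph) (t : ℕ)

theorem cov_Cw : Cov (nOf (inCode G t)) (aOf (inCode G t)) (adjOf (inCode G t))
    (Cw (inCode G t)) := by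
  refine cov_cv (adjOf_symm _) ?_ ?_ ?_
  · intro u v h
    rcases adjOf_bip h with h | h <;> omega
  · unfold nOf
    omega
  · intro u v h
    have h1 := adjOf_bip h
    unfold nOf
    omega

theorem card_Cw : (Cw (inCode G t)).card = vc G := by
  refine card_eq_vc (t := t) (cov_Cw G t).cov fun K hK => ?_
  exact cv_min (cov_Cw G t).symm (cov_Cw G t).bip (cov_Cw G t).lt K hK

include t in
theorem two_pow_le : 2 ^ (G.a + G.b - vc G) ≤ numIndep G.graph := by
  have h := cov_Cw G t
  have hind : (ind (adjOf (inCode G t)) (range (nOf (inCode G t)))) = numIndep G.graph := by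
    rw [nOf_inCode G t]
    exact ind_eq_numIndep G t
  have hW : (range (nOf (inCode G t)) \ Cw (inCode G t)) ∩ Cw (inCode G t) = ∅ :=
    sdiff_inter_self _ _
  have h2 : ind (adjOf (inCode G t)) (range (nOf (inCode G t)) \ Cw (inCode G t)) =
      2 ^ (G.a + G.b - vc G) := by
    rw [eC_leaf h hW 0 0]
    unfold eC
    rw [if_pos hW, card_sdiff_of_subset h.sub, card_range, nOf_inCode, card_Cw]
  rw [← hind, ← h2]
  exact ind_mono sdiff_subset

end cover

/-- **Theorem.** A randomised algorithm approximates the number of independent sets of all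
bipartite graphs up to a factor `2 ^ (C k (log log N) ^ 2 / log N)` in polynomial time. -/
theorem rschemeG_log :
    ∃ C : ℝ, RSchemeG fun G t => C * vc G *
      (Real.logb 2 (Real.logb 2 (((G.a + G.b : ℕ) : ℝ) + t + 4))) ^ 2 /
        Real.logb 2 (((G.a + G.b : ℕ) : ℝ) + t + 4) := by
  classical
  obtain ⟨C0, hC0, hbd⟩ := ParB.bound
  refine ⟨C0 + 3, ?_⟩
  have hv : PolyC (fun x : BGraph × ℕ => 1 ≤ x.2) [fun x => inCode x.1 x.2]
      (fun x => inCode x.1 x.2) := PolyC.var (by simp)
  obtain ⟨m, hm⟩ := PolyC.length_le (poly_nb hv)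
  have hb : ∀ (G : BGraph) (t : ℕ), 1 ≤ t → nb (inCode G t) ≤ m.eval (inCode G t).length := by
    intro G t ht
    have h3 := hm (G, t) ht
    simp only [vals_cons, vals_nil, total_cons, total_nil, Nat.add_zero, un_length] at h3
    exact h3
  let D : BGraph × ℕ × List Bool → Prop := fun x =>
    1 ≤ x.2.1 ∧ x.2.2.length = m.eval (inCode x.1 x.2.1).length
  let enc : BGraph × ℕ × List Bool → List Bool := fun x => inCode x.1 x.2.1 ++ x.2.2
  have hw : PolyC D [enc] enc := PolyC.var (by simp)
  have hlen : PolyN D [enc] (fun x => (inCode x.1 x.2.1).length) :=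
    (((poly_tOf hw).add ((poly_aOf hw).add ((poly_bOf hw).add
      ((poly_aOf hw).mul (poly_bOf hw))))).add (PolyN.const 3)).congr (fun x _ =>
        lenOf_append x.1 x.2.1 x.2.2)
  have hpre : PolyC D [enc] (fun x => inCode x.1 x.2.1) :=
    (PolyC.take hw hlen).congr (fun x _ => List.take_left)
  have hsuf : PolyC D [enc] (fun x => x.2.2) :=
    (PolyC.drop hw hlen).congr (fun x _ => List.drop_left)
  obtain ⟨u, hu, hval⟩ := poly_val hpre hsuf
  have hout : PolyC D [enc] (fun x => false :: u x) := PolyC.cons false hu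
  refine ⟨m, fun G t r => false :: u (G, t, r),
    PolyC.toTM2 enc (fun x => false :: u x) id hout, fun G t ht => ?_⟩
  have hout' : ∀ r : Fin (m.eval (inCode G t).length) → Bool,
      outVal (false :: u (G, t, List.ofFn r)) = (val (inCode G t) (List.ofFn r) : ℚ) := by
    intro r
    have h1 := hval (G, t, List.ofFn r) ⟨ht, List.length_ofFn⟩
    show ((binVal (u (G, t, List.ofFn r)) : ℕ) : ℚ) = _
    rw [binVal_eq_bval, h1]
  have hn : nOf (inCode G t) = G.a + G.b := nOf_inCode G t
  have htt : tOf (inCode G t) = t := tOf_inCode G t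
  have hk : (Cw (inCode G t)).card = vc G := card_Cw G t
  have hcov := cov_Cw G t
  have hkn : vc G ≤ G.a + G.b := by
    have h1 := card_le_card hcov.sub
    rwa [card_range, hk, hn] at h1
  have hind : (ind (adjOf (inCode G t)) (range (nOf (inCode G t)))) = numIndep G.graph := by
    rw [hn]
    exact ind_eq_numIndep G t
  have hpos : 0 < numIndep G.graph := by
    rw [← hind]
    exact card_pos.2 ⟨∅, by simp⟩
  -- the error
  set x : ℕ := G.a + G.b + t with hx
  have hx1 : 1 ≤ x := by omega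
  have hcast : ((G.a + G.b : ℕ) : ℝ) + t + 4 = (x : ℝ) + 4 := by
    rw [hx]
    push_cast
    ring
  set lam := Real.logb 2 ((x : ℝ) + 4) with hlam
  set L := Real.logb 2 lam with hL
  have hlam2 : 2 ≤ lam := Fin2.two_le_log x
  have hL1 : 1 ≤ L := Fin2.one_le_loglog x
  set k : ℕ := vc G with hkdef
  have he : (fun (G : BGraph) (t : ℕ) => (C0 + 3) * (vc G : ℝ) *
      (Real.logb 2 (Real.logb 2 (((G.a + G.b : ℕ) : ℝ) + t + 4))) ^ 2 /
        Real.logb 2 (((G.a + G.b : ℕ) : ℝ) + t + 4))
      G t = (C0 + 3) * (k : ℝ) * L ^ 2 / lam := by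
    show (C0 + 3) * (vc G : ℝ) *
      (Real.logb 2 (Real.logb 2 (((G.a + G.b : ℕ) : ℝ) + t + 4))) ^ 2 /
        Real.logb 2 (((G.a + G.b : ℕ) : ℝ) + t + 4) = _
    rw [hcast]
  set e : ℝ := (C0 + 3) * (k : ℝ) * L ^ 2 / lam with hedef
  have he0 : 0 ≤ e := by
    rw [hedef]
    have : (0 : ℝ) ≤ (k : ℝ) := Nat.cast_nonneg _
    positivity
  -- it is enough to have many good strings
  suffices h : ∃ P : (Fin (m.eval (inCode G t).length) → Bool) → Prop,
      3 * 2 ^ m.eval (inCode G t).length ≤ 4 * (univ.filter fun r => P r).card ∧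
        ∀ r, P r → |Real.logb 2 (val (inCode G t) (List.ofFn r) : ℝ) -
          Real.logb 2 (numIndep G.graph : ℝ)| ≤ e ∧ 0 < val (inCode G t) (List.ofFn r) by
    obtain ⟨P, h1, h2⟩ := h
    refine h1.trans (Nat.mul_le_mul_left 4 ?_)
    rw [Nat.card_eq_fintype_card, Fintype.card_subtype]
    refine card_le_card fun r hr => mem_filter.2 ⟨mem_univ r, ?_⟩
    obtain ⟨h3, h4⟩ := h2 r (mem_filter.1 hr).2
    refine ⟨?_, ?_⟩
    · rw [hout' r]
      exact_mod_cast h4
    · rw [hout' r, Rat.cast_natCast]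
      exact h3.trans (le_of_eq he.symm)
  have hall : 3 * 2 ^ m.eval (inCode G t).length ≤
      4 * (univ.filter fun _ : Fin (m.eval (inCode G t).length) → Bool => True).card := by
    rw [filter_true_of_mem fun _ _ => trivial, card_univ, Fintype.card_fun, Fintype.card_bool,
      Fintype.card_fin]
    omega
  by_cases h1 : (Cw (inCode G t)).card < (nOf (inCode G t) + tOf (inCode G t)).size
  · refine ⟨fun _ => True, by convert hall, fun r _ => ?_⟩
    have h2 : val (inCode G t) (List.ofFn r) = numIndep G.graph := by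
      unfold val
      rw [if_pos (decide_eq_true h1), bru_eq (adjOf_symm _) hcov.sub hcov.cov, hind]
    rw [h2, sub_self, abs_zero]
    exact ⟨he0, hpos⟩
  · have hsz : x.size ≤ k := by
      rw [hk, hn, htt, ← hx] at h1
      omega
    have hn1 : 1 ≤ k := by
      have : 0 < x.size := Nat.size_pos.2 hx1
      omega
    have h2 : ∀ r, val (inCode G t) (List.ofFn r) = 2 ^ (if decide (Fin2.qw (inCode G t) = 0) = true
        then nOf (inCode G t) - (Cw (inCode G t)).card
        else est (inCode G t) (List.ofFn (r : Fin (m.eval (inCode G t).length) → Bool))) := by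
      intro r
      unfold val
      rw [if_neg (by rw [decide_eq_true_eq]; exact h1)]
    have hqx : Fin2.qw (inCode G t) = ParB.qB x := by
      unfold Fin2.qw
      rw [hn, htt]
    obtain ⟨hb0, hb1⟩ := hbd x hx1
    have hlog : Real.logb 2 (numIndep G.graph : ℝ) ≤ ((G.a + G.b : ℕ) : ℝ) := by
      rw [Real.logb_le_iff_le_rpow one_lt_two (by exact_mod_cast hpos), Real.rpow_natCast]
      have h3 : numIndep G.graph ≤ 2 ^ (G.a + G.b) := by
        rw [← hind, hn]
        refine (ind_le_two_pow _).trans (le_of_eq ?_)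
        rw [card_range]
      exact_mod_cast h3
    have hlog0 : ((G.a + G.b : ℕ) : ℝ) - k ≤ Real.logb 2 (numIndep G.graph : ℝ) := by
      rw [Real.le_logb_iff_rpow_le one_lt_two (by exact_mod_cast hpos), ← Nat.cast_sub hkn,
        Real.rpow_natCast]
      exact_mod_cast two_pow_le G t
    have h8 : e = (k : ℝ) * (C0 * L ^ 2 / lam) + 3 * (k : ℝ) * L ^ 2 / lam := by
      rw [hedef]
      ring
    rcases Nat.eq_zero_or_pos (ParB.qB x) with hq0 | hq0
    · refine ⟨fun _ => True, by convert hall, fun r _ => ?_⟩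
      rw [h2 r, hqx, if_pos (decide_eq_true hq0), hk, hn]
      refine ⟨?_, by positivity⟩
      have h4 := hb0 hq0
      have h5 : Real.logb 2 ((2 ^ (G.a + G.b - k) : ℕ) : ℝ) = ((G.a + G.b : ℕ) : ℝ) - k := by
        rw [Nat.cast_pow, Real.logb_pow, Nat.cast_ofNat, Real.logb_self_eq_one (by norm_num),
          mul_one, Nat.cast_sub hkn]
      rw [h5, abs_sub_comm, abs_of_nonneg (by linarith)]
      have h6 : (k : ℝ) * 1 ≤ (k : ℝ) * (C0 * L ^ 2 / lam) :=
        mul_le_mul_of_nonneg_left h4 (Nat.cast_nonneg _)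
      have h7 : 0 ≤ 3 * (k : ℝ) * L ^ 2 / lam := by positivity
      rw [h8]
      linarith
    · have hP := prob_PC (n := nOf (inCode G t)) (a := aOf (inCode G t))
        (adj := adjOf (inCode G t)) (C := Cw (inCode G t)) (q := ParB.qB x) hq0 hcov
        (m := m.eval (inCode G t).length) (by
          have := hb G t ht
          unfold nb at this
          rw [hqx] at this
          exact this)
      refine ⟨_, hP, fun r hr => ?_⟩
      rw [h2 r, hqx, if_neg (by rw [decide_eq_true_eq]; omega)]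
      refine ⟨?_, by positivity⟩
      have h5 : Real.logb 2 ((2 ^ est (inCode G t) (List.ofFn r) : ℕ) : ℝ) =
          (est (inCode G t) (List.ofFn r) : ℝ) := by
        push_cast
        rw [Real.logb_pow, Real.logb_self_eq_one (by norm_num), mul_one]
      rw [h5, ← hind]
      have h6 : est (inCode G t) (List.ofFn r) = esT (nOf (inCode G t)) (aOf (inCode G t))
          (adjOf (inCode G t)) (Cw (inCode G t)) (ParB.qB x) (List.ofFn r)
          (range (nOf (inCode G t))) := by
        unfold est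
        rw [hqx]
      rw [h6]
      refine le_trans hr ?_
      rw [hk]
      have h7 := hb1 hq0
      have h9 : (1 : ℝ) ≤ 3 * (k : ℝ) * L ^ 2 / lam := Fin2.one_le_main hn1 hsz
      have h10 : (k : ℝ) * (10 / (ParB.qB x : ℝ)) ≤ (k : ℝ) * (C0 * L ^ 2 / lam) :=
        mul_le_mul_of_nonneg_left h7 (Nat.cast_nonneg _)
      have h11 : 8 * (k : ℝ) / (ParB.qB x : ℝ) ≤ (k : ℝ) * (10 / (ParB.qB x : ℝ)) := by
        have hq1 : (0 : ℝ) < (ParB.qB x : ℝ) := by exact_mod_cast hq0
        rw [← mul_div_assoc]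
        refine div_le_div_of_nonneg_right ?_ hq1.le
        have : (0 : ℝ) ≤ (k : ℝ) := Nat.cast_nonneg _
        linarith
      rw [h8]
      linarith

end Pool.Agent.Lib.SubBisC.FinC
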