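import Pool.Agent.Lib.SubBisC.CFinS
import Pool.Agent.Lib.SubBisC.CovC

/-!
**Theorem.** The number of independent sets of every bipartite graph with `n` vertices and vertex
cover number `k` is approximated within a factor `1 ± 1 / t` in randomised time polynomial in
`2 ^ (√k log k)`, `n` and `t`.
-/

set_option autoImplicit false

namespace Pool.Agent.Lib.SubBisC.FS

open Finset Pool.Agent.Lib.PolyTime Pool.Agent.Lib.Pa7c826 Pool.Agent.Lib.Pa7c826t
open Pool.Agent.Lib.SubBisX

theorem adjOf_lt_nOf {w : List Bool} {u v : ℕ} (h : adjOf w u v = true) : u < nOf w := by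
  rcases adjOf_bip h with h1 | h1
  · unfold nOf
    omega
  · unfold nOf
    omega

theorem bip_w (w : List Bool) (u v : ℕ) (h : adjOf w u v = true) : u < aOf w ↔ ¬ v < aOf w := by
  rcases adjOf_bip h with h1 | h1 <;> omega

/-- The machine's cover. -/
def cvW (w : List Bool) : Finset ℕ := cv (nOf w) (aOf w) (adjOf w)

theorem cov_cvW (G : BGraph) (t : ℕ) :
    Cov (G.a + G.b) G.a (adjOf (inCode G t)) (cvW (inCode G t)) := by
  have h := cov_cv (n := nOf (inCode G t)) (a := aOf (inCode G t)) (adj := adjOf (inCode G t))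
    (adjOf_symm _) (bip_w _) (by unfold nOf; omega) (fun u v h => adjOf_lt_nOf h)
  rw [nOf_inCode, aOf_inCode] at h
  unfold cvW
  rw [nOf_inCode, aOf_inCode]
  exact h

theorem card_cvW (G : BGraph) (t : ℕ) : (cvW (inCode G t)).card = coverNum G := by
  refine card_eq_vc (t := t) (cov_cvW G t).cov fun K hK => ?_
  exact cv_min (adjOf_symm _) (bip_w _) (fun u v h => adjOf_lt_nOf h) K hK

/-- **Theorem.** -/
theorem hasRApx_PSC : Pa7c826m.HasRApx PSC :=
  hasRApx_of_cover (cv := cvW) (fun hw => poly_cv hw) cov_cvW card_cvW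

/-- **Theorem.** -/
theorem hasRTimeG_cover :
    HasRTimeG fun G =>
      (2 : ℝ) ^ (cE * Real.sqrt (coverNum G) * Real.logb 2 ((coverNum G : ℝ) + 1)) :=
  hasRTimeG_of hasRApx_PSC

end Pool.Agent.Lib.SubBisC.FS
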